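import Mathlib

/-!
The vicinal preorder of a graph, its incidence algebra and the subalgebra of the elements that
are central modulo the radical.
-/

set_option autoImplicit false

namespace Pool.Agent.W672

open Matrix

variable {V : Type*} (G : SimpleGraph V)

/-- the vicinal preorder: every neighbour of `i` is `j` or a neighbour of `j` -/
def Le (i j : V) : Prop := ∀ l, G.Adj i l → l = j ∨ G.Adj j l

/-- equivalence of vertices -/
def Eqv (i j : V) : Prop := Le G i j ∧ Le G j i

variable {G}

theorem Le.refl (i : V) : Le G i i := fun _ h => Or.inr h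

theorem Le.trans {i j l : V} (h1 : Le G i j) (h2 : Le G j l) : Le G i l := by
  intro d hd
  rcases h1 d hd with rfl | h
  · by_cases hdl : d = l
    · exact Or.inl hdl
    · rcases h2 i hd.symm with h | h
      · subst h; exact Or.inr hd
      · rcases h1 l h.symm with h' | h'
        · exact absurd h'.symm hdl
        · exact Or.inr h'.symm
  · exact h2 d h

theorem Eqv.refl (i : V) : Eqv G i i := ⟨Le.refl i, Le.refl i⟩
theorem Eqv.symm {i j : V} (h : Eqv G i j) : Eqv G j i := ⟨h.2, h.1⟩
theorem Eqv.trans {i j l : V} (h : Eqv G i j) (h' : Eqv G j l) : Eqv G i l :=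
  ⟨h.1.trans h'.1, h'.2.trans h.2⟩

/-- adjacency is monotone, up to equality -/
theorem adj_of_le {i j p q : V} (hip : Le G i p) (hjq : Le G j q) (hij : G.Adj i j) :
    p = q ∨ G.Adj p q := by
  rcases hip j hij with rfl | h
  · -- j = p ; i adjacent to j = p
    rcases hjq i hij.symm with rfl | h
    · exact Or.inr hij.symm
    · rcases hip q h.symm with h' | h'
      · exact Or.inl h'.symm
      · exact Or.inr h'
  · rcases hjq p h.symm with rfl | h'
    · exact Or.inl rfl
    · exact Or.inr h'.symm

variable (G) in
/-- the rank of a vertex: number of vertices below it -/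
noncomputable def rk [Fintype V] (i : V) : ℕ := by
  classical exact (Finset.univ.filter (fun l => Le G l i)).card

theorem rk_le [Fintype V] {i j : V} (h : Le G i j) : rk G i ≤ rk G j := by
  classical
  unfold rk
  apply Finset.card_le_card
  intro l hl
  simp only [Finset.mem_filter, Finset.mem_univ, true_and] at hl ⊢
  exact hl.trans h

theorem rk_lt [Fintype V] {i j : V} (h : Le G i j) (h' : ¬ Le G j i) : rk G i < rk G j := by
  classical
  unfold rk
  apply Finset.card_lt_card
  rw [Finset.ssubset_iff_of_subset]
  · refine ⟨j, ?_, ?_⟩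
    · simpa using Le.refl j
    · simpa using h'
  · intro l hl
    simp only [Finset.mem_filter, Finset.mem_univ, true_and] at hl ⊢
    exact hl.trans h

theorem rk_eq [Fintype V] {i j : V} (h : Eqv G i j) : rk G i = rk G j :=
  le_antisymm (rk_le h.1) (rk_le h.2)

variable [Fintype V] [DecidableEq V] {k : Type*} [Field k]

variable (G k) in
/-- the incidence algebra -/
def incAlg : Subalgebra k (Matrix V V k) where
  carrier := {Y | ∀ i j, ¬ Le G i j → Y i j = 0}
  mul_mem' := by
    intro A B hA hB i j hij
    rw [Matrix.mul_apply]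
    apply Finset.sum_eq_zero
    intro l _
    by_cases h1 : Le G i l
    · by_cases h2 : Le G l j
      · exact absurd (h1.trans h2) hij
      · rw [hB l j h2, mul_zero]
    · rw [hA i l h1, zero_mul]
  add_mem' := by
    intro A B hA hB i j hij
    rw [Matrix.add_apply, hA i j hij, hB i j hij, add_zero]
  algebraMap_mem' := by
    intro r i j hij
    have : i ≠ j := by rintro rfl; exact hij (Le.refl i)
    rw [Matrix.algebraMap_matrix_apply, if_neg this]

theorem mem_incAlg {Y : Matrix V V k} : Y ∈ incAlg G k ↔ ∀ i j, ¬ Le G i j → Y i j = 0 :=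
  Iff.rfl

theorem le_of_mem_incAlg {Y : Matrix V V k} (hY : Y ∈ incAlg G k) {i j : V} (h : Y i j ≠ 0) :
    Le G i j := by
  by_contra hc; exact h (hY i j hc)

variable (G k) in
/-- the subalgebra of elements central modulo the radical -/
def cenAlg : Subalgebra k (Matrix V V k) where
  carrier := {Y | (∀ i j, ¬ Le G i j → Y i j = 0) ∧ (∀ i j, Eqv G i j → i ≠ j → Y i j = 0) ∧
    (∀ i j, Eqv G i j → Y i i = Y j j)}
  mul_mem' := by
    intro A B hA hB
    have key : ∀ i j, Eqv G i j → (A * B) i j = A i i * B i j := by
      intro i j hij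
      rw [Matrix.mul_apply]
      rw [Finset.sum_eq_single i]
      · intro l _ hl
        by_cases h1 : Le G i l
        · by_cases h2 : Le G l j
          · have : Eqv G i l := ⟨h1, h2.trans hij.2⟩
            rw [hA.2.1 i l this (Ne.symm hl), zero_mul]
          · rw [hB.1 l j h2, mul_zero]
        · rw [hA.1 i l h1, zero_mul]
      · simp
    refine ⟨(incAlg G k).mul_mem hA.1 hB.1, ?_, ?_⟩
    · intro i j hij hne
      rw [key i j hij, hB.2.1 i j hij hne, mul_zero]
    · intro i j hij
      rw [key i i (Eqv.refl i), key j j (Eqv.refl j), hA.2.2 i j hij, hB.2.2 i j hij]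
  add_mem' := by
    intro A B hA hB
    refine ⟨(incAlg G k).add_mem hA.1 hB.1, ?_, ?_⟩
    · intro i j hij hne
      rw [Matrix.add_apply, hA.2.1 i j hij hne, hB.2.1 i j hij hne, add_zero]
    · intro i j hij
      rw [Matrix.add_apply, Matrix.add_apply, hA.2.2 i j hij, hB.2.2 i j hij]
  algebraMap_mem' := by
    intro r
    refine ⟨(incAlg G k).algebraMap_mem r, ?_, ?_⟩
    · intro i j hij hne
      rw [Matrix.algebraMap_matrix_apply, if_neg hne]
    · intro i j hij
      rw [Matrix.algebraMap_matrix_apply, Matrix.algebraMap_matrix_apply, if_pos rfl, if_pos rfl]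

theorem cenAlg_le : cenAlg G k ≤ incAlg G k := fun _ h => h.1

theorem mem_cenAlg {Y : Matrix V V k} : Y ∈ cenAlg G k ↔
    (∀ i j, ¬ Le G i j → Y i j = 0) ∧ (∀ i j, Eqv G i j → i ≠ j → Y i j = 0) ∧
    (∀ i j, Eqv G i j → Y i i = Y j j) := Iff.rfl

variable (G k) in
/-- evaluation at a class: a character of `cenAlg` -/
def chr (i : V) : cenAlg G k →ₐ[k] k where
  toFun Z := Z.1 i i
  map_one' := by simp
  map_mul' := by
    intro A B
    show (A.1 * B.1) i i = _
    rw [Matrix.mul_apply]
    rw [Finset.sum_eq_single i]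
    · intro l _ hl
      by_cases h1 : Le G i l
      · by_cases h2 : Le G l i
        · rw [A.2.2.1 i l ⟨h1, h2⟩ (Ne.symm hl), zero_mul]
        · rw [B.2.1 l i h2, mul_zero]
      · rw [A.2.1 i l h1, zero_mul]
    · simp
  map_zero' := by simp
  map_add' := by intro A B; simp
  commutes' := by
    intro r
    show (algebraMap k (Matrix V V k) r) i i = r
    rw [Matrix.algebraMap_matrix_apply, if_pos rfl]; rfl

@[simp] theorem chr_apply (i : V) (Z : cenAlg G k) : chr G k i Z = Z.1 i i := rfl

/-- strictly triangular matrices are nilpotent -/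
theorem nilp_of_strict {Y : Matrix V V k} (hY : ∀ i j, Y i j ≠ 0 → rk G i < rk G j) :
    IsNilpotent Y := by
  have key : ∀ m : ℕ, ∀ i j, (Y ^ m) i j ≠ 0 → rk G i + m ≤ rk G j := by
    intro m
    induction m with
    | zero =>
      intro i j h
      rw [pow_zero] at h
      have : i = j := by
        by_contra hc; exact h (Matrix.one_apply_ne hc)
      subst this; simp
    | succ m ih =>
      intro i j h
      rw [pow_succ, Matrix.mul_apply] at h
      obtain ⟨l, _, hl⟩ := Finset.exists_ne_zero_of_sum_ne_zero h
      have h1 := ih i l (left_ne_zero_of_mul hl)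
      have h2 := hY l j (right_ne_zero_of_mul hl)
      omega
  refine ⟨Fintype.card V + 1, ?_⟩
  ext i j
  by_contra h
  have h1 := key _ i j h
  have h2 : rk G j ≤ Fintype.card V := by
    classical
    unfold rk
    exact Finset.card_le_univ _
  omega

theorem strict_of_cen {Z : Matrix V V k} (hZ : Z ∈ cenAlg G k) (h0 : ∀ i, Z i i = 0) :
    ∀ i j, Z i j ≠ 0 → rk G i < rk G j := by
  intro i j h
  have h1 : Le G i j := le_of_mem_incAlg (cenAlg_le hZ) h
  apply rk_lt h1
  intro h2
  by_cases hij : i = j
  · subst hij; exact h (h0 i)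
  · exact h (hZ.2.1 i j ⟨h1, h2⟩ hij)

theorem nilp_of_cen {Z : Matrix V V k} (hZ : Z ∈ cenAlg G k) (h0 : ∀ i, Z i i = 0) :
    IsNilpotent Z := nilp_of_strict (strict_of_cen hZ h0)

theorem cen_of_nilp {Z : Matrix V V k} (hZ : Z ∈ cenAlg G k) (h : IsNilpotent Z) (i : V) :
    Z i i = 0 := by
  obtain ⟨m, hm⟩ := h
  have : (chr G k i ⟨Z, hZ⟩) ^ m = 0 := by
    rw [← map_pow]
    have : (⟨Z, hZ⟩ : cenAlg G k) ^ m = 0 := by
      apply Subtype.ext
      simpa using hm
    rw [this, map_zero]
  exact eq_zero_of_pow_eq_zero this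

/-- trace characterisation of `cenAlg` inside `incAlg` -/
theorem cen_iff_trace {Z : Matrix V V k} (hZ : Z ∈ incAlg G k) :
    Z ∈ cenAlg G k ↔ ∀ Y ∈ incAlg G k, ∀ Y' ∈ incAlg G k,
      (Z * (Y * Y' - Y' * Y)).trace = 0 := by
  constructor
  · intro hc Y hY Y' hY'
    have h1 : ∀ C : Matrix V V k, C ∈ incAlg G k → (Z * C).trace = ∑ i, Z i i * C i i := by
      intro C hC
      rw [Matrix.trace]
      apply Finset.sum_congr rfl
      intro i _
      rw [Matrix.diag_apply, Matrix.mul_apply]
      rw [Finset.sum_eq_single i]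
      · intro l _ hl
        by_cases h1 : Le G i l
        · by_cases h2 : Le G l i
          · rw [hc.2.1 i l ⟨h1, h2⟩ (Ne.symm hl), zero_mul]
          · rw [hC l i h2, mul_zero]
        · rw [hc.1 i l h1, zero_mul]
      · simp
    rw [h1 _ ((incAlg G k).sub_mem ((incAlg G k).mul_mem hY hY')
      ((incAlg G k).mul_mem hY' hY))]
    simp only [Matrix.sub_apply, mul_sub, Finset.sum_sub_distrib]
    rw [sub_eq_zero]
    simp only [Matrix.mul_apply, Finset.mul_sum]
    rw [Finset.sum_comm]
    apply Finset.sum_congr rfl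
    intro i _
    apply Finset.sum_congr rfl
    intro j _
    by_cases h1 : Le G i j
    · by_cases h2 : Le G j i
      · rw [hc.2.2 i j ⟨h1, h2⟩]; ring
      · rw [hY j i h2]; ring
    · rw [hY' i j h1]; ring
  · intro h
    refine ⟨hZ, ?_, ?_⟩
    · intro i j hij hne
      have hY : (Matrix.single j j (1 : k)) ∈ incAlg G k := by
        intro a b hab
        rw [Matrix.single_apply]
        split_ifs with hc
        · obtain ⟨rfl, rfl⟩ := hc; exact absurd (Le.refl _) hab
        · rfl
      have hY' : (Matrix.single j i (1 : k)) ∈ incAlg G k := by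
        intro a b hab
        rw [Matrix.single_apply]
        split_ifs with hc
        · obtain ⟨rfl, rfl⟩ := hc; exact absurd hij.2 hab
        · rfl
      have := h _ hY _ hY'
      rw [Matrix.single_mul_single_same, Matrix.single_mul_single_of_ne _ _ _ _ hne, sub_zero,
        mul_one, Matrix.trace_mul_single] at this
      simpa using this
    · intro i j hij
      by_cases hne : i = j
      · rw [hne]
      have hY : (Matrix.single i j (1 : k)) ∈ incAlg G k := by
        intro a b hab
        rw [Matrix.single_apply]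
        split_ifs with hc
        · obtain ⟨rfl, rfl⟩ := hc; exact absurd hij.1 hab
        · rfl
      have hY' : (Matrix.single j i (1 : k)) ∈ incAlg G k := by
        intro a b hab
        rw [Matrix.single_apply]
        split_ifs with hc
        · obtain ⟨rfl, rfl⟩ := hc; exact absurd hij.2 hab
        · rfl
      have := h _ hY _ hY'
      rw [Matrix.single_mul_single_same, Matrix.single_mul_single_same, mul_sub,
        Matrix.trace_sub, Matrix.trace_mul_single, Matrix.trace_mul_single] at this
      simp at this
      exact sub_eq_zero.mp this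

/-- indicator of a class -/
theorem ind_mem_cen (b : V) [DecidablePred (fun i => Eqv G b i)] :
    (Matrix.diagonal (fun i => if Eqv G b i then (1 : k) else 0)) ∈ cenAlg G k := by
  refine ⟨?_, ?_, ?_⟩
  · intro i j hij
    have : i ≠ j := by rintro rfl; exact hij (Le.refl i)
    rw [Matrix.diagonal_apply_ne _ this]
  · intro i j _ hne
    rw [Matrix.diagonal_apply_ne _ hne]
  · intro i j hij
    rw [Matrix.diagonal_apply_eq, Matrix.diagonal_apply_eq]
    by_cases h : Eqv G b i
    · rw [if_pos h, if_pos (h.trans hij)]
    · rw [if_neg h, if_neg (fun h' => h (h'.trans hij.symm))]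

end Pool.Agent.W672
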