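import Mathlib
import Pool.Agent.W672.Inc

/-!
The bracket of the two-step nilpotent Lie algebra of a graph, in coordinates.
-/

set_option autoImplicit false

namespace Pool.Agent.W672

open Matrix

section

variable {V : Type*} (G : SimpleGraph V) {k : Type*} [Field k]

open Classical in
/-- the bracket of two vectors of vertex coordinates, as a matrix of edge coordinates -/
noncomputable def om (u v : V → k) : Matrix V V k :=
  Matrix.of fun i j => if G.Adj i j then u i * v j - u j * v i else 0

variable {G}

theorem om_adj {i j : V} (h : G.Adj i j) (u v : V → k) :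
    om G u v i j = u i * v j - u j * v i := by
  simp [om, h]

theorem om_nadj {i j : V} (h : ¬ G.Adj i j) (u v : V → k) : om G u v i j = 0 := by
  simp [om, h]

variable (G k) in
/-- antisymmetric matrices supported on the edges -/
def wsp : Submodule k (Matrix V V k) where
  carrier := {F | (∀ i j, F i j = - F j i) ∧ ∀ i j, ¬ G.Adj i j → F i j = 0}
  add_mem' := by
    intro A B hA hB
    refine ⟨fun i j => ?_, fun i j h => ?_⟩
    · rw [Matrix.add_apply, Matrix.add_apply, hA.1 i j, hB.1 i j]; ring
    · rw [Matrix.add_apply, hA.2 i j h, hB.2 i j h, add_zero]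
  zero_mem' := by
    refine ⟨fun i j => ?_, fun i j h => ?_⟩ <;> simp
  smul_mem' := by
    intro c A hA
    refine ⟨fun i j => ?_, fun i j h => ?_⟩
    · rw [Matrix.smul_apply, Matrix.smul_apply, hA.1 i j]; simp
    · rw [Matrix.smul_apply, hA.2 i j h, smul_zero]

theorem mem_wsp {F : Matrix V V k} : F ∈ wsp G k ↔
    (∀ i j, F i j = - F j i) ∧ ∀ i j, ¬ G.Adj i j → F i j = 0 := Iff.rfl

theorem om_mem (u v : V → k) : om G u v ∈ wsp G k := by
  refine ⟨fun i j => ?_, fun i j h => om_nadj h u v⟩
  by_cases h : G.Adj i j
  · rw [om_adj h, om_adj h.symm]; ring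
  · rw [om_nadj h, om_nadj (fun h' => h h'.symm)]; simp

theorem om_self (u : V → k) : om G u u = 0 := by
  ext i j
  by_cases h : G.Adj i j
  · rw [om_adj h]; simp; ring
  · rw [om_nadj h]; simp

theorem om_add_left (u u' v : V → k) : om G (u + u') v = om G u v + om G u' v := by
  ext i j
  by_cases h : G.Adj i j
  · rw [Matrix.add_apply, om_adj h, om_adj h, om_adj h]; simp; ring
  · rw [Matrix.add_apply, om_nadj h, om_nadj h, om_nadj h]; simp

theorem om_add_right (u v v' : V → k) : om G u (v + v') = om G u v + om G u v' := by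
  ext i j
  by_cases h : G.Adj i j
  · rw [Matrix.add_apply, om_adj h, om_adj h, om_adj h]; simp; ring
  · rw [Matrix.add_apply, om_nadj h, om_nadj h, om_nadj h]; simp

theorem om_smul_left (c : k) (u v : V → k) : om G (c • u) v = c • om G u v := by
  ext i j
  by_cases h : G.Adj i j
  · rw [Matrix.smul_apply, om_adj h, om_adj h]; simp; ring
  · rw [Matrix.smul_apply, om_nadj h, om_nadj h]; simp

theorem om_smul_right (c : k) (u v : V → k) : om G u (c • v) = c • om G u v := by
  ext i j
  by_cases h : G.Adj i j
  · rw [Matrix.smul_apply, om_adj h, om_adj h]; simp; ring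
  · rw [Matrix.smul_apply, om_nadj h, om_nadj h]; simp

variable (G k) in
/-- the bilinear map `om` -/
noncomputable def omB : (V → k) →ₗ[k] (V → k) →ₗ[k] Matrix V V k :=
  LinearMap.mk₂ k (om G) om_add_left om_smul_left om_add_right om_smul_right

@[simp] theorem omB_apply (u v : V → k) : omB G k u v = om G u v := rfl

theorem om_swap (u v : V → k) : om G u v = - om G v u := by
  ext i j
  by_cases h : G.Adj i j
  · rw [Matrix.neg_apply, om_adj h, om_adj h]; ring
  · rw [Matrix.neg_apply, om_nadj h, om_nadj h]; simp

end

section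

variable {V : Type*} {G : SimpleGraph V} [Fintype V] [DecidableEq V] {k : Type*} [Field k]

omit [Fintype V] in
theorem om_single (p q i j : V) (h : G.Adj i j) :
    om G (Pi.single p (1 : k)) (Pi.single q 1) i j =
      (if i = p then 1 else 0) * (if j = q then 1 else 0) -
      (if j = p then 1 else 0) * (if i = q then 1 else 0) := by
  rw [om_adj h]
  simp only [Pi.single_apply]

omit [Fintype V] in
theorem om_single_nadj {p q : V} (h : ¬ G.Adj p q) :
    om G (Pi.single p (1 : k)) (Pi.single q 1) = 0 := by
  ext i j
  by_cases hij : G.Adj i j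
  · rw [om_single p q i j hij, Matrix.zero_apply]
    have h1 : (if i = p then (1 : k) else 0) * (if j = q then 1 else 0) = 0 := by
      split_ifs with h1 h2
      · subst h1; subst h2; exact absurd hij h
      all_goals simp
    have h2 : (if j = p then (1 : k) else 0) * (if i = q then 1 else 0) = 0 := by
      split_ifs with h1 h2
      · subst h1; subst h2; exact absurd hij.symm h
      all_goals simp
    rw [h1, h2, sub_zero]
  · rw [om_nadj hij]; simp

theorem vec_sum (u : V → k) : ∑ i, u i • (Pi.single i (1 : k) : V → k) = u := by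
  have := (Pi.basisFun k V).sum_repr u
  simpa using this

/-- universal property of the graph bracket -/
theorem univ_om [CharZero k] {X : Type*} [AddCommGroup X] [Module k X]
    (β : (V → k) →ₗ[k] (V → k) →ₗ[k] X) (halt : ∀ u, β u u = 0)
    (h0 : ∀ p q, ¬ G.Adj p q → β (Pi.single p 1) (Pi.single q 1) = 0) :
    ∃ Λ : Matrix V V k →ₗ[k] X, ∀ u v, β u v = Λ (om G u v) := by
  classical
  have hsw : ∀ u v, β v u = - β u v := by
    intro u v
    have := halt (u + v)
    rw [map_add, map_add, LinearMap.add_apply, LinearMap.add_apply, halt, halt, zero_add,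
      add_zero] at this
    exact eq_neg_of_add_eq_zero_left this
  have hexp : ∀ u v, β u v = ∑ p, ∑ q, (u p * v q) • β (Pi.single p 1) (Pi.single q 1) := by
    intro u v
    calc β u v = β (∑ i, u i • Pi.single i 1) (∑ j, v j • Pi.single j 1) := by
          rw [vec_sum, vec_sum]
      _ = ∑ p, β (u p • Pi.single p 1) (∑ j, v j • Pi.single j 1) := by
          rw [map_sum β, LinearMap.sum_apply]
      _ = _ := by
          apply Finset.sum_congr rfl
          intro p _
          rw [map_sum (β (u p • Pi.single p 1))]
          apply Finset.sum_congr rfl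
          intro q _
          rw [map_smul, map_smul, LinearMap.smul_apply, smul_smul, mul_comm]
  let Λ : Matrix V V k →ₗ[k] X :=
    { toFun := fun F => (2⁻¹ : k) • ∑ p, ∑ q, F p q • β (Pi.single p 1) (Pi.single q 1)
      map_add' := by
        intro F F'
        simp only [Matrix.add_apply, add_smul, Finset.sum_add_distrib, smul_add]
      map_smul' := by
        intro c F
        simp only [Matrix.smul_apply, smul_eq_mul, mul_smul, ← Finset.smul_sum, RingHom.id_apply]
        rw [smul_comm] }
  refine ⟨Λ, fun u v => ?_⟩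
  show β u v = (2⁻¹ : k) • ∑ p, ∑ q, om G u v p q • β (Pi.single p 1) (Pi.single q 1)
  have h1 : ∑ p, ∑ q, om G u v p q • β (Pi.single p 1) (Pi.single q 1) = β u v - β v u := by
    rw [hexp u v, hexp v u, ← Finset.sum_sub_distrib]
    apply Finset.sum_congr rfl
    intro p _
    rw [← Finset.sum_sub_distrib]
    apply Finset.sum_congr rfl
    intro q _
    by_cases h : G.Adj p q
    · rw [om_adj h, sub_smul]
      congr 2
      ring
    · rw [h0 p q h]; simp
  rw [h1, hsw u v, sub_neg_eq_add, ← two_smul k, smul_smul, inv_mul_cancel₀ two_ne_zero, one_smul]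

/-- every element of `wsp` is a combination of brackets of basis vectors -/
theorem wsp_exp [CharZero k] {F : Matrix V V k} (hF : F ∈ wsp G k) :
    F = (2⁻¹ : k) • ∑ p, ∑ q, F p q • om G (Pi.single p (1 : k)) (Pi.single q 1) := by
  ext i j
  rw [Matrix.smul_apply, Matrix.sum_apply]
  simp only [Matrix.sum_apply, Matrix.smul_apply]
  by_cases h : G.Adj i j
  · have : ∀ p q, F p q • om G (Pi.single p (1 : k)) (Pi.single q 1) i j =
      (if i = p then (if j = q then F p q else 0) else 0) -
      (if j = p then (if i = q then F p q else 0) else 0) := by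
      intro p q
      rw [om_single p q i j h]
      split_ifs <;> simp
    simp only [this, Finset.sum_sub_distrib]
    simp [hF.1 j i]
    field_simp
    ring
  · rw [hF.2 i j h]
    simp only [om_nadj h]
    simp

theorem wsp_le_span [CharZero k] : wsp G k ≤
    Submodule.span k (Set.range fun uv : (V → k) × (V → k) => om G uv.1 uv.2) := by
  intro F hF
  rw [wsp_exp hF]
  apply Submodule.smul_mem
  apply Submodule.sum_mem
  intro p _
  apply Submodule.sum_mem
  intro q _
  apply Submodule.smul_mem
  apply Submodule.subset_span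
  exact ⟨(_, _), rfl⟩

theorem mulVec_single_one' (Y : Matrix V V k) (p i : V) :
    (Y *ᵥ Pi.single p (1 : k)) i = Y i p := by
  simp

/-- infinitesimal criterion: derivations give elements of the incidence algebra -/
theorem mem_incAlg_of_der {Y : Matrix V V k}
    (h : ∀ p q, p ≠ q → ¬ G.Adj p q →
      om G (Y *ᵥ Pi.single p (1 : k)) (Pi.single q 1) +
      om G (Pi.single p (1 : k)) (Y *ᵥ Pi.single q 1) = 0) : Y ∈ incAlg G k := by
  intro i p hip
  unfold Le at hip
  push Not at hip
  obtain ⟨q, hiq, hqp, hpq⟩ := hip
  have h1 := congrFun (congrFun (h p q (Ne.symm hqp) hpq) i) q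
  rw [Matrix.add_apply, om_adj hiq, om_adj hiq, Matrix.zero_apply] at h1
  simp only [mulVec_single_one', Pi.single_apply] at h1
  have hiq' : i ≠ q := hiq.ne
  have hip' : i ≠ p := by rintro rfl; exact hpq hiq
  simpa [hiq', hip', hqp] using h1

theorem der_of_mem_incAlg {Y : Matrix V V k} (hY : Y ∈ incAlg G k) (p q : V)
    (hpq : ¬ G.Adj p q) :
      om G (Y *ᵥ Pi.single p (1 : k)) (Pi.single q 1) +
      om G (Pi.single p (1 : k)) (Y *ᵥ Pi.single q 1) = 0 := by
  ext i j
  rw [Matrix.add_apply, Matrix.zero_apply]
  by_cases hij : G.Adj i j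
  · rw [om_adj hij, om_adj hij]
    simp only [mulVec_single_one', Pi.single_apply]
    by_cases hpq' : p = q
    · subst hpq'; ring
    -- Y i p * [j = q] - Y j p * [i = q] + [i = p] * Y j q - [j = p] * Y i q
    have a1 : Y i p * (if j = q then 1 else 0) = 0 := by
      split_ifs with h
      · subst h
        by_contra hc
        rcases adj_of_le (le_of_mem_incAlg hY (left_ne_zero_of_mul hc)) (Le.refl j) hij with h | h
        · exact hpq' h
        · exact hpq h
      · simp
    have a2 : Y j p * (if i = q then 1 else 0) = 0 := by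
      split_ifs with h
      · subst h
        by_contra hc
        rcases adj_of_le (le_of_mem_incAlg hY (left_ne_zero_of_mul hc)) (Le.refl i)
          hij.symm with h | h
        · exact hpq' h
        · exact hpq h
      · simp
    have a3 : (if i = p then 1 else 0) * Y j q = 0 := by
      split_ifs with h
      · subst h
        by_contra hc
        rcases adj_of_le (Le.refl i) (le_of_mem_incAlg hY (right_ne_zero_of_mul hc)) hij with h | h
        · exact hpq' h
        · exact hpq h
      · simp
    have a4 : (if j = p then 1 else 0) * Y i q = 0 := by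
      split_ifs with h
      · subst h
        by_contra hc
        rcases adj_of_le (Le.refl j) (le_of_mem_incAlg hY (right_ne_zero_of_mul hc))
          hij.symm with h | h
        · exact hpq' h
        · exact hpq h
      · simp
    rw [a1, a2, a3, a4]; ring
  · rw [om_nadj hij, om_nadj hij, add_zero]

theorem mulVec_lin (Y : Matrix V V k) (u : V → k) : Y *ᵥ u = Matrix.toLin' Y u := by
  simp

/-- the derivation of the edge space induced by an element of the incidence algebra -/
theorem exists_der [CharZero k] {Y : Matrix V V k} (hY : Y ∈ incAlg G k) :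
    ∃ Λ : Matrix V V k →ₗ[k] Matrix V V k, ∀ u v,
      om G (Y *ᵥ u) v + om G u (Y *ᵥ v) = Λ (om G u v) := by
  obtain ⟨Λ, h⟩ := univ_om (G := G)
    ((omB G k).comp (Matrix.toLin' Y) + (omB G k).compl₂ (Matrix.toLin' Y)) (by
      intro u
      simp only [LinearMap.add_apply, LinearMap.comp_apply, LinearMap.compl₂_apply, omB_apply,
        Matrix.toLin'_apply]
      rw [om_swap u (Y *ᵥ u), add_neg_cancel]) (by
      intro p q hpq
      simp only [LinearMap.add_apply, LinearMap.comp_apply, LinearMap.compl₂_apply, omB_apply,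
        Matrix.toLin'_apply]
      exact der_of_mem_incAlg hY p q hpq)
  exact ⟨Λ, fun u v => h u v⟩

/-- the map of the edge space induced by a matrix preserving the relations -/
theorem exists_act [CharZero k] {A : Matrix V V k}
    (hA : ∀ p q, ¬ G.Adj p q → om G (A *ᵥ Pi.single p (1 : k)) (A *ᵥ Pi.single q 1) = 0) :
    ∃ Λ : Matrix V V k →ₗ[k] Matrix V V k, ∀ u v,
      om G (A *ᵥ u) (A *ᵥ v) = Λ (om G u v) := by
  obtain ⟨Λ, h⟩ := univ_om (G := G)
    (((omB G k).comp (Matrix.toLin' A)).compl₂ (Matrix.toLin' A)) (by
      intro u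
      simp only [LinearMap.comp_apply, LinearMap.compl₂_apply, omB_apply,
        Matrix.toLin'_apply]
      exact om_self _) (by
      intro p q hpq
      simp only [LinearMap.comp_apply, LinearMap.compl₂_apply, omB_apply,
        Matrix.toLin'_apply]
      exact hA p q hpq)
  exact ⟨Λ, fun u v => h u v⟩

omit [DecidableEq V] in
/-- entries of `A F Aᵀ` -/
theorem conj_apply (A F : Matrix V V k) (i j : V) :
    (A * F * Aᵀ) i j = ∑ p, ∑ q, A i p * F p q * A j q := by
  rw [Matrix.mul_apply, Finset.sum_comm]
  apply Finset.sum_congr rfl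
  intro q _
  rw [Matrix.mul_apply, Finset.sum_mul]
  rfl

/-- block diagonal matrices act on brackets by congruence -/
theorem om_block [CharZero k] {A : Matrix V V k} (hA : ∀ i j, ¬ Eqv G i j → A i j = 0) (u v : V → k) :
    om G (A *ᵥ u) (A *ᵥ v) = A * om G u v * Aᵀ := by
  ext i j
  rw [conj_apply]
  have hexp : (A *ᵥ u) i * (A *ᵥ v) j - (A *ᵥ u) j * (A *ᵥ v) i =
      ∑ p, ∑ q, A i p * (u p * v q - u q * v p) * A j q := by
    have e1 : (A *ᵥ u) i * (A *ᵥ v) j = ∑ p, ∑ q, A i p * (u p * v q) * A j q := by
      rw [Matrix.mulVec, Matrix.mulVec, dotProduct, dotProduct, Finset.sum_mul_sum]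
      apply Finset.sum_congr rfl; intro p _
      apply Finset.sum_congr rfl; intro q _
      ring
    have e2 : (A *ᵥ u) j * (A *ᵥ v) i = ∑ p, ∑ q, A i p * (u q * v p) * A j q := by
      rw [mul_comm, Matrix.mulVec, Matrix.mulVec, dotProduct, dotProduct, Finset.sum_mul_sum]
      apply Finset.sum_congr rfl; intro p _
      apply Finset.sum_congr rfl; intro q _
      ring
    rw [e1, e2, ← Finset.sum_sub_distrib]
    apply Finset.sum_congr rfl; intro p _
    rw [← Finset.sum_sub_distrib]
    apply Finset.sum_congr rfl; intro q _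
    ring
  by_cases hij : i = j
  · subst hij
    rw [om_nadj (G.loopless.irrefl i)]
    have h2 : ∑ p, ∑ q, A i p * om G u v p q * A i q =
        - ∑ p, ∑ q, A i p * om G u v p q * A i q := by
      conv_lhs => rw [Finset.sum_comm]
      rw [← Finset.sum_neg_distrib]
      apply Finset.sum_congr rfl; intro p _
      rw [← Finset.sum_neg_distrib]
      apply Finset.sum_congr rfl; intro q _
      rw [(om_mem u v).1 q p]; ring
    exact (self_eq_neg.mp h2).symm
  by_cases h : G.Adj i j
  · rw [om_adj h, hexp]
    apply Finset.sum_congr rfl; intro p _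
    apply Finset.sum_congr rfl; intro q _
    by_cases h1 : Eqv G i p
    · by_cases h2 : Eqv G j q
      · rcases adj_of_le h1.1 h2.1 h with h3 | h3
        · subst h3
          rw [om_nadj (G.loopless.irrefl p)]; ring
        · rw [om_adj h3]
      · rw [hA j q h2]; ring
    · rw [hA i p h1]; ring
  · rw [om_nadj h]
    symm
    apply Finset.sum_eq_zero; intro p _
    apply Finset.sum_eq_zero; intro q _
    by_cases h1 : Eqv G i p
    · by_cases h2 : Eqv G j q
      · by_cases h3 : G.Adj p q
        · rcases adj_of_le h1.2 h2.2 h3 with h4 | h4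
          · exact absurd h4 hij
          · exact absurd h4 h
        · rw [om_nadj h3]; ring
      · rw [hA j q h2]; ring
    · rw [hA i p h1]; ring

/-- elements of the incidence algebra act on brackets by congruence followed by restriction to
the edges -/
theorem om_inc {A : Matrix V V k} (hA : A ∈ incAlg G k) (u v : V → k) {i j : V}
    (h : G.Adj i j) :
    om G (A *ᵥ u) (A *ᵥ v) i j = (A * om G u v * Aᵀ) i j := by
  rw [conj_apply]
  have e1 : (A *ᵥ u) i * (A *ᵥ v) j = ∑ p, ∑ q, A i p * (u p * v q) * A j q := by
    rw [Matrix.mulVec, Matrix.mulVec, dotProduct, dotProduct, Finset.sum_mul_sum]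
    apply Finset.sum_congr rfl; intro p _
    apply Finset.sum_congr rfl; intro q _
    ring
  have e2 : (A *ᵥ u) j * (A *ᵥ v) i = ∑ p, ∑ q, A i p * (u q * v p) * A j q := by
    rw [mul_comm, Matrix.mulVec, Matrix.mulVec, dotProduct, dotProduct, Finset.sum_mul_sum]
    apply Finset.sum_congr rfl; intro p _
    apply Finset.sum_congr rfl; intro q _
    ring
  rw [om_adj h, e1, e2, ← Finset.sum_sub_distrib]
  apply Finset.sum_congr rfl; intro p _
  rw [← Finset.sum_sub_distrib]
  apply Finset.sum_congr rfl; intro q _
  by_cases h1 : Le G i p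
  · by_cases h2 : Le G j q
    · rcases adj_of_le h1 h2 h with h3 | h3
      · subst h3
        rw [om_nadj (G.loopless.irrefl p)]; ring
      · rw [om_adj h3]; ring
    · rw [hA j q h2]; ring
  · rw [hA i p h1]; ring

variable (G k) in
open Classical in
/-- restriction to the edges -/
noncomputable def mask : Matrix V V k →ₗ[k] Matrix V V k where
  toFun F := Matrix.of fun i j => if G.Adj i j then F i j else 0
  map_add' := by
    intro F F'
    ext i j
    by_cases h : G.Adj i j <;> simp [h]
  map_smul' := by
    intro c F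
    ext i j
    by_cases h : G.Adj i j <;> simp [h]

omit [Fintype V] [DecidableEq V] in
theorem mask_adj {i j : V} (h : G.Adj i j) (F : Matrix V V k) : mask G k F i j = F i j := by
  simp [mask, h]

omit [Fintype V] [DecidableEq V] in
theorem mask_nadj {i j : V} (h : ¬ G.Adj i j) (F : Matrix V V k) : mask G k F i j = 0 := by
  simp [mask, h]

theorem om_inc' {A : Matrix V V k} (hA : A ∈ incAlg G k) (u v : V → k) :
    om G (A *ᵥ u) (A *ᵥ v) = mask G k (A * om G u v * Aᵀ) := by
  ext i j
  by_cases h : G.Adj i j
  · rw [om_inc hA u v h, mask_adj h]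
  · rw [om_nadj h, mask_nadj h]

theorem mask_mem {A F : Matrix V V k} (hF : F ∈ wsp G k) :
    mask G k (A * F * Aᵀ) ∈ wsp G k := by
  refine ⟨fun i j => ?_, fun i j h => mask_nadj h _⟩
  by_cases h : G.Adj i j
  · rw [mask_adj h, mask_adj h.symm, conj_apply, conj_apply, Finset.sum_comm,
      ← Finset.sum_neg_distrib]
    apply Finset.sum_congr rfl; intro p _
    rw [← Finset.sum_neg_distrib]
    apply Finset.sum_congr rfl; intro q _
    rw [hF.1 q p]; ring
  · rw [mask_nadj h, mask_nadj (fun h' => h h'.symm), neg_zero]

theorem twist_inj {A F : Matrix V V k} (hA : A ∈ cenAlg G k) (h1 : ∀ i, A i i = 1)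
    (h0 : mask G k (A * F * Aᵀ) = 0) (hF : ∀ i j, ¬ G.Adj i j → F i j = 0) : F = 0 := by
  classical
  by_contra hne
  have hex : (Finset.univ.filter (fun ij : V × V => F ij.1 ij.2 ≠ 0)).Nonempty := by
    by_contra hc
    apply hne
    ext i j
    by_contra h
    exact hc ⟨(i, j), by simpa using h⟩
  obtain ⟨⟨i, j⟩, hij, hmax⟩ := Finset.exists_max_image _
    (fun ij : V × V => rk G ij.1 + rk G ij.2) hex
  simp only [Finset.mem_filter, Finset.mem_univ, true_and] at hij hmax
  have hadj : G.Adj i j := by
    by_contra h; exact hij (hF i j h)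
  have h2 := congrFun (congrFun h0 i) j
  rw [mask_adj hadj, conj_apply, Matrix.zero_apply] at h2
  have key : ∀ a p, A a p ≠ 0 → p ≠ a → rk G a < rk G p := by
    intro a p hap hne'
    have hle := le_of_mem_incAlg (cenAlg_le hA) hap
    apply rk_lt hle
    intro hle'
    exact hap (hA.2.1 a p ⟨hle, hle'⟩ (Ne.symm hne'))
  have key' : ∀ a p, A a p ≠ 0 → rk G a ≤ rk G p := fun a p hap =>
    rk_le (le_of_mem_incAlg (cenAlg_le hA) hap)
  rw [Finset.sum_eq_single i, Finset.sum_eq_single j] at h2
  · rw [h1, h1, one_mul, mul_one] at h2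
    exact hij h2
  · intro q _ hq
    by_contra hc
    have a1 := hmax (i, q) (right_ne_zero_of_mul (left_ne_zero_of_mul hc))
    have a2 := key j q (right_ne_zero_of_mul hc) hq
    simp only at a1
    omega
  · simp
  · intro p _ hp
    apply Finset.sum_eq_zero
    intro q _
    by_contra hc
    have a1 := hmax (p, q) (right_ne_zero_of_mul (left_ne_zero_of_mul hc))
    have a2 := key i p (left_ne_zero_of_mul (left_ne_zero_of_mul hc)) hp
    have a3 := key' j q (right_ne_zero_of_mul hc)
    simp only at a1
    omega
  · simp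

theorem isUnit_of_cen {A : Matrix V V k} (hA : A ∈ cenAlg G k) (h1 : ∀ i, A i i = 1) :
    IsUnit A := by
  have h : IsNilpotent (A - 1) := by
    apply nilp_of_cen ((cenAlg G k).sub_mem hA (cenAlg G k).one_mem)
    intro i
    rw [Matrix.sub_apply, h1, Matrix.one_apply_eq, sub_self]
  have := h.isUnit_one_add
  rwa [add_sub_cancel] at this

end

end Pool.Agent.W672
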