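import Mathlib
import Pool.Agent.W672.Omega

/-!
The two-step nilpotent Lie algebra of a graph, through its coordinate maps.
-/

set_option autoImplicit false

namespace Pool.Agent.W672

open Matrix

/-- coordinates on a Lie algebra isomorphic to the two-step nilpotent Lie algebra of `G` -/
structure GDat {V : Type*} [Fintype V] [DecidableEq V] (G : SimpleGraph V) (k : Type*) [Field k]
    (L : Type*) [LieRing L] [LieAlgebra k L] where
  /-- vertex coordinates -/
  φ : L →ₗ[k] (V → k)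
  /-- edge coordinates -/
  κ : L →ₗ[k] Matrix V V k
  φ_br : ∀ x y : L, φ ⁅x, y⁆ = 0
  κ_br : ∀ x y : L, κ ⁅x, y⁆ = om G (φ x) (φ y)
  κ_mem : ∀ x, κ x ∈ wsp G k
  inj : ∀ x, φ x = 0 → κ x = 0 → x = 0
  surj : ∀ u, ∀ F ∈ wsp G k, ∃ x, φ x = u ∧ κ x = F

section basis

variable {n : ℕ} {G : SimpleGraph (Fin n)} {k : Type*} [Field k]
  {L : Type*} [LieRing L] [LieAlgebra k L]

/-- the vertex coordinates from a basis -/
noncomputable def phiB (b : Module.Basis (Fin n ⊕ G.edgeSet) k L) : L →ₗ[k] (Fin n → k) :=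
  LinearMap.pi fun i => b.coord (Sum.inl i)

open Classical in
/-- the edge coordinates from a basis -/
noncomputable def kapB (b : Module.Basis (Fin n ⊕ G.edgeSet) k L) :
    L →ₗ[k] Matrix (Fin n) (Fin n) k where
  toFun x := Matrix.of fun i j => if h : G.Adj i j then
    (if i < j then (1 : k) else -1) * b.repr x (Sum.inr ⟨s(i, j), G.mem_edgeSet.mpr h⟩) else 0
  map_add' := by
    intro x y
    ext i j
    by_cases h : G.Adj i j
    · simp [h, mul_add]
    · simp [h]
  map_smul' := by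
    intro c x
    ext i j
    by_cases h : G.Adj i j
    · simp [h, mul_left_comm]
    · simp [h]

theorem kapB_adj (b : Module.Basis (Fin n ⊕ G.edgeSet) k L) (x : L) {i j : Fin n}
    (h : G.Adj i j) : kapB b x i j =
    (if i < j then (1 : k) else -1) * b.repr x (Sum.inr ⟨s(i, j), G.mem_edgeSet.mpr h⟩) := by
  simp [kapB, h]

theorem kapB_nadj (b : Module.Basis (Fin n ⊕ G.edgeSet) k L) (x : L) {i j : Fin n}
    (h : ¬ G.Adj i j) : kapB b x i j = 0 := by
  simp [kapB, h]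

theorem phiB_inl (b : Module.Basis (Fin n ⊕ G.edgeSet) k L) (i : Fin n) :
    phiB b (b (Sum.inl i)) = Pi.single i 1 := by
  ext j
  simp [phiB, Finsupp.single_apply, Pi.single_apply, eq_comm]

theorem phiB_inr (b : Module.Basis (Fin n ⊕ G.edgeSet) k L) (e : G.edgeSet) :
    phiB b (b (Sum.inr e)) = 0 := by
  ext j
  simp [phiB]

theorem kapB_inl (b : Module.Basis (Fin n ⊕ G.edgeSet) k L) (i : Fin n) :
    kapB b (b (Sum.inl i)) = 0 := by
  ext p q
  by_cases h : G.Adj p q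
  · rw [kapB_adj b _ h]; simp
  · rw [kapB_nadj b _ h]; simp

theorem kapB_edge (b : Module.Basis (Fin n ⊕ G.edgeSet) k L) {i j : Fin n} (h : G.Adj i j)
    (hij : i < j) : kapB b (b (Sum.inr ⟨s(i, j), G.mem_edgeSet.mpr h⟩)) =
      om G (Pi.single i 1) (Pi.single j 1) := by
  ext p q
  by_cases hpq : G.Adj p q
  · rw [kapB_adj b _ hpq, om_single i j p q hpq]
    simp only [Module.Basis.repr_self, Finsupp.single_apply, Sum.inr.injEq, Subtype.mk.injEq,
      Sym2.eq_iff]
    by_cases h1 : i = p ∧ j = q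
    · obtain ⟨rfl, rfl⟩ := h1
      simp [hij, hij.ne]
    · by_cases h2 : i = q ∧ j = p
      · obtain ⟨rfl, rfl⟩ := h2
        simp [hij.ne, not_lt.mpr hij.le]
      · have h3 : ¬ ((i = p ∧ j = q) ∨ (i = q ∧ j = p)) := by tauto
        rw [if_neg h3, mul_zero]
        have a1 : (if p = i then (1 : k) else 0) * (if q = j then 1 else 0) = 0 := by
          split_ifs with a b
          · exact absurd ⟨a.symm, b.symm⟩ h1
          all_goals simp
        have a2 : (if q = i then (1 : k) else 0) * (if p = j then 1 else 0) = 0 := by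
          split_ifs with a b
          · exact absurd ⟨a.symm, b.symm⟩ h2
          all_goals simp
        rw [a1, a2, sub_zero]
  · rw [kapB_nadj b _ hpq, om_nadj hpq]

theorem kapB_mem (b : Module.Basis (Fin n ⊕ G.edgeSet) k L) (x : L) : kapB b x ∈ wsp G k := by
  refine ⟨fun i j => ?_, fun i j h => kapB_nadj b x h⟩
  by_cases h : G.Adj i j
  · rw [kapB_adj b _ h, kapB_adj b _ h.symm]
    have : (⟨s(j, i), G.mem_edgeSet.mpr h.symm⟩ : G.edgeSet) =
        ⟨s(i, j), G.mem_edgeSet.mpr h⟩ := Subtype.ext Sym2.eq_swap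
    rw [this]
    rcases lt_or_gt_of_ne h.ne with h' | h'
    · simp [h', not_lt.mpr h'.le]
    · simp [h', not_lt.mpr h'.le]
  · rw [kapB_nadj b _ h, kapB_nadj b _ (fun h' => h h'.symm), neg_zero]

variable (k L) in
/-- the bracket as a bilinear map -/
def brB : L →ₗ[k] L →ₗ[k] L := (LieModule.toEnd k L L : L →ₗ[k] Module.End k L)

theorem brB_apply (x y : L) : brB k L x y = ⁅x, y⁆ := rfl

theorem br_coords (b : Module.Basis (Fin n ⊕ G.edgeSet) k L)
    (h1 : ∀ (i j : Fin n) (h : G.Adj i j), i < j →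
          ⁅b (Sum.inl i), b (Sum.inl j)⁆ = b (Sum.inr ⟨s(i, j), G.mem_edgeSet.mpr h⟩))
    (h2 : ∀ i j : Fin n, ¬ G.Adj i j → ⁅b (Sum.inl i), b (Sum.inl j)⁆ = 0)
    (h3 : ∀ (e : G.edgeSet) (l : Fin n ⊕ G.edgeSet), ⁅b (Sum.inr e), b l⁆ = 0) (x y : L) :
    phiB b ⁅x, y⁆ = 0 ∧ kapB b ⁅x, y⁆ = om G (phiB b x) (phiB b y) := by
  have key : ∀ a c, phiB b ⁅b a, b c⁆ = 0 ∧
      kapB b ⁅b a, b c⁆ = om G (phiB b (b a)) (phiB b (b c)) := by
    intro a c
    rcases a with i | e
    · rcases c with j | e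
      · rw [phiB_inl, phiB_inl]
        by_cases h : G.Adj i j
        · rcases lt_or_gt_of_ne h.ne with h' | h'
          · rw [h1 i j h h', phiB_inr, kapB_edge b h h']
            exact ⟨rfl, rfl⟩
          · rw [← lie_skew, h1 j i h.symm h', map_neg, map_neg, phiB_inr, kapB_edge b h.symm h']
            exact ⟨neg_zero, (om_swap _ _).symm⟩
        · rw [h2 i j h, om_single_nadj h, map_zero, map_zero]
          exact ⟨rfl, rfl⟩
      · rw [← lie_skew, h3, neg_zero, map_zero, map_zero, phiB_inr]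
        refine ⟨rfl, ?_⟩
        rw [← omB_apply, map_zero]
    · rw [h3, map_zero, map_zero, phiB_inr]
      refine ⟨rfl, ?_⟩
      rw [← omB_apply, map_zero, LinearMap.zero_apply]
  have e1 : (brB k L).compr₂ (phiB b) = 0 := by
    apply b.ext; intro a
    apply b.ext; intro c
    simpa [brB_apply] using (key a c).1
  have e2 : (brB k L).compr₂ (kapB b) = ((omB G k).comp (phiB b)).compl₂ (phiB b) := by
    apply b.ext; intro a
    apply b.ext; intro c
    simpa [brB_apply] using (key a c).2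
  constructor
  · have := LinearMap.congr_fun (LinearMap.congr_fun e1 x) y
    simpa [brB_apply] using this
  · have := LinearMap.congr_fun (LinearMap.congr_fun e2 x) y
    simpa [brB_apply] using this

/-- graph coordinates from a graph basis -/
theorem GDat.ofBasis (b : Module.Basis (Fin n ⊕ G.edgeSet) k L)
    (h1 : ∀ (i j : Fin n) (h : G.Adj i j), i < j →
          ⁅b (Sum.inl i), b (Sum.inl j)⁆ = b (Sum.inr ⟨s(i, j), G.mem_edgeSet.mpr h⟩))
    (h2 : ∀ i j : Fin n, ¬ G.Adj i j → ⁅b (Sum.inl i), b (Sum.inl j)⁆ = 0)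
    (h3 : ∀ (e : G.edgeSet) (l : Fin n ⊕ G.edgeSet), ⁅b (Sum.inr e), b l⁆ = 0) :
    Nonempty (GDat G k L) := by
  refine ⟨{ φ := phiB b, κ := kapB b, φ_br := fun x y => (br_coords b h1 h2 h3 x y).1,
            κ_br := fun x y => (br_coords b h1 h2 h3 x y).2, κ_mem := kapB_mem b,
            inj := ?_, surj := ?_ }⟩
  · intro x hx hx'
    have : b.repr x = 0 := by
      ext a
      rcases a with i | ⟨e, he⟩
      · exact congrFun hx i
      · induction e using Sym2.ind with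
        | _ i j =>
          have hadj : G.Adj i j := G.mem_edgeSet.mp he
          have := congrFun (congrFun hx' i) j
          rw [kapB_adj b _ hadj] at this
          rcases mul_eq_zero.mp this with h | h
          · split_ifs at h
            · exact absurd h one_ne_zero
            · exact absurd h (neg_ne_zero.mpr one_ne_zero)
          · exact h
    simpa using this
  · intro u F hF
    let c : Fin n ⊕ G.edgeSet → k := Sum.elim u (fun e => F e.1.inf e.1.sup)
    refine ⟨b.equivFun.symm c, ?_, ?_⟩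
    · ext i
      show b.repr (b.equivFun.symm c) (Sum.inl i) = u i
      rw [← Module.Basis.equivFun_apply, LinearEquiv.apply_symm_apply]
      rfl
    · ext i j
      by_cases h : G.Adj i j
      · rw [kapB_adj b _ h, ← Module.Basis.equivFun_apply, LinearEquiv.apply_symm_apply]
        show (if i < j then (1 : k) else -1) * F (s(i, j)).inf (s(i, j)).sup = F i j
        rw [Sym2.inf_mk, Sym2.sup_mk]
        rcases lt_or_gt_of_ne h.ne with h' | h'
        · rw [if_pos h', inf_eq_left.mpr h'.le, sup_eq_right.mpr h'.le, one_mul]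
        · rw [if_neg (not_lt.mpr h'.le), inf_eq_right.mpr h'.le, sup_eq_left.mpr h'.le, hF.1 i j]
          ring
      · rw [kapB_nadj b _ h, hF.2 i j h]

end basis

section general

variable {V : Type*} [Fintype V] [DecidableEq V] {G : SimpleGraph V} {k : Type*} [Field k]
  {L : Type*} [LieRing L] [LieAlgebra k L]

/-- transport of coordinates -/
def GDat.transport {L' : Type*} [LieRing L'] [LieAlgebra k L'] (g : GDat G k L)
    (e : L' ≃ₗ⁅k⁆ L) : GDat G k L' where
  φ := g.φ ∘ₗ (e : L' →ₗ[k] L)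
  κ := g.κ ∘ₗ (e : L' →ₗ[k] L)
  φ_br := fun x y => by
    show g.φ (e ⁅x, y⁆) = 0
    rw [LieEquiv.map_lie, g.φ_br]
  κ_br := fun x y => by
    show g.κ (e ⁅x, y⁆) = om G (g.φ (e x)) (g.φ (e y))
    rw [LieEquiv.map_lie, g.κ_br]
  κ_mem := fun x => g.κ_mem _
  inj := fun x h1 h2 => by
    have : e x = 0 := g.inj _ h1 h2
    have h3 := congrArg e.symm this
    rwa [LieEquiv.symm_apply_apply, map_zero] at h3
  surj := fun u F hF => by
    obtain ⟨x, h1, h2⟩ := g.surj u F hF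
    refine ⟨e.symm x, ?_, ?_⟩
    · show g.φ (e (e.symm x)) = u
      rw [LieEquiv.apply_symm_apply, h1]
    · show g.κ (e (e.symm x)) = F
      rw [LieEquiv.apply_symm_apply, h2]

variable (g : GDat G k L)

include g

theorem GDat.ext_of {x y : L} (h1 : g.φ x = g.φ y) (h2 : g.κ x = g.κ y) : x = y := by
  have := g.inj (x - y) (by rw [map_sub, h1, sub_self]) (by rw [map_sub, h2, sub_self])
  exact sub_eq_zero.mp this

/-- the coordinate isomorphism -/
noncomputable def GDat.J : L ≃ₗ[k] (V → k) × wsp G k :=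
  LinearEquiv.ofBijective (g.φ.prod (g.κ.codRestrict (wsp G k) g.κ_mem)) (by
    constructor
    · intro x y hxy
      have h1 := congrArg Prod.fst hxy
      have h2 := congrArg (fun z : (V → k) × wsp G k => ((Prod.snd z : wsp G k) : Matrix V V k)) hxy
      exact g.ext_of h1 h2
    · rintro ⟨u, F, hF⟩
      obtain ⟨x, h1, h2⟩ := g.surj u F hF
      refine ⟨x, ?_⟩
      apply Prod.ext
      · exact h1
      · exact Subtype.ext h2)

theorem GDat.J_fst (x : L) : (g.J x).1 = g.φ x := rfl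
theorem GDat.J_snd (x : L) : ((g.J x).2 : Matrix V V k) = g.κ x := rfl

theorem GDat.φ_symm (z : (V → k) × wsp G k) : g.φ (g.J.symm z) = z.1 := by
  rw [← g.J_fst, LinearEquiv.apply_symm_apply]

theorem GDat.κ_symm (z : (V → k) × wsp G k) : g.κ (g.J.symm z) = z.2 := by
  rw [← g.J_snd, LinearEquiv.apply_symm_apply]

/-- the kernel of the vertex coordinates is spanned by brackets -/
theorem GDat.ker_span [CharZero k] {x : L} (hx : g.φ x = 0) :
    x ∈ Submodule.span k {z | ∃ a b : L, z = ⁅a, b⁆} := by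
  have h1 := wsp_le_span (g.κ_mem x)
  have h2 : Submodule.span k (Set.range fun uv : (V → k) × (V → k) => om G uv.1 uv.2) ≤
      (Submodule.span k {z | ∃ a b : L, z = ⁅a, b⁆}).map g.κ := by
    rw [Submodule.span_le]
    rintro _ ⟨⟨u, v⟩, rfl⟩
    obtain ⟨a, ha, -⟩ := g.surj u 0 (Submodule.zero_mem _)
    obtain ⟨c, hc, -⟩ := g.surj v 0 (Submodule.zero_mem _)
    refine ⟨⁅a, c⁆, Submodule.subset_span ⟨a, c, rfl⟩, ?_⟩
    rw [g.κ_br, ha, hc]
  obtain ⟨y, hy, hyx⟩ := h2 h1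
  have hφ : g.φ y = 0 := by
    have : Submodule.span k {z | ∃ a b : L, z = ⁅a, b⁆} ≤ LinearMap.ker g.φ := by
      rw [Submodule.span_le]
      rintro _ ⟨a, c, rfl⟩
      exact g.φ_br a c
    exact this hy
  have : x = y := g.ext_of (by rw [hx, hφ]) hyx.symm
  rw [this]; exact hy

/-- incidence matrices give derivations -/
theorem GDat.exists_derivation [CharZero k] {Y : Matrix V V k} (hY : Y ∈ incAlg G k) :
    ∃ D : L →ₗ[k] L, (∀ x y, D ⁅x, y⁆ = ⁅D x, y⁆ + ⁅x, D y⁆) ∧
      ∀ x, g.φ (D x) = Y *ᵥ g.φ x := by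
  obtain ⟨Λ, hΛ⟩ := exists_der hY
  have hΛm : ∀ F ∈ wsp G k, Λ F ∈ wsp G k := by
    intro F hF
    have h1 := wsp_le_span hF
    have h2 : Submodule.span k (Set.range fun uv : (V → k) × (V → k) => om G uv.1 uv.2) ≤
      (wsp G k).comap Λ := by
      rw [Submodule.span_le]
      rintro _ ⟨⟨u, v⟩, rfl⟩
      show Λ (om G u v) ∈ wsp G k
      rw [← hΛ]
      exact (wsp G k).add_mem (om_mem _ _) (om_mem _ _)
    exact h2 h1
  let D : L →ₗ[k] L := g.J.symm.toLinearMap ∘ₗ
    (LinearMap.prodMap (Matrix.toLin' Y) (Λ.restrict hΛm)) ∘ₗ g.J.toLinearMap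
  have hφ : ∀ x, g.φ (D x) = Y *ᵥ g.φ x := by
    intro x
    show g.φ (g.J.symm _) = _
    rw [g.φ_symm]
    rfl
  have hκ : ∀ x, g.κ (D x) = Λ (g.κ x) := by
    intro x
    show g.κ (g.J.symm _) = _
    rw [g.κ_symm]
    rfl
  refine ⟨D, ?_, hφ⟩
  intro x y
  apply g.ext_of
  · rw [hφ, map_add, g.φ_br, g.φ_br, g.φ_br, mulVec_zero, add_zero]
  · rw [hκ, map_add, g.κ_br, g.κ_br, g.κ_br, hφ, hφ, hΛ]

theorem GDat.br_eq_zero {x y : L} (h : om G (g.φ x) (g.φ y) = 0) : ⁅x, y⁆ = 0 :=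
  g.inj _ (g.φ_br x y) (by rw [g.κ_br, h])

/-- derivations have incidence matrices -/
theorem GDat.mem_inc_of_derivation {Y : Matrix V V k} (D : L →ₗ[k] L)
    (hD : ∀ x y, D ⁅x, y⁆ = ⁅D x, y⁆ + ⁅x, D y⁆) (hφ : ∀ x, g.φ (D x) = Y *ᵥ g.φ x) :
    Y ∈ incAlg G k := by
  apply mem_incAlg_of_der
  intro p q _ hpq
  obtain ⟨x, hx, -⟩ := g.surj (Pi.single p 1) 0 (Submodule.zero_mem _)
  obtain ⟨y, hy, -⟩ := g.surj (Pi.single q 1) 0 (Submodule.zero_mem _)
  have h0 : ⁅x, y⁆ = 0 := g.br_eq_zero (by rw [hx, hy, om_single_nadj hpq])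
  have h1 := hD x y
  rw [h0, map_zero] at h1
  have h2 := congrArg g.κ h1
  rw [map_zero, map_add, g.κ_br, g.κ_br, hφ, hφ, hx, hy] at h2
  exact h2.symm

/-- the matrix of a Lie homomorphism on vertex coordinates -/
theorem GDat.exists_matrix [CharZero k] (f : L →ₗ[k] L) (hf : ∀ x y, f ⁅x, y⁆ = ⁅f x, f y⁆) :
    ∃ A : Matrix V V k, ∀ x, g.φ (f x) = A *ᵥ g.φ x := by
  have h0 : ∀ x, g.φ x = 0 → g.φ (f x) = 0 := by
    intro x hx
    have h1 := g.ker_span hx
    have h2 : Submodule.span k {z | ∃ a b : L, z = ⁅a, b⁆} ≤ LinearMap.ker (g.φ ∘ₗ f) := by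
      rw [Submodule.span_le]
      rintro _ ⟨a, c, rfl⟩
      show g.φ (f ⁅a, c⁆) = 0
      rw [hf, g.φ_br]
    exact h2 h1
  let σ : (V → k) →ₗ[k] L := g.J.symm.toLinearMap ∘ₗ LinearMap.inl k (V → k) (wsp G k)
  have hσ : ∀ u, g.φ (σ u) = u := fun u => g.φ_symm _
  refine ⟨LinearMap.toMatrix' (g.φ ∘ₗ f ∘ₗ σ), fun x => ?_⟩
  rw [LinearMap.toMatrix'_mulVec]
  show g.φ (f x) = g.φ (f (σ (g.φ x)))
  have h1 : g.φ (f (x - σ (g.φ x))) = 0 := h0 _ (by rw [map_sub, hσ, sub_self])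
  rw [map_sub, map_sub] at h1
  exact sub_eq_zero.mp h1

theorem GDat.matrix_unique {A B : Matrix V V k} (h : ∀ x, A *ᵥ g.φ x = B *ᵥ g.φ x) : A = B := by
  apply Matrix.toLin'.injective
  apply LinearMap.ext
  intro u
  obtain ⟨x, hx, -⟩ := g.surj u 0 (Submodule.zero_mem _)
  rw [Matrix.toLin'_apply, Matrix.toLin'_apply, ← hx]
  exact h x

/-- conjugation by the matrix of an automorphism preserves the incidence algebra -/
theorem GDat.conj_inc [CharZero k] {A B : Matrix V V k} (f f' : L →ₗ[k] L)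
    (hf : ∀ x y, f ⁅x, y⁆ = ⁅f x, f y⁆) (hf' : ∀ x y, f' ⁅x, y⁆ = ⁅f' x, f' y⁆)
    (hff : ∀ x, f (f' x) = x)
    (hA : ∀ x, g.φ (f x) = A *ᵥ g.φ x) (hB : ∀ x, g.φ (f' x) = B *ᵥ g.φ x)
    {Y : Matrix V V k} (hY : Y ∈ incAlg G k) : A * Y * B ∈ incAlg G k := by
  obtain ⟨D, hD, hφ⟩ := g.exists_derivation hY
  apply g.mem_inc_of_derivation (f ∘ₗ D ∘ₗ f')
  · intro x y
    simp only [LinearMap.comp_apply]
    rw [hf', hD, map_add, hf, hf, hff, hff]
  · intro x
    simp only [LinearMap.comp_apply]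
    rw [hA, hφ, hB, Matrix.mulVec_mulVec, Matrix.mulVec_mulVec]

/-- the matrix of an endomorphism preserves the relations -/
theorem GDat.matrix_rel {A : Matrix V V k} (f : L →ₗ[k] L)
    (hf : ∀ x y, f ⁅x, y⁆ = ⁅f x, f y⁆) (hA : ∀ x, g.φ (f x) = A *ᵥ g.φ x) (p q : V)
    (hpq : ¬ G.Adj p q) : om G (A *ᵥ Pi.single p (1 : k)) (A *ᵥ Pi.single q 1) = 0 := by
  obtain ⟨x, hx, -⟩ := g.surj (Pi.single p 1) 0 (Submodule.zero_mem _)
  obtain ⟨y, hy, -⟩ := g.surj (Pi.single q 1) 0 (Submodule.zero_mem _)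
  have h0 : ⁅x, y⁆ = 0 := g.br_eq_zero (by rw [hx, hy, om_single_nadj hpq])
  rw [← hx, ← hy, ← hA, ← hA, ← g.κ_br, ← hf, h0, map_zero, map_zero]

end general

end Pool.Agent.W672
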