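import Mathlib
import Pool.Agent.W672.GraphLie

/-!
Part 2a: rational coordinates on a rational form.
-/

set_option autoImplicit false

namespace Pool.Agent.W672

open Matrix TensorProduct

section expansion

/-- a real vector is a real combination of its images under rational functionals -/
theorem exp_span {ι : Type*} [Finite ι] (x : ι → ℝ) :
    x ∈ Submodule.span ℝ (Set.range fun ρ : ℝ →ₗ[ℚ] ℚ => fun i => ((ρ (x i) : ℚ) : ℝ)) := by
  classical
  have := Fintype.ofFinite ι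
  let hb := Module.Basis.ofVectorSpace ℚ ℝ
  let S := Finset.univ.biUnion (fun i => (hb.repr (x i)).support)
  have hx : x = ∑ a ∈ S, (hb a) • (fun i => ((hb.coord a (x i) : ℚ) : ℝ)) := by
    ext i
    rw [Finset.sum_apply]
    have h1 := hb.linearCombination_repr (x i)
    rw [Finsupp.linearCombination_apply, Finsupp.sum] at h1
    have h2 : ∑ a ∈ (hb.repr (x i)).support, (hb.repr (x i)) a • hb a =
        ∑ a ∈ S, (hb.repr (x i)) a • hb a := by
      apply Finset.sum_subset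
      · intro a ha
        exact Finset.mem_biUnion.mpr ⟨i, Finset.mem_univ _, ha⟩
      · intro a _ ha
        rw [Finsupp.notMem_support_iff.mp ha, zero_smul]
    conv_lhs => rw [← h1, h2]
    apply Finset.sum_congr rfl
    intro a _
    rw [Pi.smul_apply, smul_eq_mul, Module.Basis.coord_apply, mul_comm, Rat.smul_def]
  have h3 : (∑ a ∈ S, (hb a) • (fun i => ((hb.coord a (x i) : ℚ) : ℝ))) ∈
      Submodule.span ℝ (Set.range fun ρ : ℝ →ₗ[ℚ] ℚ => fun i => ((ρ (x i) : ℚ) : ℝ)) := by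
    apply Submodule.sum_mem
    intro a _
    apply Submodule.smul_mem
    apply Submodule.subset_span
    exact ⟨hb.coord a, rfl⟩
  rw [← hx] at h3
  exact h3

theorem real_zero_of_rho {r : ℝ} (h : ∀ ρ : ℝ →ₗ[ℚ] ℚ, ρ r = 0) : r = 0 :=
  (Module.forall_dual_apply_eq_zero_iff ℚ r).mp h

theorem exists_rho_one : ∃ ρ : ℝ →ₗ[ℚ] ℚ, ρ 1 = 1 := by
  by_contra hc
  push Not at hc
  have : ∀ ρ : ℝ →ₗ[ℚ] ℚ, ρ 1 = 0 := by
    intro ρ
    by_contra h
    apply hc ((ρ 1)⁻¹ • ρ)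
    rw [LinearMap.smul_apply, smul_eq_mul, inv_mul_cancel₀ h]
  exact one_ne_zero (real_zero_of_rho this)

end expansion

section rational

variable {M : Type*} [LieRing M] [LieAlgebra ℚ M]

variable (M) in
/-- the extension of a rational functional on the reals -/
noncomputable def rhoM (ρ : ℝ →ₗ[ℚ] ℚ) : ℝ ⊗[ℚ] M →ₗ[ℚ] M :=
  (TensorProduct.lid ℚ M).toLinearMap ∘ₗ LinearMap.rTensor M ρ

@[simp] theorem rhoM_tmul (ρ : ℝ →ₗ[ℚ] ℚ) (r : ℝ) (m : M) :
    rhoM M ρ (r ⊗ₜ m) = ρ r • m := by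
  simp [rhoM]

theorem rhoM_lie (ρ : ℝ →ₗ[ℚ] ℚ) (x : ℝ ⊗[ℚ] M) (m : M) :
    rhoM M ρ ⁅x, (1 : ℝ) ⊗ₜ[ℚ] m⁆ = ⁅rhoM M ρ x, m⁆ := by
  induction x using TensorProduct.induction_on with
  | zero => simp
  | tmul r m' =>
    rw [LieAlgebra.ExtendScalars.bracket_tmul, rhoM_tmul, rhoM_tmul, mul_one, smul_lie]
  | add x y hx hy => rw [add_lie, map_add, map_add, hx, hy, add_lie]

theorem rhoM_lie' (ρ : ℝ →ₗ[ℚ] ℚ) (x : ℝ ⊗[ℚ] M) (m : M) :
    rhoM M ρ ⁅(1 : ℝ) ⊗ₜ[ℚ] m, x⁆ = ⁅m, rhoM M ρ x⁆ := by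
  rw [← lie_skew, map_neg, rhoM_lie, lie_skew]

theorem rhoM_br (ρ : ℝ →ₗ[ℚ] ℚ) (x y : ℝ ⊗[ℚ] M) :
    rhoM M ρ ⁅x, y⁆ ∈ Submodule.span ℚ {z : M | ∃ a b : M, z = ⁅a, b⁆} := by
  induction x using TensorProduct.induction_on with
  | zero => simp
  | tmul r m =>
    induction y using TensorProduct.induction_on with
    | zero => simp
    | tmul s m' =>
      rw [LieAlgebra.ExtendScalars.bracket_tmul, rhoM_tmul]
      exact Submodule.smul_mem _ _ (Submodule.subset_span ⟨m, m', rfl⟩)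
    | add x y hx hy => rw [lie_add, map_add]; exact Submodule.add_mem _ hx hy
  | add x y hx hy => rw [add_lie, map_add]; exact Submodule.add_mem _ hx hy

/-- `rhoM` of a real multiple -/
theorem rhoM_smul (ρ : ℝ →ₗ[ℚ] ℚ) (r : ℝ) (x : ℝ ⊗[ℚ] M) :
    rhoM M ρ (r • x) = rhoM M (ρ ∘ₗ (LinearMap.mulLeft ℚ r)) x := by
  induction x using TensorProduct.induction_on with
  | zero => simp
  | tmul s m => rw [TensorProduct.smul_tmul', rhoM_tmul, rhoM_tmul]; rfl
  | add x y hx hy => rw [smul_add, map_add, map_add, hx, hy]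

theorem eq_zero_of_rhoM {x : ℝ ⊗[ℚ] M} (h : ∀ ρ : ℝ →ₗ[ℚ] ℚ, rhoM M ρ x = 0) : x = 0 := by
  classical
  let b := Module.Basis.ofVectorSpace ℚ M
  have h1 : (b.baseChange ℝ).repr x = 0 := by
    ext i
    rw [Finsupp.zero_apply]
    apply real_zero_of_rho
    intro ρ
    have key : ∀ y : ℝ ⊗[ℚ] M, ρ ((b.baseChange ℝ).repr y i) = b.repr (rhoM M ρ y) i := by
      intro y
      induction y using TensorProduct.induction_on with
      | zero => simp
      | tmul s m =>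
        rw [rhoM_tmul, Module.Basis.baseChange_repr_tmul, map_smul]
        simp [mul_comm]
      | add x y hx hy => simp only [map_add, Finsupp.add_apply, hx, hy]
    rw [key, h ρ, map_zero, Finsupp.zero_apply]
  simpa using h1

variable {V : Type*} [Fintype V] [DecidableEq V] {G : SimpleGraph V}

theorem rhoM_ker (g : GDat G ℝ (ℝ ⊗[ℚ] M)) {x : ℝ ⊗[ℚ] M} (hx : g.φ x = 0)
    (ρ : ℝ →ₗ[ℚ] ℚ) : rhoM M ρ x ∈ Submodule.span ℚ {z : M | ∃ a b : M, z = ⁅a, b⁆} := by
  have h := g.ker_span hx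
  clear hx
  revert ρ
  induction h using Submodule.span_induction with
  | mem x h => obtain ⟨a, b, rfl⟩ := h; intro ρ; exact rhoM_br ρ a b
  | zero => intro ρ; rw [map_zero]; exact Submodule.zero_mem _
  | add x y hx hy h1 h2 => intro ρ; rw [map_add]; exact Submodule.add_mem _ (h1 ρ) (h2 ρ)
  | smul r x hx h1 => intro ρ; rw [rhoM_smul]; exact h1 _

theorem rhoM_ker' (g : GDat G ℝ (ℝ ⊗[ℚ] M)) {m : M} (hx : g.φ ((1 : ℝ) ⊗ₜ[ℚ] m) = 0) :
    m ∈ Submodule.span ℚ {z : M | ∃ a b : M, z = ⁅a, b⁆} := by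
  obtain ⟨ρ, hρ⟩ := exists_rho_one
  have := rhoM_ker g hx ρ
  rwa [rhoM_tmul, hρ, one_smul] at this

variable (M) in
/-- the inclusion of the rational form -/
noncomputable def inc1 : M →ₗ[ℚ] ℝ ⊗[ℚ] M := TensorProduct.mk ℚ ℝ M 1

theorem inc1_apply (m : M) : inc1 M m = (1 : ℝ) ⊗ₜ[ℚ] m := rfl

theorem inc1_inj {m : M} (h : inc1 M m = 0) : m = 0 := by
  obtain ⟨ρ, hρ⟩ := exists_rho_one
  have := congrArg (rhoM M ρ) h
  rwa [inc1_apply, rhoM_tmul, hρ, one_smul, map_zero] at this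

/-- the vertex coordinates on the rational form -/
noncomputable def psi (g : GDat G ℝ (ℝ ⊗[ℚ] M)) : M →ₗ[ℚ] (V → ℝ) :=
  (g.φ.restrictScalars ℚ) ∘ₗ inc1 M

theorem psi_apply (g : GDat G ℝ (ℝ ⊗[ℚ] M)) (m : M) : psi g m = g.φ ((1 : ℝ) ⊗ₜ[ℚ] m) := rfl

theorem psi_br (g : GDat G ℝ (ℝ ⊗[ℚ] M)) {m : M}
    (h : m ∈ Submodule.span ℚ {z : M | ∃ a b : M, z = ⁅a, b⁆}) : psi g m = 0 := by
  have : Submodule.span ℚ {z : M | ∃ a b : M, z = ⁅a, b⁆} ≤ LinearMap.ker (psi g) := by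
    rw [Submodule.span_le]
    rintro _ ⟨a, b, rfl⟩
    show g.φ ((1 : ℝ) ⊗ₜ[ℚ] ⁅a, b⁆) = 0
    have : (1 : ℝ) ⊗ₜ[ℚ] ⁅a, b⁆ = ⁅(1 : ℝ) ⊗ₜ[ℚ] a, (1 : ℝ) ⊗ₜ[ℚ] b⁆ := by
      rw [LieAlgebra.ExtendScalars.bracket_tmul, mul_one]
    rw [this, g.φ_br]
  exact this h

/-- rational coordinates -/
theorem exists_coords [FiniteDimensional ℚ M] (g : GDat G ℝ (ℝ ⊗[ℚ] M)) :
    ∃ (P : Matrix V V ℝ) (q : M →ₗ[ℚ] (V → ℚ)), IsUnit P ∧ Function.Surjective q ∧
      ∀ m, g.φ ((1 : ℝ) ⊗ₜ[ℚ] m) = P *ᵥ (fun i => ((q m i : ℚ) : ℝ)) := by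
  classical
  let R := LinearMap.range (psi g)
  let bR : Module.Basis (Fin (Module.finrank ℚ R)) ℚ R := Module.finBasis ℚ R
  have hv : ∀ i, ∃ v, psi g v = bR i := fun i => (bR i).2
  choose v hv using hv
  have hli : LinearIndependent ℝ (fun i => ((bR i : R) : V → ℝ)) := by
    rw [Fintype.linearIndependent_iff]
    intro r hr i
    apply real_zero_of_rho
    intro ρ
    have hx : g.φ (∑ i, r i ⊗ₜ[ℚ] v i) = 0 := by
      rw [← hr, map_sum]
      apply Finset.sum_congr rfl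
      intro i _
      rw [← hv i, psi_apply, ← map_smul, TensorProduct.smul_tmul', smul_eq_mul, mul_one]
    have h1 := psi_br g (rhoM_ker g hx ρ)
    rw [map_sum, map_sum] at h1
    simp only [rhoM_tmul, map_smul, hv] at h1
    have h2 : ∑ i, ρ (r i) • bR i = 0 := by
      apply Subtype.ext
      rw [ZeroMemClass.coe_zero, ← h1]
      simp
    exact Fintype.linearIndependent_iff.mp bR.linearIndependent (fun i => ρ (r i)) h2 i
  have hsp : ⊤ ≤ Submodule.span ℝ (Set.range (fun i => ((bR i : R) : V → ℝ))) := by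
    intro u _
    obtain ⟨x, hx, -⟩ := g.surj u 0 (Submodule.zero_mem _)
    rw [← hx]
    clear hx
    induction x using TensorProduct.induction_on with
    | zero => rw [map_zero]; exact Submodule.zero_mem _
    | tmul r m =>
      have h1 : g.φ (r ⊗ₜ[ℚ] m) = r • psi g m := by
        rw [psi_apply, ← map_smul, TensorProduct.smul_tmul', smul_eq_mul, mul_one]
      rw [h1]
      apply Submodule.smul_mem
      have h3 : ∃ c : Fin (Module.finrank ℚ R) → ℚ, psi g m = ∑ i, ((c i : ℚ) : ℝ) •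
          ((bR i : R) : V → ℝ) := by
        refine ⟨fun i => bR.repr ((psi g).rangeRestrict m) i, ?_⟩
        have h2 := congrArg Subtype.val (bR.sum_repr ((psi g).rangeRestrict m))
        have h4 : (((psi g).rangeRestrict m : R) : V → ℝ) = psi g m := rfl
        rw [← h4, ← h2]
        simp only [Submodule.coe_sum, Submodule.coe_smul]
        apply Finset.sum_congr rfl
        intro i _
        ext j
        simp [Rat.smul_def]
      obtain ⟨c, hc⟩ := h3
      rw [hc]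
      apply Submodule.sum_mem
      intro i _
      apply Submodule.smul_mem
      apply Submodule.subset_span
      exact ⟨i, rfl⟩
    | add x y hx hy => rw [map_add]; exact Submodule.add_mem _ hx hy
  let bE := Module.Basis.mk hli hsp
  let e : Fin (Module.finrank ℚ R) ≃ V := bE.indexEquiv (Pi.basisFun ℝ V)
  let bR' : Module.Basis V ℚ R := bR.reindex e
  let bE' : Module.Basis V ℝ (V → ℝ) := bE.reindex e
  have hbb : ∀ i, bE' i = ((bR' i : R) : V → ℝ) := by
    intro i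
    simp [bE', bR', bE]
  let P : Matrix V V ℝ := LinearMap.toMatrix' (bE'.equivFun.symm : (V → ℝ) →ₗ[ℝ] (V → ℝ))
  have hP : ∀ u, P *ᵥ u = bE'.equivFun.symm u := by
    intro u
    rw [LinearMap.toMatrix'_mulVec]; rfl
  refine ⟨P, bR'.equivFun.toLinearMap ∘ₗ (psi g).rangeRestrict, ?_, ?_, ?_⟩
  · have h1 : P * LinearMap.toMatrix' (bE'.equivFun : (V → ℝ) →ₗ[ℝ] (V → ℝ)) = 1 := by
      rw [← LinearMap.toMatrix'_comp]
      rw [← LinearMap.toMatrix'_id]
      congr 1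
      ext x : 1
      simp
    exact IsUnit.of_mul_eq_one _ h1
  · intro u
    obtain ⟨m, hm⟩ := LinearMap.surjective_rangeRestrict (psi g) (bR'.equivFun.symm u)
    refine ⟨m, ?_⟩
    rw [LinearMap.comp_apply, hm]
    exact LinearEquiv.apply_symm_apply _ _
  · intro m
    rw [hP, ← psi_apply]
    have h1 := bR'.sum_equivFun ((psi g).rangeRestrict m)
    have h2 := congrArg Subtype.val h1
    have h3 : (((psi g).rangeRestrict m : R) : V → ℝ) = psi g m := rfl
    rw [h3] at h2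
    rw [← h2, Module.Basis.equivFun_symm_apply]
    simp only [Submodule.coe_sum, Submodule.coe_smul, hbb]
    apply Finset.sum_congr rfl
    intro i _
    ext j
    simp [Rat.smul_def]

end rational

end Pool.Agent.W672
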