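import Mathlib
import Pool.Agent.W672.Part2a

/-!
Part 2b: the incidence algebra and its centre modulo the radical are defined over the rationals
in rational coordinates of a rational form.
-/

set_option autoImplicit false

namespace Pool.Agent.W672

open Matrix TensorProduct

variable {V : Type*} [Fintype V] [DecidableEq V] {G : SimpleGraph V}

/-- real vector of a rational vector -/
def rc (u : V → ℚ) : V → ℝ := fun i => ((u i : ℚ) : ℝ)

/-- real matrix of a rational matrix -/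
noncomputable def rm (X : Matrix V V ℚ) : Matrix V V ℝ := X.map (algebraMap ℚ ℝ)

omit [DecidableEq V] in
theorem rm_mulVec (X : Matrix V V ℚ) (u : V → ℚ) : rm X *ᵥ rc u = rc (X *ᵥ u) := by
  ext i
  simp [rm, rc, Matrix.mulVec, dotProduct]

omit [DecidableEq V] in
theorem rm_mul (X Y : Matrix V V ℚ) : rm (X * Y) = rm X * rm Y := by
  simp [rm, Matrix.map_mul]

omit [Fintype V] in
theorem rm_one : rm (1 : Matrix V V ℚ) = 1 := by
  simp [rm]

omit [Fintype V] [DecidableEq V] in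
theorem rm_sub (X Y : Matrix V V ℚ) : rm (X - Y) = rm X - rm Y := by
  ext i j; simp [rm]

/-- conjugation of rational matrices by a real matrix -/
noncomputable def cj (P Q : Matrix V V ℝ) (hPQ : P * Q = 1) : Matrix V V ℚ →ₐ[ℚ] Matrix V V ℝ where
  toFun X := P * rm X * Q
  map_one' := by rw [rm_one, mul_one, hPQ]
  map_mul' := by
    intro X Y
    have hQP : Q * P = 1 := mul_eq_one_comm.mp hPQ
    rw [rm_mul]
    calc P * (rm X * rm Y) * Q = P * rm X * 1 * rm Y * Q := by noncomm_ring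
      _ = P * rm X * (Q * P) * rm Y * Q := by rw [hQP]
      _ = _ := by noncomm_ring
  map_zero' := by
    have : rm (0 : Matrix V V ℚ) = 0 := by ext i j; simp [rm]
    rw [this]; simp
  map_add' := by
    intro X Y
    have : rm (X + Y) = rm X + rm Y := by ext i j; simp [rm]
    rw [this]; noncomm_ring
  commutes' := by
    intro r
    have : rm (algebraMap ℚ (Matrix V V ℚ) r) = (r : ℝ) • (1 : Matrix V V ℝ) := by
      ext i j
      simp only [rm, Matrix.algebraMap_matrix_apply, Matrix.one_apply, Matrix.map_apply,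
        Matrix.smul_apply, smul_eq_mul]
      split_ifs <;> simp
    rw [this, Matrix.mul_smul, mul_one, Matrix.smul_mul, hPQ]
    ext i j
    simp [Matrix.algebraMap_matrix_apply, Matrix.one_apply]

theorem cj_apply (P Q : Matrix V V ℝ) (hPQ : P * Q = 1) (X : Matrix V V ℚ) :
    cj P Q hPQ X = P * rm X * Q := rfl

/-- image of a real matrix under a rational functional -/
noncomputable def mrho (ρ : ℝ →ₗ[ℚ] ℚ) (X : Matrix V V ℝ) : Matrix V V ℚ := X.map ρ

omit [DecidableEq V] in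
theorem exp_matrix (X : Matrix V V ℝ) :
    X ∈ Submodule.span ℝ (Set.range fun ρ : ℝ →ₗ[ℚ] ℚ => rm (mrho ρ X)) := by
  have h := exp_span (fun ij : V × V => X ij.1 ij.2)
  let L : (V × V → ℝ) →ₗ[ℝ] Matrix V V ℝ :=
    { toFun := fun x => Matrix.of fun i j => x (i, j)
      map_add' := by intro x y; rfl
      map_smul' := by intro r x; rfl }
  have h2 := Submodule.mem_map_of_mem (f := L) h
  rw [Submodule.map_span, ← Set.range_comp] at h2
  exact h2

theorem exp_conj (P Q : Matrix V V ℝ) (hPQ : P * Q = 1) (Y : Matrix V V ℝ) :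
    Y ∈ Submodule.span ℝ (Set.range fun ρ : ℝ →ₗ[ℚ] ℚ => cj P Q hPQ (mrho ρ (Q * Y * P))) := by
  have h := exp_matrix (Q * Y * P)
  let L : Matrix V V ℝ →ₗ[ℝ] Matrix V V ℝ :=
    { toFun := fun X => P * X * Q
      map_add' := by intro x y; noncomm_ring
      map_smul' := by intro r x; simp }
  have h2 := Submodule.mem_map_of_mem (f := L) h
  rw [Submodule.map_span, ← Set.range_comp] at h2
  have e : L (Q * Y * P) = Y := by
    show P * (Q * Y * P) * Q = Y
    calc P * (Q * Y * P) * Q = (P * Q) * Y * (P * Q) := by noncomm_ring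
      _ = Y := by rw [hPQ]; simp
  rw [e] at h2
  exact h2

omit [DecidableEq V] in
theorem rho_trace (ρ : ℝ →ₗ[ℚ] ℚ) (X : Matrix V V ℝ) (b : Matrix V V ℚ) :
    (mrho ρ X * b).trace = ρ ((X * rm b).trace) := by
  simp only [Matrix.trace, Matrix.diag_apply, Matrix.mul_apply, map_sum]
  apply Finset.sum_congr rfl; intro i _
  apply Finset.sum_congr rfl; intro j _
  have : X i j * rm b j i = (b j i) • X i j := by
    rw [Rat.smul_def, mul_comm]; rfl
  rw [this, map_smul, smul_eq_mul, mul_comm]; rfl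

omit [DecidableEq V] in
theorem rm_trace (b : Matrix V V ℚ) : (rm b).trace = ((b.trace : ℚ) : ℝ) := by
  simp [Matrix.trace, rm]

omit [DecidableEq V] in
theorem rho_mulVec (ρ : ℝ →ₗ[ℚ] ℚ) (X : Matrix V V ℝ) (u : V → ℚ) (i : V) :
    ρ ((X *ᵥ rc u) i) = (mrho ρ X *ᵥ u) i := by
  simp only [Matrix.mulVec, dotProduct, map_sum]
  apply Finset.sum_congr rfl; intro j _
  have : X i j * rc u j = (u j) • X i j := by
    rw [Rat.smul_def, mul_comm]; rfl
  rw [this, map_smul, smul_eq_mul, mul_comm]; rfl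

variable {M : Type*} [LieRing M] [LieAlgebra ℚ M]

/-- rational coordinates -/
structure RC (g : GDat G ℝ (ℝ ⊗[ℚ] M)) where
  P : Matrix V V ℝ
  Q : Matrix V V ℝ
  hPQ : P * Q = 1
  q : M →ₗ[ℚ] (V → ℚ)
  q_surj : Function.Surjective q
  hq : ∀ m : M, g.φ ((1 : ℝ) ⊗ₜ[ℚ] m) = P *ᵥ rc (q m)

theorem exists_RC [FiniteDimensional ℚ M] (g : GDat G ℝ (ℝ ⊗[ℚ] M)) : Nonempty (RC g) := by
  obtain ⟨P, q, hP, hs, hq⟩ := exists_coords g
  obtain ⟨u, rfl⟩ := hP
  exact ⟨⟨u, (u⁻¹ : (Matrix V V ℝ)ˣ), u.mul_inv, q, hs, hq⟩⟩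

variable {g : GDat G ℝ (ℝ ⊗[ℚ] M)} (c : RC g)

include c

theorem RC.hQP : c.Q * c.P = 1 := mul_eq_one_comm.mp c.hPQ

theorem RC.q_rho (ρ : ℝ →ₗ[ℚ] ℚ) (x : ℝ ⊗[ℚ] M) (i : V) :
    c.q (rhoM M ρ x) i = ρ ((c.Q *ᵥ g.φ x) i) := by
  induction x using TensorProduct.induction_on with
  | zero => simp
  | tmul r m =>
    have h1 : g.φ (r ⊗ₜ[ℚ] m) = r • g.φ ((1 : ℝ) ⊗ₜ[ℚ] m) := by
      rw [← map_smul, TensorProduct.smul_tmul', smul_eq_mul, mul_one]
    rw [rhoM_tmul, map_smul, Pi.smul_apply, h1, c.hq, Matrix.mulVec_smul, Matrix.mulVec_mulVec,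
      c.hQP, Matrix.one_mulVec, Pi.smul_apply, smul_eq_mul, smul_eq_mul]
    have : r * rc (c.q m) i = (c.q m i) • r := by
      rw [Rat.smul_def, mul_comm]; rfl
    rw [this, map_smul, smul_eq_mul, mul_comm]
  | add x y hx hy =>
    rw [map_add, map_add, Pi.add_apply, hx, hy, map_add, Matrix.mulVec_add, Pi.add_apply, map_add]

theorem RC.q_zero {m : M} : c.q m = 0 ↔ g.φ ((1 : ℝ) ⊗ₜ[ℚ] m) = 0 := by
  constructor
  · intro h
    rw [c.hq, h]
    have : rc (0 : V → ℚ) = 0 := by ext i; simp [rc]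
    rw [this, Matrix.mulVec_zero]
  · intro h
    have h1 := c.hq m
    rw [h] at h1
    have h2 := congrArg (fun z => c.Q *ᵥ z) h1
    simp only [Matrix.mulVec_zero, Matrix.mulVec_mulVec, c.hQP, Matrix.one_mulVec] at h2
    ext i
    have := congrFun h2.symm i
    simpa [rc] using this

theorem RC.q_br (a b : M) : c.q ⁅a, b⁆ = 0 := by
  rw [c.q_zero]
  have : (1 : ℝ) ⊗ₜ[ℚ] ⁅a, b⁆ = ⁅(1 : ℝ) ⊗ₜ[ℚ] a, (1 : ℝ) ⊗ₜ[ℚ] b⁆ := by
    rw [LieAlgebra.ExtendScalars.bracket_tmul, mul_one]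
  rw [this, g.φ_br]

/-- images of incidence matrices under rational functionals are incidence matrices -/
theorem RC.inc_rho {Y : Matrix V V ℝ} (hY : Y ∈ incAlg G ℝ) (ρ : ℝ →ₗ[ℚ] ℚ) :
    cj c.P c.Q c.hPQ (mrho ρ (c.Q * Y * c.P)) ∈ incAlg G ℝ := by
  obtain ⟨D, hD, hφ⟩ := g.exists_derivation hY
  let Dρ : M →ₗ[ℚ] M := rhoM M ρ ∘ₗ (D.restrictScalars ℚ) ∘ₗ inc1 M
  have hDρ : ∀ m, Dρ m = rhoM M ρ (D ((1 : ℝ) ⊗ₜ[ℚ] m)) := fun m => rfl
  have hder : ∀ a b, Dρ ⁅a, b⁆ = ⁅Dρ a, b⁆ + ⁅a, Dρ b⁆ := by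
    intro a b
    have : (1 : ℝ) ⊗ₜ[ℚ] ⁅a, b⁆ = ⁅(1 : ℝ) ⊗ₜ[ℚ] a, (1 : ℝ) ⊗ₜ[ℚ] b⁆ := by
      rw [LieAlgebra.ExtendScalars.bracket_tmul, mul_one]
    rw [hDρ, this, hD, map_add, rhoM_lie, rhoM_lie', hDρ, hDρ]
  have hq : ∀ m, c.q (Dρ m) = mrho ρ (c.Q * Y * c.P) *ᵥ c.q m := by
    intro m
    ext i
    rw [hDρ, c.q_rho, hφ, c.hq, Matrix.mulVec_mulVec, Matrix.mulVec_mulVec, rho_mulVec]
  apply g.mem_inc_of_derivation (Dρ.baseChange ℝ)
  · intro x y
    induction x using TensorProduct.induction_on with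
    | zero => simp
    | tmul r m =>
      induction y using TensorProduct.induction_on with
      | zero => simp
      | tmul s m' =>
        rw [LieAlgebra.ExtendScalars.bracket_tmul, LinearMap.baseChange_tmul,
          LinearMap.baseChange_tmul, LinearMap.baseChange_tmul,
          LieAlgebra.ExtendScalars.bracket_tmul, LieAlgebra.ExtendScalars.bracket_tmul, hder,
          TensorProduct.tmul_add]
      | add x y hx hy =>
        rw [lie_add, map_add, hx, hy, map_add, lie_add, lie_add]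
        abel
    | add x y hx hy =>
      rw [add_lie, map_add, hx, hy, map_add, add_lie, add_lie]
      abel
  · intro x
    induction x using TensorProduct.induction_on with
    | zero => simp
    | tmul r m =>
      have h1 : ∀ m' : M, g.φ (r ⊗ₜ[ℚ] m') = r • g.φ ((1 : ℝ) ⊗ₜ[ℚ] m') := by
        intro m'
        rw [← map_smul, TensorProduct.smul_tmul', smul_eq_mul, mul_one]
      rw [LinearMap.baseChange_tmul, h1, h1, c.hq, c.hq, hq, cj_apply, Matrix.mulVec_smul,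
        Matrix.mulVec_mulVec, Matrix.mul_assoc, Matrix.mul_assoc, c.hQP, mul_one,
        ← Matrix.mulVec_mulVec, rm_mulVec]
    | add x y hx hy => rw [map_add, map_add, hx, hy, map_add, Matrix.mulVec_add]

/-- the incidence algebra is spanned by rational elements -/
theorem RC.inc_span {Y : Matrix V V ℝ} (hY : Y ∈ incAlg G ℝ) :
    Y ∈ Submodule.span ℝ {Z | ∃ b : Matrix V V ℚ, cj c.P c.Q c.hPQ b ∈ incAlg G ℝ ∧
      Z = cj c.P c.Q c.hPQ b} := by
  have h := exp_conj c.P c.Q c.hPQ Y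
  refine Submodule.span_mono ?_ h
  rintro _ ⟨ρ, rfl⟩
  exact ⟨_, c.inc_rho hY ρ, rfl⟩

/-- images of elements of the centre modulo the radical under rational functionals -/
theorem RC.cen_rho {Y : Matrix V V ℝ} (hY : Y ∈ cenAlg G ℝ) (ρ : ℝ →ₗ[ℚ] ℚ) :
    cj c.P c.Q c.hPQ (mrho ρ (c.Q * Y * c.P)) ∈ cenAlg G ℝ := by
  have hinc := c.inc_rho (cenAlg_le hY) ρ
  rw [cen_iff_trace hinc]
  set X := mrho ρ (c.Q * Y * c.P) with hX
  -- rational test elements
  have key : ∀ b b' : Matrix V V ℚ, cj c.P c.Q c.hPQ b ∈ incAlg G ℝ →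
      cj c.P c.Q c.hPQ b' ∈ incAlg G ℝ →
      (cj c.P c.Q c.hPQ X * (cj c.P c.Q c.hPQ b * cj c.P c.Q c.hPQ b' -
        cj c.P c.Q c.hPQ b' * cj c.P c.Q c.hPQ b)).trace = 0 := by
    intro b b' hb hb'
    have h1 := (cen_iff_trace (cenAlg_le hY)).mp hY _ hb _ hb'
    rw [← map_mul, ← map_mul, ← map_sub] at h1 ⊢
    rw [← map_mul, cj_apply, Matrix.trace_mul_comm, ← Matrix.mul_assoc, c.hQP, one_mul, rm_trace,
      hX, rho_trace]
    rw [cj_apply] at h1
    have e : (Y * (c.P * rm (b * b' - b' * b) * c.Q)).trace =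
        (c.Q * Y * c.P * rm (b * b' - b' * b)).trace := by
      rw [← Matrix.mul_assoc, Matrix.trace_mul_comm]
      congr 1
      noncomm_ring
    rw [← e, h1, map_zero, Rat.cast_zero]
  intro Y1 hY1 Y2 hY2
  have h1 := c.inc_span hY1
  have h2 := c.inc_span hY2
  -- bilinearity
  have step1 : ∀ b : Matrix V V ℚ, cj c.P c.Q c.hPQ b ∈ incAlg G ℝ →
      ∀ Z ∈ Submodule.span ℝ {Z | ∃ b : Matrix V V ℚ, cj c.P c.Q c.hPQ b ∈ incAlg G ℝ ∧
      Z = cj c.P c.Q c.hPQ b}, (cj c.P c.Q c.hPQ X * (cj c.P c.Q c.hPQ b * Z -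
        Z * cj c.P c.Q c.hPQ b)).trace = 0 := by
    intro b hb Z hZ
    induction hZ using Submodule.span_induction with
    | mem x h => obtain ⟨b', hb', rfl⟩ := h; exact key b b' hb hb'
    | zero => simp
    | add x y _ _ h1 h2 =>
      rw [mul_add, add_mul, add_sub_add_comm, mul_add, Matrix.trace_add, h1, h2, add_zero]
    | smul r x _ h1 =>
      rw [Matrix.mul_smul, Matrix.smul_mul, ← smul_sub, Matrix.mul_smul, Matrix.trace_smul, h1,
        smul_zero]
  clear hY1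
  induction h1 using Submodule.span_induction with
  | mem x h => obtain ⟨b, hb, rfl⟩ := h; exact step1 b hb Y2 h2
  | zero => simp
  | add x y _ _ h1 h2 =>
    rw [mul_add, add_mul, add_sub_add_comm, mul_add, Matrix.trace_add, h1, h2, add_zero]
  | smul r x _ h1 =>
    rw [Matrix.mul_smul, Matrix.smul_mul, ← smul_sub, Matrix.mul_smul, Matrix.trace_smul, h1,
      smul_zero]

theorem RC.cen_span {Y : Matrix V V ℝ} (hY : Y ∈ cenAlg G ℝ) :
    Y ∈ Submodule.span ℝ {Z | ∃ b : Matrix V V ℚ, cj c.P c.Q c.hPQ b ∈ cenAlg G ℝ ∧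
      Z = cj c.P c.Q c.hPQ b} := by
  have h := exp_conj c.P c.Q c.hPQ Y
  refine Submodule.span_mono ?_ h
  rintro _ ⟨ρ, rfl⟩
  exact ⟨_, c.cen_rho hY ρ, rfl⟩

end Pool.Agent.W672
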