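import Mathlib
import Pool.Agent.W672.Part2b
import Pool.Agent.W672.Omega

/-!
Part 2c: a rational semisimple element separating the classes, and real coordinates in which it
is diagonal.
-/

set_option autoImplicit false

namespace Pool.Agent.W672

open Matrix TensorProduct Polynomial

variable {V : Type*} [Fintype V] [DecidableEq V] {G : SimpleGraph V}

/-- diagonalisation of a semisimple element of the centre modulo the radical -/
theorem exists_diag {S : Matrix V V ℝ} (hS : S ∈ cenAlg G ℝ) {μ : ℚ[X]} (hμ : Squarefree μ)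
    (hS0 : aeval S μ = 0) : ∃ A ∈ cenAlg G ℝ, (∀ i, A i i = 1) ∧
      A * S = Matrix.diagonal (fun i => S i i) * A := by
  classical
  let T : Finset ℝ := Finset.univ.image (fun i : V => S i i)
  let π : ℝ[X] := ∏ c ∈ T, (X - C c)
  have hchr : ∀ (p : ℝ[X]) (i : V), (aeval S p) i i = p.eval (S i i) := by
    intro p i
    have h1 : aeval S p = ((aeval (⟨S, hS⟩ : cenAlg G ℝ) p : cenAlg G ℝ) : Matrix V V ℝ) :=
      Polynomial.aeval_algHom_apply (cenAlg G ℝ).val (⟨S, hS⟩ : cenAlg G ℝ) p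
    rw [h1, ← chr_apply, ← Polynomial.aeval_algHom_apply, chr_apply]
    rw [← Polynomial.coe_aeval_eq_eval]
  have hmem : ∀ p : ℝ[X], aeval S p ∈ cenAlg G ℝ := by
    intro p
    have h1 : aeval S p = ((aeval (⟨S, hS⟩ : cenAlg G ℝ) p : cenAlg G ℝ) : Matrix V V ℝ) :=
      Polynomial.aeval_algHom_apply (cenAlg G ℝ).val (⟨S, hS⟩ : cenAlg G ℝ) p
    rw [h1]; exact Subtype.property _
  have hπi : ∀ i, π.eval (S i i) = 0 := by
    intro i
    show (∏ c ∈ T, (X - C c)).eval (S i i) = 0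
    rw [Polynomial.eval_prod]
    apply Finset.prod_eq_zero (i := S i i)
    · exact Finset.mem_image.mpr ⟨i, Finset.mem_univ _, rfl⟩
    · simp
  have hnil : IsNilpotent (aeval S π) := by
    apply nilp_of_cen (hmem π)
    intro i
    rw [hchr, hπi]
  have hπ0 : aeval S π = 0 := by
    obtain ⟨N, hN⟩ := hnil
    have h1 : Squarefree (μ.map (algebraMap ℚ ℝ)) := by
      apply Polynomial.Separable.squarefree
      apply Polynomial.Separable.map
      exact PerfectField.separable_iff_squarefree.mpr hμ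
    have h2 : minpoly ℝ S ∣ μ.map (algebraMap ℚ ℝ) := by
      apply minpoly.dvd
      rw [Polynomial.aeval_map_algebraMap]
      exact hS0
    have h3 : Squarefree (minpoly ℝ S) := Squarefree.squarefree_of_dvd h2 h1
    have h4 : minpoly ℝ S ∣ π ^ (N + 1) := by
      apply minpoly.dvd
      rw [map_pow, pow_succ, hN, zero_mul]
    have h5 := (h3.dvd_pow_iff_dvd (Nat.succ_ne_zero N)).mp h4
    obtain ⟨w, hw⟩ := h5
    rw [hw, map_mul, minpoly.aeval, zero_mul]
  let e : ℝ → ℝ[X] := fun c => ∏ c' ∈ T.erase c, (X - C c')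
  have hT : ∀ i, S i i ∈ T := fun i => Finset.mem_image.mpr ⟨i, Finset.mem_univ _, rfl⟩
  have he : ∀ i, (e (S i i)).eval (S i i) ≠ 0 := by
    intro i
    show (∏ c' ∈ T.erase (S i i), (X - C c')).eval (S i i) ≠ 0
    rw [Polynomial.eval_prod, Finset.prod_ne_zero_iff]
    intro c hc
    rw [eval_sub, eval_X, eval_C, sub_ne_zero]
    exact (Finset.ne_of_mem_erase hc).symm
  have heX : ∀ i, aeval S (e (S i i)) * S = S i i • aeval S (e (S i i)) := by
    intro i
    have h1 : e (S i i) * (X - C (S i i)) = π := by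
      show (∏ c' ∈ T.erase (S i i), (X - C c')) * (X - C (S i i)) = ∏ c ∈ T, (X - C c)
      rw [Finset.prod_erase_mul _ _ (hT i)]
    have h2 := congrArg (aeval S) h1
    rw [map_mul, hπ0, map_sub, aeval_X, aeval_C, mul_sub, sub_eq_zero] at h2
    rw [h2, Algebra.algebraMap_eq_smul_one, Matrix.mul_smul, mul_one]
  let A : Matrix V V ℝ := Matrix.of fun i j =>
    ((e (S i i)).eval (S i i))⁻¹ * (aeval S (e (S i i))) i j
  have hA : ∀ i j, A i j = ((e (S i i)).eval (S i i))⁻¹ * (aeval S (e (S i i))) i j :=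
    fun i j => rfl
  refine ⟨A, ⟨?_, ?_, ?_⟩, ?_, ?_⟩
  · intro i j hij
    rw [hA, (hmem (e (S i i))).1 i j hij, mul_zero]
  · intro i j hij hne
    rw [hA, (hmem (e (S i i))).2.1 i j hij hne, mul_zero]
  · intro i j _
    rw [hA, hA, hchr, hchr, inv_mul_cancel₀ (he i), inv_mul_cancel₀ (he j)]
  · intro i
    rw [hA, hchr, inv_mul_cancel₀ (he i)]
  · ext i j
    rw [Matrix.diagonal_mul, Matrix.mul_apply]
    have h1 := congrFun (congrFun (heX i) i) j
    rw [Matrix.mul_apply, Matrix.smul_apply, smul_eq_mul] at h1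
    simp only [hA, mul_assoc]
    rw [← Finset.mul_sum, h1]
    ring

variable {M : Type*} [LieRing M] [LieAlgebra ℚ M]
variable {g : GDat G ℝ (ℝ ⊗[ℚ] M)} (c : RC g)

include c

theorem RC.exists_z : ∃ z : Matrix V V ℚ, cj c.P c.Q c.hPQ z ∈ cenAlg G ℝ ∧
    ∀ i j, ¬ Eqv G i j → cj c.P c.Q c.hPQ z i i ≠ cj c.P c.Q c.hPQ z j j := by
  classical
  let Zq : Subalgebra ℚ (Matrix V V ℚ) :=
    ((cenAlg G ℝ).restrictScalars ℚ).comap (cj c.P c.Q c.hPQ)
  let l : V × V → (Zq →ₗ[ℚ] ℝ) := fun p =>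
    { toFun := fun z => cj c.P c.Q c.hPQ z p.1 p.1 - cj c.P c.Q c.hPQ z p.2 p.2
      map_add' := by
        intro x y
        simp only [Subalgebra.coe_add, map_add, Matrix.add_apply]; ring
      map_smul' := by
        intro r x
        simp only [SetLike.val_smul, map_smul, Matrix.smul_apply, RingHom.id_apply, smul_sub] }
  let s : Finset (Subspace ℚ Zq) := (Finset.univ.filter (fun p : V × V => ¬ Eqv G p.1 p.2)).image
    (fun p => LinearMap.ker (l p))
  have hs : ⊤ ∉ s := by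
    intro h
    obtain ⟨⟨i, j⟩, hp, htop⟩ := Finset.mem_image.mp h
    rw [Finset.mem_filter] at hp
    have hij := hp.2
    have h1 : ∀ Z ∈ Submodule.span ℝ {Z | ∃ b : Matrix V V ℚ, cj c.P c.Q c.hPQ b ∈ cenAlg G ℝ ∧
        Z = cj c.P c.Q c.hPQ b}, Z i i = Z j j := by
      intro Z hZ
      induction hZ using Submodule.span_induction with
      | mem x h =>
        obtain ⟨b, hb, rfl⟩ := h
        have h2 : (⟨b, hb⟩ : Zq) ∈ LinearMap.ker (l (i, j)) := by rw [htop]; trivial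
        have h3 : cj c.P c.Q c.hPQ b i i - cj c.P c.Q c.hPQ b j j = 0 := h2
        exact sub_eq_zero.mp h3
      | zero => rfl
      | add x y _ _ h1 h2 => rw [Matrix.add_apply, Matrix.add_apply, h1, h2]
      | smul r x _ h1 => rw [Matrix.smul_apply, Matrix.smul_apply, h1]
    have h2 := h1 _ (c.cen_span (ind_mem_cen (k := ℝ) (G := G) i))
    rw [Matrix.diagonal_apply_eq, Matrix.diagonal_apply_eq, if_pos (Eqv.refl i), if_neg hij] at h2
    exact one_ne_zero h2
  have h2 := Subspace.biUnion_ne_univ_of_top_notMem hs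
  rw [Set.ne_univ_iff_exists_notMem] at h2
  obtain ⟨z, hz⟩ := h2
  refine ⟨z.1, z.2, ?_⟩
  intro i j hij heq
  apply hz
  rw [Set.mem_iUnion₂]
  refine ⟨LinearMap.ker (l (i, j)), Finset.mem_image.mpr ⟨(i, j), by simpa using hij, rfl⟩, ?_⟩
  show cj c.P c.Q c.hPQ z i i - cj c.P c.Q c.hPQ z j j = 0
  rw [heq, sub_self]

theorem RC.exists_s : ∃ (s : Matrix V V ℚ) (μ : ℚ[X]), cj c.P c.Q c.hPQ s ∈ cenAlg G ℝ ∧
    (∀ i j, ¬ Eqv G i j → cj c.P c.Q c.hPQ s i i ≠ cj c.P c.Q c.hPQ s j j) ∧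
    Squarefree μ ∧ aeval s μ = 0 := by
  obtain ⟨z, hz, hzij⟩ := c.exists_z
  let Zq : Subalgebra ℚ (Matrix V V ℚ) :=
    ((cenAlg G ℝ).restrictScalars ℚ).comap (cj c.P c.Q c.hPQ)
  let E := Matrix.toLinAlgEquiv' (R := ℚ) (n := V)
  obtain ⟨ν', hν', s', hs', hnil, hss, hsum⟩ :=
    Module.End.exists_isNilpotent_isSemisimple (K := ℚ) (f := (E z : Module.End ℚ (V → ℚ)))
  have hback : ∀ t ∈ Algebra.adjoin ℚ {(E z : Module.End ℚ (V → ℚ))}, E.symm t ∈ Zq := by
    intro t ht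
    have h1 : Algebra.adjoin ℚ {(E z : Module.End ℚ (V → ℚ))} ≤
        Zq.comap (E.symm : Module.End ℚ (V → ℚ) →ₐ[ℚ] Matrix V V ℚ) := by
      rw [Algebra.adjoin_le_iff]
      rintro _ rfl
      show E.symm (E z) ∈ Zq
      rw [AlgEquiv.symm_apply_apply]
      exact hz
    exact h1 ht
  refine ⟨E.symm s', minpoly ℚ s', hback s' hs', ?_, hss.minpoly_squarefree, ?_⟩
  · intro i j hij
    have hνn : IsNilpotent (cj c.P c.Q c.hPQ (E.symm ν')) := (hnil.map E.symm).map _
    have h0 : ∀ i, (cj c.P c.Q c.hPQ (E.symm ν')) i i = 0 :=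
      fun i => cen_of_nilp (G := G) (hback ν' hν') hνn i
    have hzs : z = E.symm ν' + E.symm s' := by
      rw [← map_add, ← hsum, AlgEquiv.symm_apply_apply]
    have h1 : ∀ i, cj c.P c.Q c.hPQ (E.symm s') i i = cj c.P c.Q c.hPQ z i i := by
      intro i
      conv_rhs => rw [hzs]
      rw [map_add, Matrix.add_apply, h0, zero_add]
    rw [h1, h1]
    exact hzij i j hij
  · rw [← AlgEquiv.coe_toAlgHom, Polynomial.aeval_algHom_apply, minpoly.aeval, map_zero]

theorem RC.exists_final : ∃ (A : Matrix V V ℝ) (s : Matrix V V ℚ) (d : V → ℝ),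
    A ∈ cenAlg G ℝ ∧ (∀ i, A i i = 1) ∧ A * c.P * rm s = Matrix.diagonal d * (A * c.P) ∧
    (∀ i, IsIntegral ℤ (d i)) ∧ (∀ i j, d i = d j ↔ Eqv G i j) := by
  obtain ⟨s, μ, hs, hsij, hμ, hs0⟩ := c.exists_s
  set S := cj c.P c.Q c.hPQ s with hS
  have hS0 : aeval S μ = 0 := by
    rw [hS, Polynomial.aeval_algHom_apply, hs0, map_zero]
  obtain ⟨A, hA, hA1, hAS⟩ := exists_diag hs hμ hS0
  -- integrality
  have halg : ∀ i, IsAlgebraic ℤ (S i i) := by
    intro i
    rw [IsFractionRing.isAlgebraic_iff ℤ ℚ ℝ]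
    refine ⟨μ, hμ.ne_zero, ?_⟩
    have h1 : aeval S (μ.map (algebraMap ℚ ℝ)) = ((aeval (⟨S, hs⟩ : cenAlg G ℝ)
        (μ.map (algebraMap ℚ ℝ)) : cenAlg G ℝ) : Matrix V V ℝ) :=
      Polynomial.aeval_algHom_apply (cenAlg G ℝ).val ⟨S, hs⟩ _
    rw [Polynomial.aeval_map_algebraMap, hS0] at h1
    have h2 : aeval (⟨S, hs⟩ : cenAlg G ℝ) (μ.map (algebraMap ℚ ℝ)) = 0 :=
      Subtype.ext h1.symm
    have h3 := congrArg (chr G ℝ i) h2
    rw [← Polynomial.aeval_algHom_apply, map_zero, chr_apply, Polynomial.aeval_map_algebraMap] at h3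
    exact h3
  choose y hy0 hyint using fun i => (halg i).exists_integral_multiple
  let D : ℤ := ∏ i, y i
  have hD0 : D ≠ 0 := Finset.prod_ne_zero_iff.mpr fun i _ => hy0 i
  have hDint : ∀ i, IsIntegral ℤ ((D : ℝ) * S i i) := by
    intro i
    have h1 : (D : ℝ) * S i i = ((∏ j ∈ Finset.univ.erase i, y j : ℤ) : ℝ) * (y i • S i i) := by
      have : D = (∏ j ∈ Finset.univ.erase i, y j) * y i :=
        (Finset.prod_erase_mul _ _ (Finset.mem_univ i)).symm
      rw [this, Int.cast_mul, zsmul_eq_mul]; ring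
    rw [h1]
    apply IsIntegral.mul _ (hyint i)
    exact isIntegral_algebraMap (R := ℤ) (A := ℝ) (x := ∏ j ∈ Finset.univ.erase i, y j)
  refine ⟨A, (D : ℚ) • s, fun i => (D : ℝ) * S i i, hA, hA1, ?_, hDint, ?_⟩
  · have h1 : rm ((D : ℚ) • s) = (D : ℝ) • rm s := by
      ext i j; simp [rm]
    have h2 : S * c.P = c.P * rm s := by
      rw [hS, cj_apply, Matrix.mul_assoc, c.hQP, mul_one]
    have h3 : Matrix.diagonal (fun i => (D : ℝ) * S i i) =
        (D : ℝ) • Matrix.diagonal (fun i => S i i) := by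
      ext i j
      by_cases h : i = j
      · subst h; simp
      · simp [h]
    rw [h1, h3, Matrix.mul_smul, Matrix.smul_mul, ← Matrix.mul_assoc, ← hAS, Matrix.mul_assoc A,
      ← h2, Matrix.mul_assoc]
  · intro i j
    have hDr : (D : ℝ) ≠ 0 := Int.cast_ne_zero.mpr hD0
    rw [mul_right_inj' hDr]
    constructor
    · intro h
      by_contra hc
      exact hsij i j hc h
    · intro h
      exact hs.2.2 i j h

end Pool.Agent.W672
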