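import Mathlib
import Pool.Agent.W672.Part2c

/-!
Part 2d: the model of a rational form.
-/

set_option autoImplicit false

namespace Pool.Agent.W672

open Matrix TensorProduct

section abstract_model

variable {M U E : Type*} [AddCommGroup M] [Module ℚ M] [AddCommGroup U] [Module ℚ U]
  [AddCommGroup E] [Module ℚ E]

theorem model_aux (q : M →ₗ[ℚ] U) (hq : Function.Surjective q) (κ : M →ₗ[ℚ] E)
    (W : Submodule ℚ E) (h1 : ∀ m, q m = 0 → κ m ∈ W) (h2 : ∀ m, q m = 0 → κ m = 0 → m = 0)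
    (h3 : ∀ F ∈ W, ∃ m, q m = 0 ∧ κ m = F) :
    ∃ J : M ≃ₗ[ℚ] U × W, (∀ m, (J m).1 = q m) ∧ ∀ m, q m = 0 → ((J m).2 : E) = κ m := by
  obtain ⟨σ, hσ⟩ := LinearMap.exists_rightInverse_of_surjective q
    (LinearMap.range_eq_top.mpr hq)
  have hσ' : ∀ u, q (σ u) = u := fun u => LinearMap.congr_fun hσ u
  have hmem : ∀ m, κ (m - σ (q m)) ∈ W := by
    intro m
    apply h1
    rw [map_sub, hσ', sub_self]
  let κ₂ : M →ₗ[ℚ] W := LinearMap.codRestrict W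
    (κ ∘ₗ (LinearMap.id - σ ∘ₗ q)) (fun m => hmem m)
  have hκ₂ : ∀ m, (κ₂ m : E) = κ (m - σ (q m)) := fun m => rfl
  have hbij : Function.Bijective (q.prod κ₂) := by
    constructor
    · intro x y hxy
      have h4 : q x = q y := congrArg Prod.fst hxy
      have h5 : κ₂ x = κ₂ y := congrArg Prod.snd hxy
      have h6 := congrArg (Subtype.val) h5
      rw [hκ₂, hκ₂] at h6
      have h7 : x - y = 0 := by
        apply h2
        · rw [map_sub, h4, sub_self]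
        · rw [h4, ← sub_eq_zero, ← map_sub] at h6
          rw [← h6]
          congr 1
          abel
      exact sub_eq_zero.mp h7
    · rintro ⟨u, F, hF⟩
      obtain ⟨m, hm, hm'⟩ := h3 F hF
      refine ⟨σ u + m, ?_⟩
      apply Prod.ext
      · show q (σ u + m) = u
        rw [map_add, hσ', hm, add_zero]
      · apply Subtype.ext
        show κ (σ u + m - σ (q (σ u + m))) = F
        rw [map_add q, hσ', hm, add_zero, add_sub_cancel_left, hm']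
  refine ⟨LinearEquiv.ofBijective (q.prod κ₂) hbij, fun m => rfl, fun m hm => ?_⟩
  show κ (m - σ (q m)) = κ m
  rw [hm, map_zero, sub_zero]

end abstract_model

variable {V : Type*} [Fintype V] [DecidableEq V]

/-- the rational edge space -/
noncomputable def wq (G : SimpleGraph V) (P : Matrix V V ℝ) : Submodule ℚ (Matrix V V ℝ) :=
  Submodule.span ℚ (Set.range fun uv : (V → ℚ) × (V → ℚ) =>
    om G (P *ᵥ rc uv.1) (P *ᵥ rc uv.2))

omit [DecidableEq V] in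
theorem om_mem_wq (G : SimpleGraph V) (P : Matrix V V ℝ) (u v : V → ℚ) :
    om G (P *ᵥ rc u) (P *ᵥ rc v) ∈ wq G P := Submodule.subset_span ⟨(u, v), rfl⟩

/-- the twist by a matrix -/
noncomputable def twL (G : SimpleGraph V) (A : Matrix V V ℝ) :
    Matrix V V ℝ →ₗ[ℝ] Matrix V V ℝ where
  toFun F := mask G ℝ (A * F * Aᵀ)
  map_add' := by intro x y; rw [mul_add, add_mul, map_add]
  map_smul' := by intro r x; rw [Matrix.mul_smul, Matrix.smul_mul, map_smul]; rfl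

theorem twL_om {G : SimpleGraph V} {A : Matrix V V ℝ} (hA : A ∈ cenAlg G ℝ) (u v : V → ℝ) :
    om G (A *ᵥ u) (A *ᵥ v) = twL G A (om G u v) := om_inc' (cenAlg_le hA) u v

theorem twL_inj {G : SimpleGraph V} {A : Matrix V V ℝ} (hA : A ∈ cenAlg G ℝ)
    (h1 : ∀ i, A i i = 1) {F : Matrix V V ℝ} (hF : F ∈ wsp G ℝ) (h0 : twL G A F = 0) : F = 0 :=
  twist_inj hA h1 h0 hF.2

variable {G : SimpleGraph V} {M : Type*} [LieRing M] [LieAlgebra ℚ M]

theorem tmul_br (a b : M) : (1 : ℝ) ⊗ₜ[ℚ] ⁅a, b⁆ = ⁅(1 : ℝ) ⊗ₜ[ℚ] a, (1 : ℝ) ⊗ₜ[ℚ] b⁆ := by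
  rw [LieAlgebra.ExtendScalars.bracket_tmul, mul_one]

/-- twisted edge coordinates on the rational form -/
noncomputable def kapA (g : GDat G ℝ (ℝ ⊗[ℚ] M)) (A : Matrix V V ℝ) :
    M →ₗ[ℚ] Matrix V V ℝ :=
  ((twL G A ∘ₗ g.κ).restrictScalars ℚ) ∘ₗ inc1 M

theorem kapA_apply (g : GDat G ℝ (ℝ ⊗[ℚ] M)) (A : Matrix V V ℝ) (m : M) :
    kapA g A m = twL G A (g.κ ((1 : ℝ) ⊗ₜ[ℚ] m)) := rfl

theorem kapA_br (g : GDat G ℝ (ℝ ⊗[ℚ] M)) (c : RC g) {A : Matrix V V ℝ}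
    (hA : A ∈ cenAlg G ℝ) (a b : M) :
    kapA g A ⁅a, b⁆ = om G ((A * c.P) *ᵥ rc (c.q a)) ((A * c.P) *ᵥ rc (c.q b)) := by
  rw [kapA_apply, tmul_br, g.κ_br, c.hq, c.hq, ← twL_om hA, Matrix.mulVec_mulVec,
    Matrix.mulVec_mulVec]

theorem kapA_mem (g : GDat G ℝ (ℝ ⊗[ℚ] M)) (c : RC g) {A : Matrix V V ℝ}
    (hA : A ∈ cenAlg G ℝ) (m : M) (hm : c.q m = 0) : kapA g A m ∈ wq G (A * c.P) := by
  have h1 := rhoM_ker' g (c.q_zero.mp hm)
  have h2 : Submodule.span ℚ {z : M | ∃ a b : M, z = ⁅a, b⁆} ≤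
      (wq G (A * c.P)).comap (kapA g A) := by
    rw [Submodule.span_le]
    rintro _ ⟨a, b, rfl⟩
    show kapA g A ⁅a, b⁆ ∈ wq G (A * c.P)
    rw [kapA_br g c hA]
    exact om_mem_wq G _ _ _
  exact h2 h1

theorem kapA_inj (g : GDat G ℝ (ℝ ⊗[ℚ] M)) (c : RC g) {A : Matrix V V ℝ}
    (hA : A ∈ cenAlg G ℝ) (hA1 : ∀ i, A i i = 1) (m : M) (hm : c.q m = 0)
    (hm' : kapA g A m = 0) : m = 0 := by
  apply inc1_inj
  apply g.inj
  · exact c.q_zero.mp hm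
  · exact twL_inj hA hA1 (g.κ_mem _) hm'

theorem kapA_surj (g : GDat G ℝ (ℝ ⊗[ℚ] M)) (c : RC g) {A : Matrix V V ℝ}
    (hA : A ∈ cenAlg G ℝ) (F : Matrix V V ℝ) (hF : F ∈ wq G (A * c.P)) :
    ∃ m, c.q m = 0 ∧ kapA g A m = F := by
  have h2 : wq G (A * c.P) ≤ (LinearMap.ker c.q).map (kapA g A) := by
    unfold wq
    rw [Submodule.span_le]
    rintro _ ⟨⟨u, v⟩, rfl⟩
    obtain ⟨a, rfl⟩ := c.q_surj u
    obtain ⟨b, rfl⟩ := c.q_surj v
    exact ⟨⁅a, b⁆, c.q_br a b, kapA_br g c hA a b⟩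
  obtain ⟨m, hm, hm'⟩ := h2 hF
  exact ⟨m, hm, hm'⟩

theorem kapA_indep (g : GDat G ℝ (ℝ ⊗[ℚ] M)) (c : RC g) {A : Matrix V V ℝ}
    (hA : A ∈ cenAlg G ℝ) (hA1 : ∀ i, A i i = 1) (ι : Type) (F : ι → wq G (A * c.P))
    (hF : LinearIndependent ℚ F) : LinearIndependent ℝ (fun i => (F i : Matrix V V ℝ)) := by
  have hex : ∀ i, ∃ m, c.q m = 0 ∧ kapA g A m = F i := fun i => kapA_surj g c hA _ (F i).2
  choose m hm1 hm2 using hex
  rw [linearIndependent_iff']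
  intro t r hr i hi
  apply real_zero_of_rho
  intro ρ
  have hx : (∑ i ∈ t, r i ⊗ₜ[ℚ] m i : ℝ ⊗[ℚ] M) = 0 := by
    have e : ∀ i, r i ⊗ₜ[ℚ] m i = r i • ((1 : ℝ) ⊗ₜ[ℚ] m i) := by
      intro i
      rw [TensorProduct.smul_tmul', smul_eq_mul, mul_one]
    apply g.inj
    · rw [map_sum]
      apply Finset.sum_eq_zero
      intro i _
      rw [e, map_smul, c.q_zero.mp (hm1 i), smul_zero]
    · apply twL_inj hA hA1 (g.κ_mem _)
      rw [map_sum, map_sum, ← hr]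
      apply Finset.sum_congr rfl
      intro i _
      rw [e, map_smul, map_smul, ← kapA_apply, hm2]
  have h1 := congrArg (rhoM M ρ) hx
  rw [map_zero, map_sum] at h1
  simp only [rhoM_tmul] at h1
  have h2 : ∑ i ∈ t, ρ (r i) • F i = 0 := by
    apply Subtype.ext
    rw [Submodule.coe_sum, ZeroMemClass.coe_zero]
    have h3 := congrArg (kapA g A) h1
    rw [map_sum, map_zero] at h3
    rw [← h3]
    apply Finset.sum_congr rfl
    intro i _
    rw [map_smul, hm2, Submodule.coe_smul]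
  exact linearIndependent_iff'.mp hF t (fun i => ρ (r i)) h2 i hi

/-- the model of a rational form, with a rational element acting diagonally -/
structure Model (G : SimpleGraph V) (M : Type*) [LieRing M] [LieAlgebra ℚ M] where
  P : Matrix V V ℝ
  s : Matrix V V ℚ
  d : V → ℝ
  hP : IsUnit P
  hPs : P * rm s = Matrix.diagonal d * P
  hint : ∀ i, IsIntegral ℤ (d i)
  hd : ∀ i j, d i = d j ↔ Eqv G i j
  J : M ≃ₗ[ℚ] (V → ℚ) × wq G P
  J_br1 : ∀ a b : M, (J ⁅a, b⁆).1 = 0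
  J_br2 : ∀ a b : M, ((J ⁅a, b⁆).2 : Matrix V V ℝ) = om G (P *ᵥ rc (J a).1) (P *ᵥ rc (J b).1)
  indep : ∀ (ι : Type) (F : ι → wq G P), LinearIndependent ℚ F →
    LinearIndependent ℝ (fun i => (F i : Matrix V V ℝ))

theorem exists_model [FiniteDimensional ℚ M] (g : GDat G ℝ (ℝ ⊗[ℚ] M)) :
    Nonempty (Model G M) := by
  obtain ⟨c⟩ := exists_RC g
  obtain ⟨A, s, d, hA, hA1, hAs, hint, hd⟩ := c.exists_final
  obtain ⟨J, hJ1, hJ2⟩ := model_aux c.q c.q_surj (kapA g A) (wq G (A * c.P)) (kapA_mem g c hA)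
    (kapA_inj g c hA hA1) (kapA_surj g c hA)
  have hPu : IsUnit (A * c.P) := (isUnit_of_cen hA hA1).mul (IsUnit.of_mul_eq_one _ c.hPQ)
  have hbr1 : ∀ a b : M, (J ⁅a, b⁆).1 = 0 := by
    intro a b
    rw [hJ1]; exact c.q_br a b
  have hbr2 : ∀ a b : M, ((J ⁅a, b⁆).2 : Matrix V V ℝ) =
      om G ((A * c.P) *ᵥ rc (J a).1) ((A * c.P) *ᵥ rc (J b).1) := by
    intro a b
    rw [hJ2 _ (c.q_br a b), hJ1, hJ1]
    exact kapA_br g c hA a b
  exact ⟨{ P := A * c.P, s := s, d := d, hP := hPu, hPs := hAs, hint := hint, hd := hd, J := J,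
           J_br1 := hbr1, J_br2 := hbr2, indep := kapA_indep g c hA hA1 }⟩

end Pool.Agent.W672
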