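import Mathlib

/-!
Part 3a: companion endomorphisms.
-/

set_option autoImplicit false

namespace Pool.Agent.W672

open Polynomial

theorem companion_exists {K W : Type*} [Field K] [AddCommGroup W] [Module K W]
    [FiniteDimensional K W] (τ : K) (n : ℕ) (hn : Module.finrank K W = n + 1) :
    ∃ a : Module.End K W, a ^ (n + 1) - τ • a ^ n + 1 = 0 := by
  let p : K[X] := 1 - C τ * X ^ n
  let Q : K[X] := X ^ (n + 1) + p
  have hdeg : p.degree < ((n + 1 : ℕ) : WithBot ℕ) := by
    have h1 : p.degree ≤ (n : WithBot ℕ) := by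
      apply (degree_sub_le _ _).trans
      apply max_le
      · exact degree_one_le.trans (by exact_mod_cast Nat.zero_le n)
      · exact degree_C_mul_X_pow_le n τ
    exact lt_of_le_of_lt h1 (by exact_mod_cast Nat.lt_succ_self n)
  have hQ : Q.Monic := monic_X_pow_add hdeg
  have hQdeg : Q.natDegree = n + 1 := by
    rw [show Q = X ^ (n + 1) + p from rfl, natDegree_add_eq_left_of_degree_lt]
    · simp
    · rw [degree_X_pow]; exact hdeg
  let pb := AdjoinRoot.powerBasis' hQ
  have hfin : Module.Finite K (AdjoinRoot Q) := pb.finite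
  have hrank : Module.finrank K (AdjoinRoot Q) = n + 1 := by
    rw [pb.finrank]
    exact hQdeg
  let e : W ≃ₗ[K] AdjoinRoot Q := LinearEquiv.ofFinrankEq _ _ (by rw [hn, hrank])
  let m : Module.End K (AdjoinRoot Q) := LinearMap.mulLeft K (AdjoinRoot.root Q)
  have hm : m ^ (n + 1) - τ • m ^ n + 1 = 0 := by
    have h1 : ∀ i : ℕ, m ^ i = LinearMap.mulLeft K (AdjoinRoot.root Q ^ i) := by
      intro i
      induction i with
      | zero =>
        ext x : 1
        simp
      | succ i ih =>
        ext x : 1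
        rw [pow_succ, ih]
        simp [m, pow_succ]
    ext x : 1
    simp only [h1, LinearMap.add_apply, LinearMap.sub_apply, LinearMap.smul_apply,
      LinearMap.mulLeft_apply, Module.End.one_apply, LinearMap.zero_apply]
    have h2 : aeval (AdjoinRoot.root Q) Q = 0 := by
      rw [AdjoinRoot.aeval_eq, AdjoinRoot.mk_self]
    have h3 : AdjoinRoot.root Q ^ (n + 1) + (1 - τ • AdjoinRoot.root Q ^ n) = 0 := by
      have h4 : aeval (AdjoinRoot.root Q) Q =
          AdjoinRoot.root Q ^ (n + 1) + (1 - τ • AdjoinRoot.root Q ^ n) := by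
        simp only [Q, p, map_add, map_sub, map_one, map_mul, map_pow, aeval_X, aeval_C,
          Algebra.smul_def]
      rw [← h4, h2]
    calc AdjoinRoot.root Q ^ (n + 1) * x - τ • (AdjoinRoot.root Q ^ n * x) + x
        = (AdjoinRoot.root Q ^ (n + 1) + (1 - τ • AdjoinRoot.root Q ^ n)) * x := by
          rw [add_mul, sub_mul, one_mul, smul_mul_assoc]; abel
      _ = 0 := by rw [h3, zero_mul]
  refine ⟨e.symm.conj m, ?_⟩
  have h5 : ∀ i : ℕ, (e.symm.conj m) ^ i = e.symm.conj (m ^ i) := by
    intro i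
    induction i with
    | zero => 
      rw [pow_zero, pow_zero]
      ext x
      simp
    | succ i ih => 
      rw [pow_succ, pow_succ, ih]
      ext x
      simp [LinearEquiv.conj_apply]
  rw [h5, h5]
  have h6 : (1 : Module.End K W) = e.symm.conj 1 := by
    ext x; simp
  rw [h6, ← map_smul, ← map_sub, ← map_add, hm, map_zero]

theorem companion_poly {W : Type*} [AddCommGroup W] [Module ℚ W] [FiniteDimensional ℚ W]
    (p : ℚ[X]) (hp : Irreducible p) (S : Module.End ℚ W) (hS : aeval S p = 0) (τ : ℚ[X]) :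
    ∃ (k : ℕ) (a : Module.End ℚ W) (w : Fin k → W),
      (∀ x, ∃ r : Fin k → ℚ[X], x = ∑ i, aeval S (r i) (w i)) ∧ Commute a S ∧
      a ^ k - aeval S τ * a ^ (k - 1) + 1 = 0 := by
  let I : Ideal ℚ[X] := Ideal.span {p}
  have hmax : I.IsMaximal := PrincipalIdealRing.isMaximal_of_irreducible hp
  let K := ℚ[X] ⧸ I
  let _ : Field K := Ideal.Quotient.field I
  let φ : K →ₐ[ℚ] Module.End ℚ W := Ideal.Quotient.liftₐ I (aeval S) (by
    intro a ha
    obtain ⟨b, rfl⟩ := Ideal.mem_span_singleton.mp ha
    rw [map_mul, hS, zero_mul])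
  have hφ : ∀ r : ℚ[X], φ (Ideal.Quotient.mk I r) = aeval S r := fun r =>
    Ideal.Quotient.liftₐ_apply I (aeval S) _ _
  let _ : Module K W := Module.compHom W (φ : K →+* Module.End ℚ W)
  have hsm : ∀ (x : K) (w : W), x • w = φ x w := fun x w => rfl
  have : IsScalarTower ℚ K W := ⟨by
    intro r x w
    rw [hsm, hsm, map_smul]; rfl⟩
  have : Module.Finite K W := Module.Finite.of_restrictScalars_finite ℚ K W
  have hcomm : ∀ (a : Module.End K W), Commute (a.restrictScalars ℚ : Module.End ℚ W) S := by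
    intro a
    have hX : ∀ w, S w = (Ideal.Quotient.mk I X : K) • w := by
      intro w
      rw [hsm, hφ, aeval_X]
    ext w
    show a (S w) = S (a w)
    rw [hX, hX, map_smul]
  let b := Module.finBasis K W
  refine ⟨Module.finrank K W, ?_⟩
  have hspan : ∀ x, ∃ r : Fin (Module.finrank K W) → ℚ[X], x = ∑ i, aeval S (r i) (b i) := by
    intro x
    have hsur : ∀ i, ∃ r : ℚ[X], Ideal.Quotient.mk I r = b.repr x i :=
      fun i => Ideal.Quotient.mk_surjective _
    choose r hr using hsur
    refine ⟨r, ?_⟩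
    conv_lhs => rw [← b.sum_repr x]
    apply Finset.sum_congr rfl
    intro i _
    rw [← hr i, hsm, hφ]
  rcases Nat.eq_zero_or_pos (Module.finrank K W) with h0 | h0
  · have hsub : Subsingleton W := Module.finrank_zero_iff.mp h0
    refine ⟨1, b, hspan, Commute.one_left S, ?_⟩
    exact Subsingleton.elim _ _
  · obtain ⟨n, hn⟩ := Nat.exists_eq_succ_of_ne_zero h0.ne'
    obtain ⟨a, ha⟩ := companion_exists (K := K) (W := W) (Ideal.Quotient.mk I τ) n hn
    refine ⟨a.restrictScalars ℚ, b, hspan, hcomm a, ?_⟩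
    rw [hn, Nat.succ_eq_add_one, Nat.add_sub_cancel]
    ext w
    have h1 := LinearMap.congr_fun ha w
    have hpow : ∀ i : ℕ, ∀ w, ((a.restrictScalars ℚ : Module.End ℚ W) ^ i) w = (a ^ i) w := by
      intro i
      induction i with
      | zero => intro w; rfl
      | succ i ih =>
        intro w
        rw [pow_succ, pow_succ, Module.End.mul_apply, Module.End.mul_apply, ih]; rfl
    rw [LinearMap.add_apply, LinearMap.sub_apply, LinearMap.smul_apply, hsm, hφ] at h1
    rw [LinearMap.add_apply, LinearMap.sub_apply, Module.End.mul_apply, hpow, hpow]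
    exact h1

end Pool.Agent.W672
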