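import Mathlib
import Pool.Agent.W672.Part2b
import Pool.Agent.W672.Part3a

/-!
Part 3b: the companion endomorphism commuting with a given rational diagonalisable matrix.
-/

set_option autoImplicit false

namespace Pool.Agent.W672

open Polynomial Matrix

theorem companion_piece {E : Type*} [AddCommGroup E] [Module ℚ E] [FiniteDimensional ℚ E]
    (S : Module.End ℚ E) (p ε τ : ℚ[X]) (hp : Irreducible p) (hpε : aeval S (p * ε) = 0)
    (hε : ∃ u, ε = 1 - u * p) :
    ∃ (k : ℕ) (b : Module.End ℚ E) (w : Fin k → E),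
      (∀ x, aeval S p x = 0 → ∃ r : Fin k → ℚ[X], x = ∑ i, aeval S (r i) (w i)) ∧
      Commute b S ∧ (∀ x, aeval S p (b x) = 0) ∧
      (∀ x, aeval S p x = 0 → (b ^ k - aeval S τ * b ^ (k - 1) + 1) x = 0) ∧
      (∀ x, aeval S ε x = 0 → b x = 0) := by
  let Ep : Submodule ℚ E := LinearMap.ker (aeval S p)
  have hmem : ∀ x, x ∈ Ep ↔ aeval S p x = 0 := fun x => Iff.rfl
  have hcom : ∀ (r r' : ℚ[X]) x, aeval S r (aeval S r' x) = aeval S r' (aeval S r x) := by
    intro r r' x
    rw [← Module.End.mul_apply, ← Module.End.mul_apply, ← map_mul, ← map_mul, mul_comm]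
  have hstab : ∀ (r : ℚ[X]) x, x ∈ Ep → aeval S r x ∈ Ep := by
    intro r x hx
    rw [hmem, hcom, (hmem x).mp hx, map_zero]
  have hSX : ∀ x, S x = aeval S (X : ℚ[X]) x := by intro x; rw [aeval_X]
  have hS : ∀ x ∈ Ep, S x ∈ Ep := by
    intro x hx
    rw [hSX]; exact hstab _ x hx
  let S' : Module.End ℚ Ep := S.restrict hS
  have hS' : ∀ (r : ℚ[X]) (x : Ep), ((aeval S' r x : Ep) : E) = aeval S r x := by
    intro r x
    induction r using Polynomial.induction_on' generalizing x with
    | add r r' h h' =>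
      rw [map_add, map_add, LinearMap.add_apply, LinearMap.add_apply, Submodule.coe_add, h, h']
    | monomial n c =>
      rw [aeval_monomial, aeval_monomial]
      have hpow : ∀ (n : ℕ) (x : Ep), (((S' ^ n) x : Ep) : E) = (S ^ n) x := by
        intro n
        induction n with
        | zero => intro x; rfl
        | succ n ih =>
          intro x
          rw [pow_succ, pow_succ, Module.End.mul_apply, Module.End.mul_apply, ih]; rfl
      rw [Module.End.mul_apply, Module.End.mul_apply, Module.algebraMap_end_apply,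
        Module.algebraMap_end_apply, Submodule.coe_smul, hpow]
  have hS'p : aeval S' p = 0 := by
    ext x
    rw [hS']
    exact x.2
  obtain ⟨k, a, w, hspan, ha, hrel⟩ := companion_poly p hp S' hS'p τ
  have hεmem : ∀ x, aeval S ε x ∈ Ep := by
    intro x
    rw [hmem, ← Module.End.mul_apply, ← map_mul, hpε]; rfl
  have hεid : ∀ x ∈ Ep, aeval S ε x = x := by
    intro x hx
    obtain ⟨u, hu⟩ := hε
    rw [hu, map_sub, map_one, map_mul, LinearMap.sub_apply, Module.End.mul_apply,
      (hmem x).mp hx, map_zero, sub_zero]; rfl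
  let pr : E →ₗ[ℚ] Ep := LinearMap.codRestrict Ep (aeval S ε) hεmem
  let b : Module.End ℚ E := Ep.subtype ∘ₗ a ∘ₗ pr
  have hb : ∀ x, b x = (a (pr x) : E) := fun x => rfl
  have hpr : ∀ x : Ep, pr x = x := fun x => Subtype.ext (hεid x x.2)
  have hb' : ∀ x : Ep, b x = (a x : E) := by
    intro x; rw [hb, hpr]
  have hbpow : ∀ (n : ℕ) (x : Ep), (b ^ n) (x : E) = ((a ^ n) x : Ep) := by
    intro n
    induction n with
    | zero => intro x; rfl
    | succ n ih =>
      intro x
      rw [pow_succ, pow_succ, Module.End.mul_apply, Module.End.mul_apply, hb', ih]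
  refine ⟨k, b, fun i => (w i : E), ?_, ?_, ?_, ?_, ?_⟩
  · intro x hx
    obtain ⟨r, hr⟩ := hspan ⟨x, hx⟩
    refine ⟨r, ?_⟩
    have := congrArg (Subtype.val) hr
    rw [Submodule.coe_sum] at this
    simp only [hS'] at this
    exact this
  · ext x
    show b (S x) = S (b x)
    rw [hb, hb]
    have h1 : pr (S x) = S' (pr x) := by
      apply Subtype.ext
      show aeval S ε (S x) = S (aeval S ε x)
      rw [hSX, hSX, hcom]
    have h2 : a (S' (pr x)) = S' (a (pr x)) := LinearMap.congr_fun ha (pr x)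
    rw [h1, h2]; rfl
  · intro x
    exact (a (pr x)).2
  · intro x hx
    have h1 := LinearMap.congr_fun hrel ⟨x, hx⟩
    have h2 := congrArg Subtype.val h1
    rw [LinearMap.add_apply, LinearMap.sub_apply, Module.End.mul_apply, Submodule.coe_add,
      AddSubgroupClass.coe_sub, hS', ← hbpow, ← hbpow] at h2
    rw [LinearMap.add_apply, LinearMap.sub_apply, Module.End.mul_apply]
    exact h2
  · intro x hx
    rw [hb]
    have : pr x = 0 := Subtype.ext hx
    rw [this, map_zero]; rfl

section combine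

variable {V : Type*} [Fintype V] [DecidableEq V]

theorem aeval_diagonal (d : V → ℝ) (r : ℚ[X]) :
    aeval (Matrix.diagonal d) r = Matrix.diagonal (fun i => aeval (d i) r) := by
  have h1 : aeval ((Matrix.diagonalAlgHom ℚ : (V → ℝ) →ₐ[ℚ] Matrix V V ℝ) d) r =
      (Matrix.diagonalAlgHom ℚ : (V → ℝ) →ₐ[ℚ] Matrix V V ℝ) (aeval d r) :=
    Polynomial.aeval_algHom_apply _ _ _
  have h2 : aeval d r = fun i => aeval (d i) r := by
    ext i
    exact (Polynomial.aeval_algHom_apply (Pi.evalAlgHom ℚ (fun _ : V => ℝ) i) d r).symm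
  rw [h2] at h1
  exact h1

theorem cj_aeval {P Q : Matrix V V ℝ} (hPQ : P * Q = 1) {s : Matrix V V ℚ} {d : V → ℝ}
    (hs : P * rm s = Matrix.diagonal d * P) (r : ℚ[X]) :
    cj P Q hPQ (aeval s r) = Matrix.diagonal (fun i => aeval (d i) r) := by
  have h1 : cj P Q hPQ s = Matrix.diagonal d := by
    rw [cj_apply, hs, Matrix.mul_assoc, hPQ, mul_one]
  rw [← Polynomial.aeval_algHom_apply, h1, aeval_diagonal]

theorem vec_aeval {P Q : Matrix V V ℝ} (hPQ : P * Q = 1) {s : Matrix V V ℚ} {d : V → ℝ}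
    (hs : P * rm s = Matrix.diagonal d * P) (r : ℚ[X]) (x : V → ℚ) (i : V) :
    (P *ᵥ rc (Matrix.toLinAlgEquiv' (aeval s r) x)) i = aeval (d i) r * (P *ᵥ rc x) i := by
  have h1 : P * rm (aeval s r) = Matrix.diagonal (fun i => aeval (d i) r) * P := by
    rw [← cj_aeval hPQ hs, cj_apply, Matrix.mul_assoc, mul_eq_one_comm.mp hPQ, mul_one]
  rw [Matrix.toLinAlgEquiv'_apply, ← rm_mulVec, Matrix.mulVec_mulVec, h1,
    ← Matrix.mulVec_mulVec, Matrix.mulVec_diagonal]

omit [Fintype V] [DecidableEq V] in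
theorem rc_eq_zero {u : V → ℚ} (h : rc u = 0) : u = 0 := by
  ext i
  have := congrFun h i
  simpa [rc] using this

theorem part3 {P Q : Matrix V V ℝ} (hPQ : P * Q = 1) {s : Matrix V V ℚ} {d : V → ℝ}
    (hs : P * rm s = Matrix.diagonal d * P) (hint : ∀ i, IsIntegral ℤ (d i)) (N : ℕ) :
    ∃ (a : Matrix V V ℚ) (k : V → ℕ), a * s = s * a ∧ (∀ i j, d i = d j → k i = k j) ∧
      (∀ i (t : Finset V), (∀ j ∈ t, d j = d i) → t.card ≤ k i) ∧
      ∀ i j, ((cj P Q hPQ a) ^ (k i)) j i - (N + d i) * ((cj P Q hPQ a) ^ (k i - 1)) j i +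
        (1 : Matrix V V ℝ) j i = 0 := by
  classical
  have hint' : ∀ i, IsIntegral ℚ (d i) := fun i => (hint i).tower_top
  let pm : V → ℚ[X] := fun i => minpoly ℚ (d i)
  have hirr : ∀ i, Irreducible (pm i) := fun i => minpoly.irreducible (hint' i)
  have hmon : ∀ i, (pm i).Monic := fun i => minpoly.monic (hint' i)
  have hroot : ∀ i, aeval (d i) (pm i) = 0 := fun i => minpoly.aeval _ _
  let T : Finset ℚ[X] := Finset.univ.image pm
  let S : Module.End ℚ (V → ℚ) := Matrix.toLinAlgEquiv' s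
  have hSr : ∀ r : ℚ[X], aeval S r = Matrix.toLinAlgEquiv' (aeval s r) := fun r =>
    Polynomial.aeval_algHom_apply
      (Matrix.toLinAlgEquiv' : Matrix V V ℚ ≃ₐ[ℚ] ((V → ℚ) →ₗ[ℚ] (V → ℚ))).toAlgHom s r
  -- the product annihilates
  have hprod : ∀ r : ℚ[X], (∀ i, aeval (d i) r = 0) → aeval S r = 0 := by
    intro r hr
    rw [hSr]
    apply LinearMap.ext
    intro x
    apply rc_eq_zero
    have h1 : P *ᵥ rc (Matrix.toLinAlgEquiv' (aeval s r) x) = 0 := by
      ext i
      rw [vec_aeval hPQ hs, hr, zero_mul]; rfl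
    have h2 := congrArg (fun z => Q *ᵥ z) h1
    simp only [Matrix.mulVec_zero, Matrix.mulVec_mulVec] at h2
    rwa [mul_eq_one_comm.mp hPQ, Matrix.one_mulVec] at h2
  -- idempotents
  have hex : ∀ i, ∃ ε : ℚ[X], (∀ j, pm j ≠ pm i → pm j ∣ ε) ∧ ∃ u, ε = 1 - u * pm i := by
    intro i
    have hcop : IsCoprime (pm i) (∏ p ∈ T.erase (pm i), p) := by
      apply IsCoprime.prod_right
      intro p hp
      obtain ⟨hne, hpT⟩ := Finset.mem_erase.mp hp
      obtain ⟨j, _, rfl⟩ := Finset.mem_image.mp hpT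
      have h1 : ¬ (pm i ∣ pm j) := by
        intro h
        apply hne
        have h2 : Associated (pm i) (pm j) := (hirr i).associated_of_dvd (hirr j) h
        exact (eq_of_monic_of_associated (hmon i) (hmon j) h2).symm
      exact ((hirr i).coprime_iff_not_dvd.mpr h1)
    obtain ⟨u, v, huv⟩ := hcop
    refine ⟨v * ∏ p ∈ T.erase (pm i), p, ?_, u, ?_⟩
    · intro j hj
      apply Dvd.dvd.mul_left
      apply Finset.dvd_prod_of_mem
      exact Finset.mem_erase.mpr ⟨hj, Finset.mem_image.mpr ⟨j, Finset.mem_univ _, rfl⟩⟩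
    · rw [← huv]; ring
  -- one representative for every polynomial
  have hpiece : ∀ p ∈ T, ∃ (ε : ℚ[X]) (k : ℕ) (b : Module.End ℚ (V → ℚ)) (w : Fin k → V → ℚ),
      (∀ i, pm i = p → aeval (d i) ε = 1) ∧
      (∀ j, pm j ≠ p → pm j ∣ ε) ∧
      aeval S (p * ε) = 0 ∧
      (∀ x, aeval S p x = 0 → ∃ r : Fin k → ℚ[X], x = ∑ i, aeval S (r i) (w i)) ∧
      Commute b S ∧ (∀ x, aeval S p (b x) = 0) ∧
      (∀ x, aeval S p x = 0 → (b ^ k - aeval S (X + C (N : ℚ)) * b ^ (k - 1) + 1) x = 0) ∧
      (∀ x, aeval S ε x = 0 → b x = 0) := by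
    intro p hp
    obtain ⟨i, _, rfl⟩ := Finset.mem_image.mp hp
    obtain ⟨ε, hε1, u, hε2⟩ := hex i
    have hann : aeval S (pm i * ε) = 0 := by
      apply hprod
      intro j
      rw [map_mul]
      by_cases hj : pm j = pm i
      · rw [← hj, hroot, zero_mul]
      · obtain ⟨r, hr⟩ := hε1 j hj
        rw [hr, map_mul, hroot, zero_mul, mul_zero]
    obtain ⟨k, b, w, h1, h2, h3, h4, h5⟩ := companion_piece S (pm i) ε (X + C (N : ℚ)) (hirr i)
      hann ⟨u, hε2⟩
    refine ⟨ε, k, b, w, ?_, hε1, hann, h1, h2, h3, h4, h5⟩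
    intro j hj
    rw [hε2, map_sub, map_one, map_mul, ← hj, hroot, mul_zero, sub_zero]
  choose! ε k b w h1 h2 h2' h3 h4 h5 h6 h7 using hpiece
  have hT : ∀ i, pm i ∈ T := fun i => Finset.mem_image.mpr ⟨i, Finset.mem_univ _, rfl⟩
  let a' : Module.End ℚ (V → ℚ) := ∑ p ∈ T, b p
  have ha'S : Commute a' S := by
    show Commute (∑ p ∈ T, b p) S
    exact Commute.sum_left _ _ _ (fun p hp => h4 p hp)
  have ha'E : ∀ p ∈ T, ∀ x, aeval S p x = 0 → a' x = b p x := by
    intro p hp x hx
    show (∑ p ∈ T, b p) x = b p x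
    rw [LinearMap.sum_apply, Finset.sum_eq_single p]
    · intro p' hp' hne
      obtain ⟨i, _, hi⟩ := Finset.mem_image.mp hp
      apply h7 p' hp'
      have h8 := h2 p' hp' i (by rw [hi]; exact Ne.symm hne)
      obtain ⟨r, hr⟩ := h8
      rw [hr, hi, mul_comm, map_mul, Module.End.mul_apply, hx, map_zero]
    · intro h; exact absurd hp h
  have ha'pow : ∀ p ∈ T, ∀ n : ℕ, ∀ x, aeval S p x = 0 → (a' ^ n) x = (b p ^ n) x := by
    intro p hp n
    induction n with
    | zero => intro x _; rfl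
    | succ n ih =>
      intro x hx
      rw [pow_succ, pow_succ, Module.End.mul_apply, Module.End.mul_apply, ha'E p hp x hx]
      exact ih _ (h5 p hp x)
  let a : Matrix V V ℚ := Matrix.toLinAlgEquiv'.symm a'
  have haa' : Matrix.toLinAlgEquiv' a = a' := AlgEquiv.apply_symm_apply _ _
  refine ⟨a, fun i => k (pm i), ?_, ?_, ?_, ?_⟩
  · apply (Matrix.toLinAlgEquiv' : Matrix V V ℚ ≃ₐ[ℚ] _).injective
    rw [map_mul, map_mul, haa']
    exact ha'S
  · intro i j hij
    show k (minpoly ℚ (d i)) = k (minpoly ℚ (d j))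
    rw [hij]
  · -- class sizes
    intro i t ht
    let p := pm i
    let Θ : (Fin (k p) → ℝ) →ₗ[ℝ] (t → ℝ) :=
      { toFun := fun y j => ∑ l, y l * (P *ᵥ rc (w p l)) j
        map_add' := by
          intro y y'
          ext j
          simp [add_mul, Finset.sum_add_distrib]
        map_smul' := by
          intro r y
          ext j
          simp [Finset.mul_sum, mul_assoc] }
    have hΘ : ∀ y j, Θ y j = ∑ l, y l * (P *ᵥ rc (w p l)) j := fun y j => rfl
    have hrange : ∀ x : V → ℚ, (fun j : t => (P *ᵥ rc x) j) ∈ LinearMap.range Θ := by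
      intro x
      have hx1 : aeval S p (aeval S (ε p) x) = 0 := by
        rw [← Module.End.mul_apply, ← map_mul, h2' p (hT i)]; rfl
      obtain ⟨r, hr⟩ := h3 p (hT i) _ hx1
      refine ⟨fun l => aeval (d i) (r l), ?_⟩
      ext j
      have hdj : d j = d i := ht j j.2
      have e1 : (P *ᵥ rc (aeval S (ε p) x)) j = (P *ᵥ rc x) j := by
        rw [hSr, vec_aeval hPQ hs, hdj, h1 p (hT i) i rfl, one_mul]
      have e2 : (P *ᵥ rc (aeval S (ε p) x)) j =
          ∑ l, (P *ᵥ rc (aeval S (r l) (w p l))) j := by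
        rw [hr]
        have : rc (∑ l, aeval S (r l) (w p l)) = ∑ l, rc (aeval S (r l) (w p l)) := by
          ext m
          simp [rc]
        rw [this, Matrix.mulVec_sum, Finset.sum_apply]
      rw [hΘ, ← e1, e2]
      apply Finset.sum_congr rfl
      intro l _
      rw [hSr, vec_aeval hPQ hs, hdj]
    have hsurj : Function.Surjective Θ := by
      intro v
      rw [← LinearMap.mem_range]
      let v' : V → ℝ := fun j => if h : j ∈ t then v ⟨j, h⟩ else 0
      have e1 : v = fun j : t => (P *ᵥ (∑ m, (Q *ᵥ v') m • rc (Pi.single m 1))) j := by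
        have e2 : (∑ m, (Q *ᵥ v') m • rc (Pi.single m (1 : ℚ)) : V → ℝ) = Q *ᵥ v' := by
          have : ∀ m : V, rc (Pi.single m (1 : ℚ)) = Pi.single m (1 : ℝ) := by
            intro m; ext j
            simp only [rc, Pi.single_apply]
            split_ifs <;> simp
          simp only [this]
          exact vec_sum _
        rw [e2, Matrix.mulVec_mulVec, hPQ, Matrix.one_mulVec]
        ext j
        simp [v']
      rw [e1]
      have e3 : (fun j : t => (P *ᵥ (∑ m, (Q *ᵥ v') m • rc (Pi.single m (1 : ℚ)))) j) =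
          ∑ m, (Q *ᵥ v') m • (fun j : t => (P *ᵥ rc (Pi.single m (1 : ℚ))) j) := by
        ext j
        rw [Matrix.mulVec_sum, Finset.sum_apply, Finset.sum_apply]
        apply Finset.sum_congr rfl
        intro m _
        rw [Matrix.mulVec_smul]; rfl
      rw [e3]
      apply Submodule.sum_mem
      intro m _
      exact Submodule.smul_mem _ _ (hrange _)
    have h8 := LinearMap.finrank_range_le Θ
    rw [LinearMap.range_eq_top.mpr hsurj, finrank_top] at h8
    simpa using h8
  · intro i j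
    let p := pm i
    let R : Matrix V V ℚ := a ^ (k p) - aeval s (X + C (N : ℚ)) * a ^ (k p - 1) + 1
    have hR : R * aeval s (ε p) = 0 := by
      apply (Matrix.toLinAlgEquiv' : Matrix V V ℚ ≃ₐ[ℚ] _).injective
      rw [map_mul, map_zero, map_add, map_sub, map_mul, map_one, map_pow, map_pow, haa',
        ← hSr, ← hSr]
      apply LinearMap.ext
      intro x
      have hx1 : aeval S p (aeval S (ε p) x) = 0 := by
        rw [← Module.End.mul_apply, ← map_mul, h2' p (hT i)]; rfl
      have h8 := h6 p (hT i) _ hx1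
      rw [LinearMap.add_apply, LinearMap.sub_apply, Module.End.mul_apply,
        ← ha'pow p (hT i) _ _ hx1, ← ha'pow p (hT i) _ _ hx1] at h8
      rw [Module.End.mul_apply, LinearMap.add_apply, LinearMap.sub_apply, Module.End.mul_apply]
      exact h8
    have hR2 := congrArg (cj P Q hPQ) hR
    rw [map_mul, cj_aeval hPQ hs, map_zero, map_add, map_sub, map_mul, map_one, map_pow, map_pow,
      cj_aeval hPQ hs] at hR2
    have hR3 := congrFun (congrFun hR2 j) i
    rw [Matrix.mul_diagonal, h1 p (hT i) i rfl, mul_one, Matrix.add_apply, Matrix.sub_apply,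
      Matrix.diagonal_mul, Matrix.zero_apply] at hR3
    have hcomm : Commute (cj P Q hPQ a) (Matrix.diagonal d) := by
      have e1 : cj P Q hPQ s = Matrix.diagonal d := by
        rw [cj_apply, hs, Matrix.mul_assoc, hPQ, mul_one]
      rw [← e1]
      have e2 : a * s = s * a := by
        apply (Matrix.toLinAlgEquiv' : Matrix V V ℚ ≃ₐ[ℚ] _).injective
        rw [map_mul, map_mul, haa']
        exact ha'S
      rw [commute_iff_eq, ← map_mul, ← map_mul, e2]
    have hcomm' := (hcomm.pow_left (k p - 1)).eq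
    have hent := congrFun (congrFun hcomm' j) i
    rw [Matrix.mul_diagonal, Matrix.diagonal_mul] at hent
    -- hent : A^(k-1) j i * d i = d j * A^(k-1) j i
    have e4 : aeval (d j) (X + C (N : ℚ)) * ((cj P Q hPQ a) ^ (k p - 1)) j i =
        (N + d i) * ((cj P Q hPQ a) ^ (k p - 1)) j i := by
      rw [map_add, aeval_X, aeval_C, add_mul, ← hent]
      simp
      ring
    rw [e4] at hR3
    exact hR3

end combine

end Pool.Agent.W672
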