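import Mathlib
import Pool.Agent.W672.GraphLie

/-!
Part 1: if the rational graph Lie algebra has a hyperbolic unimodular automorphism, then every
class of vertices has at least two elements, and at least three if it contains an edge.
-/

set_option autoImplicit false

namespace Pool.Agent.W672

open Matrix Polynomial

section integrality

theorem isIntegral_aeval' {z : ℂ} (h : IsIntegral ℤ z) (p : ℤ[X]) :
    IsIntegral ℤ (aeval z p) := by
  have h1 : (aeval z p) = ((aeval (⟨z, h⟩ : integralClosure ℤ ℂ) p : integralClosure ℤ ℂ) : ℂ) :=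
    (Subalgebra.aeval_coe (integralClosure ℤ ℂ) ⟨z, h⟩ p)
  rw [h1]
  exact (aeval (⟨z, h⟩ : integralClosure ℤ ℂ) p).2

theorem unit_of_root {p : ℤ[X]} (hm : p.Monic) (h0 : p.coeff 0 = 1 ∨ p.coeff 0 = -1) {z : ℂ}
    (hz : aeval z p = 0) : IsIntegral ℤ z ∧ IsIntegral ℤ z⁻¹ ∧ z ≠ 0 := by
  have h1 : IsIntegral ℤ z := ⟨p, hm, by rwa [aeval_def] at hz⟩
  have h2 : IsIntegral ℤ (aeval z p.divX) := isIntegral_aeval' h1 _
  have h3 : aeval z p.divX * z = - (p.coeff 0 : ℂ) := by
    have := congrArg (aeval z) (divX_mul_X_add p)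
    rw [map_add, map_mul, aeval_X, aeval_C, hz] at this
    rw [eq_neg_iff_add_eq_zero]
    simpa using this
  have h4 : ((p.coeff 0 : ℤ) : ℂ) ^ 2 = 1 := by
    rcases h0 with h | h <;> rw [h] <;> norm_num
  have hz0 : z ≠ 0 := by
    rintro rfl
    rw [mul_zero] at h3
    have : ((p.coeff 0 : ℤ) : ℂ) = 0 := by
      have := h3.symm
      rwa [neg_eq_zero] at this
    rw [this] at h4
    norm_num at h4
  have h5 : z⁻¹ = - ((p.coeff 0 : ℤ) : ℂ) * aeval z p.divX := by
    have : z * (- ((p.coeff 0 : ℤ) : ℂ) * aeval z p.divX) = 1 := by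
      calc z * (- ((p.coeff 0 : ℤ) : ℂ) * aeval z p.divX)
          = - ((p.coeff 0 : ℤ) : ℂ) * (aeval z p.divX * z) := by ring
        _ = ((p.coeff 0 : ℤ) : ℂ) ^ 2 := by rw [h3]; ring
        _ = 1 := h4
    exact (eq_inv_of_mul_eq_one_right this).symm
  refine ⟨h1, ?_, hz0⟩
  rw [h5]
  apply IsIntegral.mul _ h2
  apply IsIntegral.neg
  exact isIntegral_algebraMap (R := ℤ) (A := ℂ) (x := p.coeff 0)

theorem rat_unit {a : ℚ} (ha : a ≠ 0) (h1 : IsIntegral ℤ (a : ℂ)) (h2 : IsIntegral ℤ ((a : ℂ)⁻¹)) :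
    a = 1 ∨ a = -1 := by
  have e1 : IsIntegral ℤ a := by
    have : IsIntegral ℤ (algebraMap ℚ ℂ a) := by simpa using h1
    exact (isIntegral_algebraMap_iff (algebraMap ℚ ℂ).injective).mp this
  have e2 : IsIntegral ℤ a⁻¹ := by
    have : IsIntegral ℤ (algebraMap ℚ ℂ a⁻¹) := by simpa using h2
    exact (isIntegral_algebraMap_iff (algebraMap ℚ ℂ).injective).mp this
  obtain ⟨x, hx⟩ := IsIntegrallyClosed.isIntegral_iff.mp e1
  obtain ⟨y, hy⟩ := IsIntegrallyClosed.isIntegral_iff.mp e2
  have hxy : x * y = 1 := by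
    have : (algebraMap ℤ ℚ) (x * y) = algebraMap ℤ ℚ 1 := by
      rw [map_mul, hx, hy, mul_inv_cancel₀ ha, map_one]
    exact (algebraMap ℤ ℚ).injective_int this
  rcases Int.eq_one_or_neg_one_of_mul_eq_one hxy with h | h
  · left; rw [← hx, h]; simp
  · right; rw [← hx, h]; simp

/-- a hyperbolic unimodular endomorphism has no power with a rational eigenvalue -/
theorem no_rat_eigen {L : Type*} [AddCommGroup L] [Module ℚ L] [FiniteDimensional ℚ L]
    (f : L →ₗ[ℚ] L) (p : ℤ[X]) (hp : p.map (Int.castRingHom ℚ) = f.charpoly)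
    (h0 : p.coeff 0 = 1 ∨ p.coeff 0 = -1)
    (hr : ∀ z : ℂ, (p.map (Int.castRingHom ℂ)).IsRoot z → ‖z‖ ≠ 1)
    (m : ℕ) (hm : m ≠ 0) (a : ℚ) (x : L) (hx : (f ^ m) x = a • x) : x = 0 := by
  by_contra hx0
  have hmonic : p.Monic := by
    apply Polynomial.monic_of_injective (RingHom.injective_int (Int.castRingHom ℚ))
    rw [hp]; exact f.charpoly_monic
  have hnc : ¬ IsCoprime f.charpoly (X ^ m - C a : ℚ[X]) := by
    rintro ⟨u, v, huv⟩
    have h1 := congrArg (fun q => aeval f q x) huv
    simp only [map_add, map_mul, map_one, LinearMap.aeval_self_charpoly, mul_zero, zero_add,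
      Module.End.mul_apply, Module.End.one_apply, map_sub, map_pow, aeval_X, aeval_C,
      LinearMap.sub_apply, Module.algebraMap_end_apply, hx, sub_self, map_zero] at h1
    exact hx0 h1.symm
  rw [Polynomial.isCoprime_iff_aeval_ne_zero_of_isAlgClosed ℚ ℂ] at hnc
  push Not at hnc
  obtain ⟨z, hz1, hz2⟩ := hnc
  have hz1' : aeval z p = 0 := by
    rw [← hp] at hz1
    rw [aeval_def, eval₂_map] at hz1
    have he : algebraMap ℤ ℂ = (algebraMap ℚ ℂ).comp (Int.castRingHom ℚ) := RingHom.ext_int _ _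
    rw [aeval_def, he]
    exact hz1
  obtain ⟨i1, i2, i3⟩ := unit_of_root hmonic h0 hz1'
  have hroot : (p.map (Int.castRingHom ℂ)).IsRoot z := by
    rw [IsRoot, eval_map]
    rw [aeval_def] at hz1'
    exact hz1'
  have hza : z ^ m = (a : ℂ) := by
    rw [map_sub, map_pow, aeval_X, aeval_C] at hz2
    exact sub_eq_zero.mp hz2
  have ha0 : a ≠ 0 := by
    rintro rfl
    rw [Rat.cast_zero] at hza
    exact i3 (pow_eq_zero_iff hm |>.mp hza)
  have ha : a = 1 ∨ a = -1 := by
    apply rat_unit ha0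
    · rw [← hza]; exact i1.pow m
    · rw [← hza, ← inv_pow]; exact i2.pow m
  have hn : ‖z‖ ^ m = 1 := by
    rw [← norm_pow, hza]
    rcases ha with h | h <;> rw [h] <;> simp
  exact hr z hroot ((pow_eq_one_iff_of_nonneg (norm_nonneg z) hm).mp hn)

end integrality

section blocks

variable {V : Type*} [Fintype V] [DecidableEq V] {G : SimpleGraph V}

theorem conj_cen {A B : Matrix V V ℚ} (hAB : A * B = 1)
    (h1 : ∀ Y ∈ incAlg G ℚ, A * Y * B ∈ incAlg G ℚ)
    (h2 : ∀ Y ∈ incAlg G ℚ, B * Y * A ∈ incAlg G ℚ) {Z : Matrix V V ℚ}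
    (hZ : Z ∈ cenAlg G ℚ) : B * Z * A ∈ cenAlg G ℚ := by
  have hBA : B * A = 1 := mul_eq_one_comm.mp hAB
  rw [cen_iff_trace (h2 Z (cenAlg_le hZ))]
  intro Y hY Y' hY'
  have h := (cen_iff_trace (cenAlg_le hZ)).mp hZ _ (h1 Y hY) _ (h1 Y' hY')
  have e : Z * (A * Y * B * (A * Y' * B) - A * Y' * B * (A * Y * B)) =
      Z * A * (Y * Y' - Y' * Y) * B := by
    have e1 : A * Y * B * (A * Y' * B) = A * (Y * Y') * B := by
      calc A * Y * B * (A * Y' * B) = A * Y * (B * A) * Y' * B := by noncomm_ring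
        _ = A * (Y * Y') * B := by rw [hBA]; noncomm_ring
    have e2 : A * Y' * B * (A * Y * B) = A * (Y' * Y) * B := by
      calc A * Y' * B * (A * Y * B) = A * Y' * (B * A) * Y * B := by noncomm_ring
        _ = A * (Y' * Y) * B := by rw [hBA]; noncomm_ring
    rw [e1, e2]; noncomm_ring
  rw [e, Matrix.trace_mul_comm] at h
  rw [← h]
  congr 1
  noncomm_ring

theorem pow_conj {A B : Matrix V V ℚ} 
    (h1 : ∀ Y ∈ incAlg G ℚ, A * Y * B ∈ incAlg G ℚ) (i : ℕ) :
    ∀ Y ∈ incAlg G ℚ, A ^ i * Y * B ^ i ∈ incAlg G ℚ := by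
  induction i with
  | zero => intro Y hY; simpa using hY
  | succ i ih =>
    intro Y hY
    have := h1 _ (ih Y hY)
    rw [pow_succ' A, pow_succ B]
    have e : A * A ^ i * Y * (B ^ i * B) = A * (A ^ i * Y * B ^ i) * B := by noncomm_ring
    rw [e]; exact this

theorem nilp_conj {A B N : Matrix V V ℚ} (hBA : B * A = 1) (hN : IsNilpotent N) :
    IsNilpotent (A * N * B) := by
  obtain ⟨r, hr⟩ := hN
  refine ⟨r + 1, ?_⟩
  have key : ∀ r : ℕ, (A * N * B) ^ (r + 1) = A * N ^ (r + 1) * B := by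
    intro r
    induction r with
    | zero => simp
    | succ r ih =>
      rw [pow_succ, ih]
      calc A * N ^ (r + 1) * B * (A * N * B) = A * N ^ (r + 1) * (B * A) * N * B := by
            noncomm_ring
        _ = A * N ^ (r + 1 + 1) * B := by rw [hBA, pow_succ N (r + 1)]; noncomm_ring
  rw [key, pow_succ, hr]
  simp

/-- some power of an automorphism is block triangular for the classes -/
theorem exists_block {A B : Matrix V V ℚ} (hAB : A * B = 1)
    (h1 : ∀ Y ∈ incAlg G ℚ, A * Y * B ∈ incAlg G ℚ)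
    (h2 : ∀ Y ∈ incAlg G ℚ, B * Y * A ∈ incAlg G ℚ) :
    ∃ m : ℕ, m ≠ 0 ∧ ∀ i j, (A ^ m) i j ≠ 0 → Eqv G i j ∨ rk G i < rk G j := by
  classical
  have hBA : B * A = 1 := mul_eq_one_comm.mp hAB
  have hABi : ∀ i : ℕ, A ^ i * B ^ i = 1 := by
    intro i
    have hc : Commute A B := by rw [commute_iff_eq, hAB, hBA]
    rw [← hc.mul_pow, hAB, one_pow]
  have hBAi : ∀ i : ℕ, B ^ i * A ^ i = 1 := fun i => mul_eq_one_comm.mp (hABi i)
  let ind : V → Matrix V V ℚ := fun b =>
    Matrix.diagonal (fun i => if Eqv G b i then (1 : ℚ) else 0)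
  have hind : ∀ b, ind b ∈ cenAlg G ℚ := fun b => ind_mem_cen b
  have hidem : ∀ b, ind b * ind b = ind b := by
    intro b
    show Matrix.diagonal _ * Matrix.diagonal _ = Matrix.diagonal _
    rw [Matrix.diagonal_mul_diagonal]
    congr 1
    ext i
    split_ifs <;> simp
  have hcen : ∀ (i : ℕ) b, B ^ i * ind b * A ^ i ∈ cenAlg G ℚ := fun i b =>
    conj_cen (hABi i) (pow_conj h1 i) (pow_conj h2 i) (hind b)
  have h01 : ∀ (i : ℕ) b a, (B ^ i * ind b * A ^ i) a a = 0 ∨ (B ^ i * ind b * A ^ i) a a = 1 := by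
    intro i b a
    have e : (⟨_, hcen i b⟩ : cenAlg G ℚ) * ⟨_, hcen i b⟩ = ⟨_, hcen i b⟩ := by
      apply Subtype.ext
      show B ^ i * ind b * A ^ i * (B ^ i * ind b * A ^ i) = B ^ i * ind b * A ^ i
      calc B ^ i * ind b * A ^ i * (B ^ i * ind b * A ^ i)
          = B ^ i * ind b * (A ^ i * B ^ i) * ind b * A ^ i := by noncomm_ring
        _ = B ^ i * (ind b * ind b) * A ^ i := by rw [hABi]; noncomm_ring
        _ = _ := by rw [hidem]
    have e' := congrArg (chr G ℚ a) e
    rw [map_mul] at e'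
    simp only [chr_apply] at e'
    have : (B ^ i * ind b * A ^ i) a a * ((B ^ i * ind b * A ^ i) a a - 1) = 0 := by
      rw [mul_sub, e', mul_one, sub_self]
    rcases mul_eq_zero.mp this with h | h
    · exact Or.inl h
    · exact Or.inr (sub_eq_zero.mp h)
  obtain ⟨i, j, hij, hF⟩ := Finite.exists_ne_map_eq_of_infinite
    (fun i : ℕ => fun ba : V × V => decide ((B ^ i * ind ba.1 * A ^ i) ba.2 ba.2 = 0))
  wlog hlt : i < j generalizing i j
  · exact this j i (Ne.symm hij) hF.symm (lt_of_le_of_ne (not_lt.mp hlt) (Ne.symm hij))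
  have heq : ∀ b a, (B ^ i * ind b * A ^ i) a a = (B ^ j * ind b * A ^ j) a a := by
    intro b a
    have := congrFun hF (b, a)
    simp only [decide_eq_decide] at this
    rcases h01 i b a with h | h
    · rw [h, this.mp h]
    · rcases h01 j b a with h' | h'
      · exact absurd (this.mpr h') (by rw [h]; exact one_ne_zero)
      · rw [h, h']
  obtain ⟨m, rfl⟩ := Nat.exists_eq_add_of_lt hlt
  set M := m + 1 with hM
  refine ⟨M, by omega, ?_⟩
  -- D b = H' 1_b H - 1_b is in cen, nilpotent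
  let D : V → Matrix V V ℚ := fun b => B ^ M * ind b * A ^ M - ind b
  have hDcen : ∀ b, D b ∈ cenAlg G ℚ := fun b => (cenAlg G ℚ).sub_mem (hcen M b) (hind b)
  have hDconj : ∀ b, B ^ i * D b * A ^ i =
      B ^ (i + m + 1) * ind b * A ^ (i + m + 1) - B ^ i * ind b * A ^ i := by
    intro b
    show B ^ i * (B ^ M * ind b * A ^ M - ind b) * A ^ i = _
    have e1 : B ^ (i + m + 1) = B ^ i * B ^ M := by rw [← pow_add, add_assoc]
    have e2 : A ^ (i + m + 1) = A ^ M * A ^ i := by rw [← pow_add]; congr 1; omega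
    rw [e1, e2]; noncomm_ring
  have hDnil : ∀ b, IsNilpotent (D b) := by
    intro b
    have hc : B ^ i * D b * A ^ i ∈ cenAlg G ℚ := by
      rw [hDconj]; exact (cenAlg G ℚ).sub_mem (hcen _ b) (hcen i b)
    have h0 : ∀ a, (B ^ i * D b * A ^ i) a a = 0 := by
      intro a
      rw [hDconj, Matrix.sub_apply, heq b a, sub_self]
    have := nilp_conj (hBAi i) (nilp_of_cen hc h0)
    have e : A ^ i * (B ^ i * D b * A ^ i) * B ^ i = D b := by
      calc A ^ i * (B ^ i * D b * A ^ i) * B ^ i
          = (A ^ i * B ^ i) * D b * (A ^ i * B ^ i) := by noncomm_ring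
        _ = D b := by rw [hABi]; simp
    rwa [e] at this
  have hDdiag : ∀ b a, D b a a = 0 := fun b a => cen_of_nilp (hDcen b) (hDnil b) a
  have hDstrict := fun b => strict_of_cen (hDcen b) (hDdiag b)
  have hrel : ∀ b, ind b * A ^ M = A ^ M * ind b + A ^ M * D b := by
    intro b
    show _ = A ^ M * ind b + A ^ M * (B ^ M * ind b * A ^ M - ind b)
    have : A ^ M * (B ^ M * ind b * A ^ M - ind b) =
        (A ^ M * B ^ M) * ind b * A ^ M - A ^ M * ind b := by noncomm_ring
    rw [this, hABi]; noncomm_ring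
  have claim : ∀ r : ℕ, ∀ c a, rk G c ≤ r → ¬ Eqv G a c → rk G c ≤ rk G a →
      (A ^ M) a c = 0 := by
    intro r
    induction r with
    | zero =>
      intro c a hr hne hle
      have : rk G c ≠ 0 := by
        unfold rk
        rw [Finset.card_ne_zero]
        exact ⟨c, by simpa using Le.refl c⟩
      omega
    | succ r ih =>
      intro c a hr hne hle
      have h3 := congrFun (congrFun (hrel a) a) c
      rw [Matrix.diagonal_mul, Matrix.add_apply, Matrix.mul_diagonal, if_pos (Eqv.refl a),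
        if_neg hne, mul_zero, zero_add, one_mul, Matrix.mul_apply] at h3
      rw [h3]
      apply Finset.sum_eq_zero
      intro d _
      by_contra hc
      have hlt' := hDstrict a d c (right_ne_zero_of_mul hc)
      apply left_ne_zero_of_mul hc
      apply ih d a (by omega) _ (by omega)
      intro hE
      have := rk_eq hE
      omega
  intro a c hac
  by_contra hc
  push Not at hc
  exact hac (claim _ c a le_rfl hc.1 hc.2)

end blocks

section eigen

theorem exists_eigen {L : Type*} [AddCommGroup L] [Module ℚ L] [FiniteDimensional ℚ L]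
    (F : L →ₗ[ℚ] L) (S : Submodule ℚ L) (hS : ∀ x ∈ S, F x ∈ S) (l : L →ₗ[ℚ] ℚ) (h : ℚ)
    (hl : ∀ x ∈ S, l (F x) = h * l x) (x₀ : L) (hx₀ : x₀ ∈ S) (hlx : l x₀ ≠ 0) :
    ∃ x, x ≠ 0 ∧ F x = h • x := by
  let F' : S →ₗ[ℚ] S := (F - h • LinearMap.id).restrict (p := S) (q := S) (by
    intro x hx
    exact S.sub_mem (hS x hx) (S.smul_mem h hx))
  have h1 : ¬ Function.Surjective F' := by
    intro hs
    obtain ⟨⟨y, hy⟩, hyx⟩ := hs ⟨x₀, hx₀⟩
    have : F y - h • y = x₀ := congrArg Subtype.val hyx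
    apply hlx
    rw [← this, map_sub, map_smul, hl y hy, smul_eq_mul, sub_self]
  rw [← LinearMap.injective_iff_surjective] at h1
  rw [← LinearMap.ker_eq_bot, ← ne_eq, Submodule.ne_bot_iff] at h1
  obtain ⟨⟨y, hy⟩, hyk, hy0⟩ := h1
  refine ⟨y, fun h => hy0 (Subtype.ext h), ?_⟩
  have : F y - h • y = 0 := congrArg Subtype.val hyk
  exact sub_eq_zero.mp this

end eigen

section main

variable {V : Type*} [Fintype V] [DecidableEq V] {G : SimpleGraph V}

theorem act_formula {A : Matrix V V ℚ} {Λ : Matrix V V ℚ →ₗ[ℚ] Matrix V V ℚ}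
    (hΛ : ∀ u v, om G (A *ᵥ u) (A *ᵥ v) = Λ (om G u v)) {F : Matrix V V ℚ}
    (hF : F ∈ wsp G ℚ) {i j : V} (h : G.Adj i j) : Λ F i j = (A * F * Aᵀ) i j := by
  have e1 : Λ F i j = (2⁻¹ : ℚ) * ∑ p, ∑ q, F p q * (A i p * A j q - A j p * A i q) := by
    conv_lhs => rw [wsp_exp hF]
    rw [map_smul, map_sum, Matrix.smul_apply, Matrix.sum_apply, smul_eq_mul]
    congr 1
    apply Finset.sum_congr rfl; intro p _
    rw [map_sum, Matrix.sum_apply]
    apply Finset.sum_congr rfl; intro q _
    rw [map_smul, ← hΛ, Matrix.smul_apply, om_adj h, smul_eq_mul]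
    simp only [mulVec_single_one']
  have e2 : ∑ p, ∑ q, F p q * (A i p * A j q - A j p * A i q) =
      (A * F * Aᵀ) i j - (A * F * Aᵀ) j i := by
    rw [conj_apply, conj_apply, ← Finset.sum_sub_distrib]
    apply Finset.sum_congr rfl; intro p _
    rw [← Finset.sum_sub_distrib]
    apply Finset.sum_congr rfl; intro q _
    ring
  have e3 : (A * F * Aᵀ) j i = - (A * F * Aᵀ) i j := by
    rw [conj_apply, conj_apply, Finset.sum_comm, ← Finset.sum_neg_distrib]
    apply Finset.sum_congr rfl; intro p _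
    rw [← Finset.sum_neg_distrib]
    apply Finset.sum_congr rfl; intro q _
    rw [hF.1 q p]; ring
  rw [e1, e2, e3]; ring

theorem part1 {L : Type*} [LieRing L] [LieAlgebra ℚ L] [FiniteDimensional ℚ L]
    (g : GDat G ℚ L) (f : L ≃ₗ⁅ℚ⁆ L) (p : ℤ[X])
    (hp : p.map (Int.castRingHom ℚ) = LinearMap.charpoly f.toLinearEquiv.toLinearMap)
    (h0 : p.coeff 0 = 1 ∨ p.coeff 0 = -1)
    (hr : ∀ z : ℂ, (p.map (Int.castRingHom ℂ)).IsRoot z → ‖z‖ ≠ 1) :
    (∀ i, ∃ j, j ≠ i ∧ Eqv G i j) ∧
    (∀ i j, G.Adj i j → Eqv G i j → ∃ l, l ≠ i ∧ l ≠ j ∧ Eqv G i l) := by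
  set f₁ : L →ₗ[ℚ] L := f.toLinearEquiv.toLinearMap with hf₁
  set f₂ : L →ₗ[ℚ] L := f.symm.toLinearEquiv.toLinearMap with hf₂
  have hf1 : ∀ x y, f₁ ⁅x, y⁆ = ⁅f₁ x, f₁ y⁆ := fun x y => LieEquiv.map_lie f x y
  have hf2 : ∀ x y, f₂ ⁅x, y⁆ = ⁅f₂ x, f₂ y⁆ := fun x y => LieEquiv.map_lie f.symm x y
  have h12 : ∀ x, f₁ (f₂ x) = x := fun x => LieEquiv.apply_symm_apply f x
  have h21 : ∀ x, f₂ (f₁ x) = x := fun x => LieEquiv.symm_apply_apply f x
  obtain ⟨A, hA⟩ := g.exists_matrix f₁ hf1
  obtain ⟨B, hB⟩ := g.exists_matrix f₂ hf2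
  have hAB : A * B = 1 := by
    apply g.matrix_unique
    intro x
    rw [← Matrix.mulVec_mulVec, ← hB, ← hA, h12, Matrix.one_mulVec]
  obtain ⟨m, hm, hblock⟩ := exists_block hAB
    (fun Y hY => g.conj_inc f₁ f₂ hf1 hf2 h12 hA hB hY)
    (fun Y hY => g.conj_inc f₂ f₁ hf2 hf1 h21 hB hA hY)
  have hpow : ∀ (i : ℕ) x y, (f₁ ^ i) ⁅x, y⁆ = ⁅(f₁ ^ i) x, (f₁ ^ i) y⁆ := by
    intro i
    induction i with
    | zero => intro x y; rfl
    | succ i ih =>
      intro x y
      rw [pow_succ', Module.End.mul_apply, Module.End.mul_apply, Module.End.mul_apply, ih, hf1]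
  have hφ : ∀ (i : ℕ) x, g.φ ((f₁ ^ i) x) = (A ^ i) *ᵥ g.φ x := by
    intro i
    induction i with
    | zero => intro x; simp
    | succ i ih =>
      intro x
      rw [pow_succ', Module.End.mul_apply, hA, ih, Matrix.mulVec_mulVec, ← pow_succ']
  set F := f₁ ^ m with hFdef
  set H := A ^ m with hHdef
  obtain ⟨Λ, hΛ⟩ := exists_act (G := G) (A := H)
    (fun p q hpq => g.matrix_rel F (hpow m) (hφ m) p q hpq)
  have hκ : ∀ x, g.φ x = 0 → g.κ (F x) = Λ (g.κ x) := by
    intro x hx
    have h1 := g.ker_span hx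
    have h2 : Submodule.span ℚ {z | ∃ a b : L, z = ⁅a, b⁆} ≤
        LinearMap.eqLocus (g.κ ∘ₗ F) (Λ ∘ₗ g.κ) := by
      rw [Submodule.span_le]
      rintro _ ⟨a, c, rfl⟩
      show g.κ (F ⁅a, c⁆) = Λ (g.κ ⁅a, c⁆)
      rw [hpow, g.κ_br, g.κ_br, hφ, hφ, hΛ]
    exact h2 h1
  constructor
  · intro i
    by_contra hcon
    push Not at hcon
    -- singleton class
    let S : Submodule ℚ L :=
      { carrier := {x | ∀ c, rk G i < rk G c → g.φ x c = 0}
        add_mem' := by
          intro x y hx hy c hc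
          rw [map_add, Pi.add_apply, hx c hc, hy c hc, add_zero]
        zero_mem' := by intro c _; rw [map_zero]; rfl
        smul_mem' := by
          intro r x hx c hc
          rw [map_smul, Pi.smul_apply, hx c hc, smul_zero] }
    have hS : ∀ x ∈ S, F x ∈ S := by
      intro x hx c hc
      rw [hφ, Matrix.mulVec, dotProduct]
      apply Finset.sum_eq_zero
      intro d _
      by_contra hne
      have h1 : rk G d ≤ rk G i := by
        by_contra h; exact right_ne_zero_of_mul hne (hx d (not_le.mp h))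
      rcases hblock c d (left_ne_zero_of_mul hne) with h | h
      · have := rk_eq h; omega
      · omega
    obtain ⟨x₀, hx₀, -⟩ := g.surj (Pi.single i 1) 0 (Submodule.zero_mem _)
    obtain ⟨x, hx0, hx⟩ := exists_eigen F S hS (LinearMap.proj i ∘ₗ g.φ) (H i i) (by
      intro x hx
      show g.φ (F x) i = H i i * g.φ x i
      rw [hφ, Matrix.mulVec, dotProduct]
      rw [Finset.sum_eq_single i]
      · intro d _ hd
        by_contra hne
        have h1 : rk G d ≤ rk G i := by
          by_contra h; exact right_ne_zero_of_mul hne (hx d (not_le.mp h))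
        rcases hblock i d (left_ne_zero_of_mul hne) with h | h
        · exact hcon d hd h
        · omega
      · simp) x₀ (by
        intro c hc
        rw [hx₀, Pi.single_apply, if_neg]
        rintro rfl
        omega) (by
        show g.φ x₀ i ≠ 0
        rw [hx₀]; simp)
    exact hx0 (no_rat_eigen f₁ p hp h0 hr m hm (H i i) x hx)
  · intro i j hij hE
    by_contra hcon
    push Not at hcon
    have hrk : rk G i = rk G j := rk_eq hE
    let S : Submodule ℚ L :=
      { carrier := {x | g.φ x = 0 ∧ ∀ c d, (rk G i < rk G c ∨ rk G i < rk G d) → g.κ x c d = 0}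
        add_mem' := by
          intro x y hx hy
          refine ⟨by rw [map_add, hx.1, hy.1, add_zero], fun c d hc => ?_⟩
          rw [map_add, Matrix.add_apply, hx.2 c d hc, hy.2 c d hc, add_zero]
        zero_mem' := ⟨map_zero _, by intro c d _; rw [map_zero]; rfl⟩
        smul_mem' := by
          intro r x hx
          refine ⟨by rw [map_smul, hx.1, smul_zero], fun c d hc => ?_⟩
          rw [map_smul, Matrix.smul_apply, hx.2 c d hc, smul_zero] }
    have hent : ∀ x ∈ S, ∀ c d, G.Adj c d → g.κ (F x) c d =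
        ∑ a, ∑ b, H c a * g.κ x a b * H d b := by
      intro x hx c d hcd
      rw [hκ x hx.1, act_formula hΛ (g.κ_mem x) hcd, conj_apply]
    have hle : ∀ x ∈ S, ∀ a b, g.κ x a b ≠ 0 → rk G a ≤ rk G i ∧ rk G b ≤ rk G i := by
      intro x hx a b hne
      constructor
      · by_contra h; exact hne (hx.2 a b (Or.inl (not_le.mp h)))
      · by_contra h; exact hne (hx.2 a b (Or.inr (not_le.mp h)))
    have hS : ∀ x ∈ S, F x ∈ S := by
      intro x hx
      refine ⟨by rw [hφ, hx.1, Matrix.mulVec_zero], fun c d hcd => ?_⟩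
      by_cases hadj : G.Adj c d
      · rw [hent x hx c d hadj]
        apply Finset.sum_eq_zero; intro a _
        apply Finset.sum_eq_zero; intro b _
        by_contra hne
        have h1 := hle x hx a b (right_ne_zero_of_mul (left_ne_zero_of_mul hne))
        have h2 := hblock c a (left_ne_zero_of_mul (left_ne_zero_of_mul hne))
        have h3 := hblock d b (right_ne_zero_of_mul hne)
        have h2' : rk G c ≤ rk G a := by
          rcases h2 with h | h
          · exact (rk_eq h).le
          · exact h.le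
        have h3' : rk G d ≤ rk G b := by
          rcases h3 with h | h
          · exact (rk_eq h).le
          · exact h.le
        omega
      · exact (g.κ_mem _).2 c d hadj
    obtain ⟨x₀, hx₀, hx₀'⟩ := g.surj 0 (om G (Pi.single i 1) (Pi.single j 1)) (om_mem _ _)
    have hne : i ≠ j := hij.ne
    obtain ⟨x, hx0, hx⟩ := exists_eigen F S hS
      (LinearMap.proj j ∘ₗ LinearMap.proj i ∘ₗ (g.κ : L →ₗ[ℚ] (V → V → ℚ)))
      (H i i * H j j - H i j * H j i) (by
      intro x hx
      show g.κ (F x) i j = _ * g.κ x i j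
      rw [hent x hx i j hij]
      have hmem : ∀ c, Eqv G i c → c ∈ ({i, j} : Finset V) := by
        intro c hc
        rw [Finset.mem_insert, Finset.mem_singleton]
        by_contra h
        push Not at h
        exact hcon c h.1 h.2 hc
      have r1 : ∑ a, ∑ b, H i a * g.κ x a b * H j b =
          ∑ a ∈ ({i, j} : Finset V), ∑ b ∈ ({i, j} : Finset V), H i a * g.κ x a b * H j b := by
        symm
        apply Finset.sum_subset_zero_on_sdiff (Finset.subset_univ _)
        · intro a ha
          rw [Finset.mem_sdiff] at ha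
          apply Finset.sum_eq_zero; intro b _
          by_contra hne'
          have h1 := hle x hx a b (right_ne_zero_of_mul (left_ne_zero_of_mul hne'))
          rcases hblock i a (left_ne_zero_of_mul (left_ne_zero_of_mul hne')) with h | h
          · exact ha.2 (hmem a h)
          · omega
        · intro a _
          symm
          symm
          apply Finset.sum_subset_zero_on_sdiff (Finset.subset_univ _)
          · intro b hb
            rw [Finset.mem_sdiff] at hb
            by_contra hne'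
            have h1 := hle x hx a b (right_ne_zero_of_mul (left_ne_zero_of_mul hne'))
            rcases hblock j b (right_ne_zero_of_mul hne') with h | h
            · exact hb.2 (hmem b (hE.trans h))
            · omega
          · intro b _; rfl
      rw [r1, Finset.sum_pair hne, Finset.sum_pair hne, Finset.sum_pair hne]
      rw [(g.κ_mem x).2 i i (G.loopless.irrefl i), (g.κ_mem x).2 j j (G.loopless.irrefl j),
        (g.κ_mem x).1 j i]
      ring) x₀ (by
      refine ⟨hx₀, fun c d hcd => ?_⟩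
      rw [hx₀']
      by_cases hadj : G.Adj c d
      · rw [om_single i j c d hadj]
        have a1 : (if c = i then (1 : ℚ) else 0) * (if d = j then 1 else 0) = 0 := by
          split_ifs with h1 h2
          · subst h1; subst h2; omega
          all_goals simp
        have a2 : (if d = i then (1 : ℚ) else 0) * (if c = j then 1 else 0) = 0 := by
          split_ifs with h1 h2
          · subst h1; subst h2; omega
          all_goals simp
        rw [a1, a2, sub_zero]
      · exact om_nadj hadj _ _) (by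
      show g.κ x₀ i j ≠ 0
      rw [hx₀', om_single i j i j hij]
      simp [hne])
    exact hx0 (no_rat_eigen f₁ p hp h0 hr m hm _ x hx)

end main

end Pool.Agent.W672
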