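import Mathlib
import Pool.Agent.W672.Part1

/-!
Roots of `x^(n+1) - t x^n + 1` and integrality.
-/

set_option autoImplicit false

namespace Pool.Agent.W672

open Polynomial

theorem root_norm {n : ℕ} {t : ℝ} {x : ℂ} (h : x ^ (n + 1) - t * x ^ n + 1 = 0) :
    x ^ n * (t - x) = 1 := by
  have : x ^ n * (t - x) - 1 = -(x ^ (n + 1) - t * x ^ n + 1) := by ring
  rw [h, neg_zero] at this
  exact sub_eq_zero.mp this

theorem norm_sub_ge (t : ℝ) (x : ℂ) : t - ‖x‖ ≤ ‖(t : ℂ) - x‖ := by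
  have h := norm_sub_norm_le (t : ℂ) x
  have h2 : t ≤ ‖(t : ℂ)‖ := by
    rw [Complex.norm_real]; exact le_abs_self t
  linarith

theorem norm_sub_ge' (t : ℝ) (ht : 0 ≤ t) (x : ℂ) : |t - ‖x‖| ≤ ‖(t : ℂ) - x‖ := by
  have h := abs_norm_sub_norm_le (t : ℂ) x
  rwa [Complex.norm_real, Real.norm_of_nonneg ht] at h

theorem norm_sub_le' (t : ℝ) (ht : 0 ≤ t) (x : ℂ) : ‖(t : ℂ) - x‖ ≤ t + ‖x‖ := by
  have h := norm_sub_le (t : ℂ) x
  rwa [Complex.norm_real, Real.norm_of_nonneg ht] at h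

theorem root_ne_one {n : ℕ} {t : ℝ} (ht : 4 ≤ t) {x : ℂ}
    (h : x ^ (n + 1) - t * x ^ n + 1 = 0) : ‖x‖ ≠ 1 := by
  intro hx
  have h1 := congrArg norm (root_norm h)
  rw [norm_mul, norm_pow, hx, one_pow, one_mul, norm_one] at h1
  have h2 := norm_sub_ge t x
  rw [hx, h1] at h2
  linarith

theorem root_large {n : ℕ} (hn : 1 ≤ n) {t : ℝ} (ht : 4 ≤ t) {x : ℂ}
    (h : x ^ (n + 1) - t * x ^ n + 1 = 0) (hx : 1 < ‖x‖) :
    t - 1 < ‖x‖ ∧ ‖(t : ℂ) - x‖ * (t - 1) < 1 := by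
  have h1 := congrArg norm (root_norm h)
  rw [norm_mul, norm_pow, norm_one] at h1
  have h2 : ‖x‖ ≤ ‖x‖ ^ n := le_self_pow₀ hx.le (by omega)
  have hpos : 0 < ‖(t : ℂ) - x‖ := by
    by_contra hc
    have : ‖(t : ℂ) - x‖ = 0 := le_antisymm (not_lt.mp hc) (norm_nonneg _)
    rw [this, mul_zero] at h1
    exact zero_ne_one h1
  have h3 : ‖x‖ * ‖(t : ℂ) - x‖ ≤ 1 := by
    rw [← h1]; exact mul_le_mul_of_nonneg_right h2 hpos.le
  have h4 : ‖(t : ℂ) - x‖ < 1 := by nlinarith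
  have h5 := norm_sub_ge t x
  refine ⟨by linarith, ?_⟩
  nlinarith

theorem prod_aux {n m : ℕ} (hn : 1 ≤ n) (hm : 1 ≤ m) {t t' : ℝ} (ht : 4 ≤ t) (ht' : 4 ≤ t')
    (h1 : t' + 1 ≤ (t - 1) ^ 2)
    (h3 : 2 ≤ m ∨ 2 ≤ |t - t'| * (t - 1))
    {x y : ℂ} (hx : x ^ (n + 1) - t * x ^ n + 1 = 0) (hy : y ^ (m + 1) - t' * y ^ m + 1 = 0)
    (hx1 : 1 < ‖x‖) (hy1 : ‖y‖ < 1) : ‖x‖ * ‖y‖ ≠ 1 := by
  intro hxy
  obtain ⟨hx2, hx3⟩ := root_large hn ht hx hx1
  have hyn := congrArg norm (root_norm hy)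
  rw [norm_mul, norm_pow, norm_one] at hyn
  have hxpos : 0 < ‖x‖ := by linarith
  have h5 : ‖x‖ ^ m = ‖(t' : ℂ) - y‖ := by
    have : ‖x‖ ^ m * (‖y‖ ^ m * ‖(t' : ℂ) - y‖) = ‖(t' : ℂ) - y‖ := by
      rw [← mul_assoc, ← mul_pow, hxy, one_pow, one_mul]
    rw [hyn, mul_one] at this
    exact this
  have h6 := norm_sub_le' t' (by linarith) y
  by_cases hm2 : 2 ≤ m
  · have h7 : ‖x‖ ^ 2 ≤ ‖x‖ ^ m := pow_le_pow_right₀ hx1.le hm2
    nlinarith
  · have hm1 : m = 1 := by omega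
    subst hm1
    have h8 : 2 ≤ |t - t'| * (t - 1) := by
      rcases h3 with h | h
      · omega
      · exact h
    rw [pow_one] at h5 hyn
    -- y' = t' - y
    have h9 : |t' - ‖x‖| ≤ ‖y‖ := by
      have := norm_sub_ge' t' (by linarith) ((t' : ℂ) - y)
      rw [sub_sub_cancel, ← h5] at this
      exact this
    have h10 : |t - ‖x‖| ≤ ‖(t : ℂ) - x‖ := norm_sub_ge' t (by linarith) x
    have h11 : ‖y‖ * (t - 1) < 1 := by
      have : ‖y‖ * (t - 1) ≤ ‖y‖ * ‖x‖ := mul_le_mul_of_nonneg_left hx2.le (norm_nonneg _)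
      have hy0 : 0 < ‖y‖ := by
        by_contra hc
        have : ‖y‖ = 0 := le_antisymm (not_lt.mp hc) (norm_nonneg _)
        rw [this, mul_zero] at hxy
        exact zero_ne_one hxy
      nlinarith
    have h12 : |t - t'| ≤ ‖(t : ℂ) - x‖ + ‖y‖ := by
      have : t - t' = (t - ‖x‖) - (t' - ‖x‖) := by ring
      rw [this]
      exact (abs_sub _ _).trans (add_le_add h10 h9)
    have h13 : |t - t'| * (t - 1) ≤ (‖(t : ℂ) - x‖ + ‖y‖) * (t - 1) :=
      mul_le_mul_of_nonneg_right h12 (by linarith)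
    rw [add_mul] at h13
    linarith

theorem prod_ne_one {n m : ℕ} (hn : 1 ≤ n) (hm : 1 ≤ m) {t t' : ℝ} (ht : 4 ≤ t) (ht' : 4 ≤ t')
    (h1 : t' + 1 ≤ (t - 1) ^ 2) (h2 : t + 1 ≤ (t' - 1) ^ 2)
    (h3 : (2 ≤ n ∧ 2 ≤ m) ∨ (2 ≤ |t - t'| * (t - 1) ∧ 2 ≤ |t - t'| * (t' - 1)))
    {x y : ℂ} (hx : x ^ (n + 1) - t * x ^ n + 1 = 0) (hy : y ^ (m + 1) - t' * y ^ m + 1 = 0) :
    ‖x * y‖ ≠ 1 := by
  rw [norm_mul]
  rcases lt_or_gt_of_ne (root_ne_one ht hx) with hx1 | hx1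
  · rcases lt_or_gt_of_ne (root_ne_one ht' hy) with hy1 | hy1
    · have := norm_nonneg x
      have := norm_nonneg y
      nlinarith
    · rw [mul_comm]
      apply prod_aux hm hn ht' ht h2 _ hy hx hy1 hx1
      rcases h3 with h | h
      · exact Or.inl h.1
      · rw [abs_sub_comm]; exact Or.inr h.2
  · rcases lt_or_gt_of_ne (root_ne_one ht' hy) with hy1 | hy1
    · apply prod_aux hn hm ht ht' h1 _ hx hy hx1 hy1
      rcases h3 with h | h
      · exact Or.inl h.2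
      · exact Or.inr h.1
    · have := norm_nonneg x
      have := norm_nonneg y
      nlinarith

theorem root_integral {n : ℕ} (hn : 1 ≤ n) {t : ℝ} (ht : IsIntegral ℤ t) {x : ℂ}
    (h : x ^ (n + 1) - t * x ^ n + 1 = 0) :
    IsIntegral ℤ x ∧ IsIntegral ℤ x⁻¹ ∧ x ≠ 0 := by
  have htc : IsIntegral ℤ (t : ℂ) := ht.map (Complex.ofRealAm.restrictScalars ℤ)
  let A := integralClosure ℤ ℂ
  let tA : A := ⟨(t : ℂ), htc⟩
  have hx0 : x ≠ 0 := by
    rintro rfl
    rw [zero_pow (by omega), zero_pow (by omega), mul_zero, sub_zero, zero_add] at h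
    exact one_ne_zero h
  have hxA : IsIntegral A x := by
    let p : A[X] := 1 - C tA * X ^ n
    refine ⟨X ^ (n + 1) + p, ?_, ?_⟩
    · apply monic_X_pow_add
      have h1 : p.degree ≤ (n : WithBot ℕ) := by
        apply (degree_sub_le _ _).trans
        apply max_le
        · exact degree_one_le.trans (by exact_mod_cast Nat.zero_le n)
        · exact degree_C_mul_X_pow_le n tA
      exact lt_of_le_of_lt h1 (by exact_mod_cast Nat.lt_succ_self n)
    · show eval₂ (algebraMap A ℂ) x (X ^ (n + 1) + (1 - C tA * X ^ n)) = 0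
      rw [eval₂_add, eval₂_sub, eval₂_mul, eval₂_pow, eval₂_pow, eval₂_X, eval₂_C, eval₂_one]
      have : (algebraMap A ℂ) tA = (t : ℂ) := rfl
      rw [this, ← h]; ring
  have hx : IsIntegral ℤ x := isIntegral_trans x hxA
  refine ⟨hx, ?_, hx0⟩
  have h1 := root_norm h
  obtain ⟨m, rfl⟩ := Nat.exists_eq_add_of_le hn
  have h2 : x⁻¹ = x ^ m * (t - x) := by
    rw [pow_add, pow_one, mul_assoc] at h1
    exact (eq_inv_of_mul_eq_one_right h1).symm
  rw [h2]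
  exact (hx.pow m).mul (htc.sub hx)

/-- a monic rational polynomial whose complex roots are algebraic units is integral and
unimodular -/
theorem integral_of_roots {χ : ℚ[X]} (hm : χ.Monic)
    (hr : ∀ z : ℂ, aeval z χ = 0 → IsIntegral ℤ z ∧ IsIntegral ℤ z⁻¹ ∧ z ≠ 0) :
    ∃ q : ℤ[X], q.map (Int.castRingHom ℚ) = χ ∧ (q.coeff 0 = 1 ∨ q.coeff 0 = -1) := by
  let χc : ℂ[X] := χ.map (algebraMap ℚ ℂ)
  have hmc : χc.Monic := hm.map _
  have hsplit : χc.Splits := IsAlgClosed.splits χc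
  have hroots : ∀ z ∈ χc.roots, IsIntegral ℤ z ∧ IsIntegral ℤ z⁻¹ ∧ z ≠ 0 := by
    intro z hz
    apply hr
    have := (mem_roots'.mp hz).2
    rwa [IsRoot, eval_map, ← aeval_def] at this
  have hprod : χc = (χc.roots.map (fun z => X - C z)).prod :=
    hsplit.eq_prod_roots_of_monic hmc
  have hint : ∀ n, IsIntegral ℤ (χc.coeff n) := by
    have hl : χc ∈ lifts (algebraMap (integralClosure ℤ ℂ) ℂ) := by
      rw [hprod]
      apply Subsemiring.multiset_prod_mem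
      intro p hp
      obtain ⟨z, hz, rfl⟩ := Multiset.mem_map.mp hp
      refine ⟨X - C ⟨z, (hroots z hz).1⟩, ?_⟩
      simp
    intro n
    obtain ⟨y, hy⟩ := (lifts_iff_coeff_lifts _).mp hl n
    rw [← hy]
    exact y.2
  have hcoef : ∀ n, IsIntegral ℤ (χ.coeff n) := by
    intro n
    have h1 := hint n
    rw [coeff_map] at h1
    exact (isIntegral_algebraMap_iff (algebraMap ℚ ℂ).injective).mp h1
  have hlq : χ ∈ lifts (Int.castRingHom ℚ) := by
    rw [lifts_iff_coeff_lifts]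
    intro n
    obtain ⟨y, hy⟩ := IsIntegrallyClosed.isIntegral_iff.mp (hcoef n)
    exact ⟨y, hy⟩
  obtain ⟨q, hq⟩ := hlq
  have hq' : q.map (Int.castRingHom ℚ) = χ := hq
  refine ⟨q, hq', ?_⟩
  have h0 : χc.coeff 0 = (-1) ^ χc.natDegree * χc.roots.prod :=
    hsplit.coeff_zero_eq_prod_roots_of_monic hmc
  have hp0 : IsIntegral ℤ (χc.roots.prod)⁻¹ ∧ χc.roots.prod ≠ 0 := by
    have : ∀ s : Multiset ℂ, (∀ z ∈ s, IsIntegral ℤ z⁻¹ ∧ z ≠ 0) →
        IsIntegral ℤ (s.prod)⁻¹ ∧ s.prod ≠ 0 := by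
      intro s
      induction s using Multiset.induction_on with
      | empty => intro _; simp [isIntegral_one]
      | cons a s ih =>
        intro h
        have h1 := h a (Multiset.mem_cons_self a s)
        have h2 := ih (fun z hz => h z (Multiset.mem_cons_of_mem hz))
        rw [Multiset.prod_cons]
        refine ⟨?_, mul_ne_zero h1.2 h2.2⟩
        rw [mul_inv]
        exact h1.1.mul h2.1
    exact this _ (fun z hz => (hroots z hz).2)
  have hc0 : ((χ.coeff 0 : ℚ) : ℂ) = (-1) ^ χc.natDegree * χc.roots.prod := by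
    rw [← h0, coeff_map]; simp
  have hne : χ.coeff 0 ≠ 0 := by
    intro h
    rw [h, Rat.cast_zero] at hc0
    have := mul_ne_zero (pow_ne_zero χc.natDegree (neg_ne_zero.mpr one_ne_zero)) hp0.2
    exact this hc0.symm
  have hu : χ.coeff 0 = 1 ∨ χ.coeff 0 = -1 := by
    apply rat_unit hne
    · have := hint 0
      rw [coeff_map] at this
      simpa using this
    · rw [hc0, mul_inv]
      apply IsIntegral.mul _ hp0.1
      rw [← inv_pow, inv_neg, inv_one]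
      exact (isIntegral_one.neg).pow _
  rw [← hq', coeff_map] at hu
  rcases hu with h | h
  · left
    have : ((q.coeff 0 : ℤ) : ℚ) = ((1 : ℤ) : ℚ) := by simpa using h
    exact_mod_cast this
  · right
    have : ((q.coeff 0 : ℤ) : ℚ) = ((-1 : ℤ) : ℚ) := by simpa using h
    exact_mod_cast this

end Pool.Agent.W672
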