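import Mathlib
import Pool.Agent.W672.Roots
import Pool.Agent.W672.Part2b

/-!
Part 4a: eigenvalues.
-/

set_option autoImplicit false

namespace Pool.Agent.W672

open Polynomial Matrix

variable {V : Type*} [Fintype V] [DecidableEq V]

/-- complexification of a real matrix -/
noncomputable def cx (A : Matrix V V ℝ) : Matrix V V ℂ := Complex.ofRealHom.mapMatrix A

theorem cx_apply (A : Matrix V V ℝ) (i j : V) : cx A i j = ((A i j : ℝ) : ℂ) := rfl

theorem cx_mul (A B : Matrix V V ℝ) : cx (A * B) = cx A * cx B := map_mul _ _ _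

theorem cx_pow (A : Matrix V V ℝ) (n : ℕ) : cx (A ^ n) = cx A ^ n := map_pow _ _ _

theorem cx_one : cx (1 : Matrix V V ℝ) = 1 := map_one _

theorem cx_transpose (A : Matrix V V ℝ) : cx Aᵀ = (cx A)ᵀ := by
  ext i j; rfl

section eig

variable {A : Matrix V V ℝ} {d : V → ℝ} {k : V → ℕ} {N : ℕ}

theorem block_pow (h1 : ∀ i j, d i ≠ d j → A i j = 0) (n : ℕ) :
    ∀ i j, d i ≠ d j → (A ^ n) i j = 0 := by
  induction n with
  | zero =>
    intro i j h
    rw [pow_zero, Matrix.one_apply_ne]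
    rintro rfl; exact h rfl
  | succ n ih =>
    intro i j h
    rw [pow_succ, Matrix.mul_apply]
    apply Finset.sum_eq_zero
    intro l _
    by_cases hl : d i = d l
    · rw [h1 l j (by rw [← hl]; exact h), mul_zero]
    · rw [ih i l hl, zero_mul]

theorem row_rel (h1 : ∀ i j, d i ≠ d j → A i j = 0) (hk : ∀ i j, d i = d j → k i = k j)
    (h2 : ∀ i j, (A ^ (k i)) j i - (N + d i) * (A ^ (k i - 1)) j i + (1 : Matrix V V ℝ) j i = 0)
    (i j : V) :
    (A ^ (k i)) i j - (N + d i) * (A ^ (k i - 1)) i j + (1 : Matrix V V ℝ) i j = 0 := by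
  by_cases h : d i = d j
  · have := h2 j i
    rw [← hk i j h, ← h] at this
    exact this
  · rw [block_pow h1 _ i j h, block_pow h1 _ i j h, Matrix.one_apply_ne]
    · ring
    · rintro rfl; exact h rfl

theorem pow_mulVec_eig {B : Matrix V V ℂ} {w : V → ℂ} {z : ℂ} (h : B *ᵥ w = z • w) (n : ℕ) :
    (B ^ n) *ᵥ w = z ^ n • w := by
  induction n with
  | zero => simp
  | succ n ih =>
    rw [pow_succ, ← Matrix.mulVec_mulVec, h, Matrix.mulVec_smul, ih, smul_smul, pow_succ]
    ring_nf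

theorem eig_root
    (hrow : ∀ i j, (A ^ (k i)) i j - (N + d i) * (A ^ (k i - 1)) i j +
      (1 : Matrix V V ℝ) i j = 0)
    {w : V → ℂ} {z : ℂ} (h : cx A *ᵥ w = z • w) {i : V} (hi : w i ≠ 0) :
    z ^ (k i) - (((N : ℝ) + d i : ℝ) : ℂ) * z ^ (k i - 1) + 1 = 0 := by
  have e1 : ∑ j, (cx (A ^ (k i)) i j - (((N : ℝ) + d i : ℝ) : ℂ) * cx (A ^ (k i - 1)) i j +
      cx (1 : Matrix V V ℝ) i j) * w j = 0 := by
    apply Finset.sum_eq_zero
    intro j _
    have h1 := congrArg (fun r : ℝ => (r : ℂ)) (hrow i j)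
    simp only [Complex.ofReal_add, Complex.ofReal_sub, Complex.ofReal_mul,
      Complex.ofReal_zero] at h1
    rw [cx_apply, cx_apply, cx_apply, Complex.ofReal_add, h1, zero_mul]
  simp only [add_mul, sub_mul, Finset.sum_add_distrib, Finset.sum_sub_distrib, mul_assoc,
    ← Finset.mul_sum] at e1
  have e2 : ∀ n : ℕ, ∑ j, cx (A ^ n) i j * w j = z ^ n * w i := by
    intro n
    have := congrFun (pow_mulVec_eig h n) i
    rw [← cx_pow] at this
    exact this
  have e3 : ∑ j, cx (1 : Matrix V V ℝ) i j * w j = w i := by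
    rw [cx_one]
    have := congrFun (Matrix.one_mulVec w) i
    exact this
  rw [e2, e2, e3] at e1
  have e4 : (z ^ (k i) - (((N : ℝ) + d i : ℝ) : ℂ) * z ^ (k i - 1) + 1) * w i = 0 := by
    rw [← e1]; ring
  exact (mul_eq_zero.mp e4).resolve_right hi

theorem eig_pair
    (h1 : ∀ i j, d i ≠ d j → A i j = 0)
    (hk2 : ∀ i, 2 ≤ k i)
    (hrow : ∀ i j, (A ^ (k i)) i j - (N + d i) * (A ^ (k i - 1)) i j +
      (1 : Matrix V V ℝ) i j = 0)
    (R : V → V → Prop) (hR : ∀ p p' q, d p = d p' → R p' q → R p q)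
    {F : Matrix V V ℂ} {z : ℂ} (hF0 : F ≠ 0) (hF : cx A * F * (cx A)ᵀ = z • F)
    (hFR : ∀ p q, ¬ R p q → F p q = 0) :
    ∃ (x y : ℂ) (i j : V), R i j ∧ z = x * y ∧
      x ^ (k i) - (((N : ℝ) + d i : ℝ) : ℂ) * x ^ (k i - 1) + 1 = 0 ∧
      y ^ (k j) - (((N : ℝ) + d j : ℝ) : ℂ) * y ^ (k j - 1) + 1 = 0 := by
  let U : Submodule ℂ (Matrix V V ℂ) :=
    { carrier := {F | cx A * F * (cx A)ᵀ = z • F ∧ ∀ p q, ¬ R p q → F p q = 0}
      add_mem' := by
        intro F F' h h'
        refine ⟨?_, fun p q hpq => ?_⟩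
        · rw [mul_add, add_mul, h.1, h'.1, smul_add]
        · rw [Matrix.add_apply, h.2 p q hpq, h'.2 p q hpq, add_zero]
      zero_mem' := by
        refine ⟨by simp, fun p q _ => rfl⟩
      smul_mem' := by
        intro c F h
        refine ⟨?_, fun p q hpq => ?_⟩
        · rw [Matrix.mul_smul, Matrix.smul_mul, h.1, smul_comm]
        · rw [Matrix.smul_apply, h.2 p q hpq, smul_zero] }
  let L : Matrix V V ℂ →ₗ[ℂ] Matrix V V ℂ := LinearMap.mulLeft ℂ (cx A)
  have hL : ∀ F ∈ U, L F ∈ U := by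
    intro F h
    refine ⟨?_, fun p q hpq => ?_⟩
    · show cx A * (cx A * F) * (cx A)ᵀ = z • (cx A * F)
      rw [Matrix.mul_assoc, Matrix.mul_assoc, ← Matrix.mul_assoc (cx A) F, h.1, Matrix.mul_smul]
    · show (cx A * F) p q = 0
      rw [Matrix.mul_apply]
      apply Finset.sum_eq_zero
      intro l _
      by_cases hl : d p = d l
      · rw [h.2 l q (fun hc => hpq (hR p l q hl hc)), mul_zero]
      · rw [cx_apply, h1 p l hl, Complex.ofReal_zero, zero_mul]
  have hnt : Nontrivial U := ⟨⟨⟨F, hF, hFR⟩, 0, fun h => hF0 (congrArg Subtype.val h)⟩⟩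
  obtain ⟨x, hx⟩ := Module.End.exists_eigenvalue (L.restrict hL)
  obtain ⟨⟨F', hF'U⟩, hF'⟩ := hx.exists_hasEigenvector
  have hLF : cx A * F' = x • F' := congrArg Subtype.val hF'.apply_eq_smul
  have hF'0 : F' ≠ 0 := fun h => hF'.2 (Subtype.ext h)
  have hex : ∃ i j, F' i j ≠ 0 := by
    by_contra hc
    push Not at hc
    exact hF'0 (Matrix.ext hc)
  obtain ⟨i, j, hij⟩ := hex
  have hRij : R i j := by
    by_contra hc; exact hij (hF'U.2 i j hc)
  have hxroot : x ^ (k i) - (((N : ℝ) + d i : ℝ) : ℂ) * x ^ (k i - 1) + 1 = 0 := by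
    apply eig_root hrow (w := fun p => F' p j) (i := i) _ hij
    ext p
    have := congrFun (congrFun hLF p) j
    exact this
  have hx0 : x ≠ 0 := by
    rintro rfl
    have := hk2 i
    rw [zero_pow (by omega), zero_pow (by omega), mul_zero, sub_zero, zero_add] at hxroot
    exact one_ne_zero hxroot
  have hy : F' * (cx A)ᵀ = (z / x) • F' := by
    have e1 := hF'U.1
    rw [hLF, Matrix.smul_mul] at e1
    have e2 := congrArg (fun X => x⁻¹ • X) e1
    simp only [smul_smul, inv_mul_cancel₀ hx0, one_smul] at e2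
    rw [e2, div_eq_inv_mul]
  refine ⟨x, z / x, i, j, hRij, by field_simp, hxroot, ?_⟩
  apply eig_root hrow (w := fun q => F' i q) (i := j) _ hij
  ext q
  have := congrFun (congrFun hy i) q
  rw [Matrix.mul_apply] at this
  rw [Matrix.mulVec, dotProduct]
  rw [Pi.smul_apply]
  rw [Matrix.smul_apply] at this
  rw [← this]
  apply Finset.sum_congr rfl
  intro l _
  rw [Matrix.transpose_apply, mul_comm]

end eig

/-- eigenvectors of rational matrices -/
theorem exists_eigvec {m : Type*} [Fintype m] [DecidableEq m] (T : Matrix m m ℚ) (z : ℂ)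
    (hz : aeval z T.charpoly = 0) :
    ∃ w : m → ℂ, w ≠ 0 ∧ (T.map (algebraMap ℚ ℂ)) *ᵥ w = z • w := by
  have h1 : (T.map (algebraMap ℚ ℂ)).charpoly.eval z = 0 := by
    rw [Matrix.charpoly_map, eval_map, ← aeval_def]
    exact hz
  rw [Matrix.eval_charpoly, ← Matrix.exists_mulVec_eq_zero_iff] at h1
  obtain ⟨w, hw0, hw⟩ := h1
  refine ⟨w, hw0, ?_⟩
  rw [Matrix.sub_mulVec, sub_eq_zero] at hw
  rw [← hw]
  ext i
  simp [Matrix.scalar_apply, Matrix.mulVec_diagonal]

/-- eigenvalues on a rational form of a space of real matrices -/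
theorem exists_eigmat (W : Submodule ℚ (Matrix V V ℝ)) [FiniteDimensional ℚ W]
    (hW : ∀ (ι : Type) (F : ι → W), LinearIndependent ℚ F →
      LinearIndependent ℝ (fun i => (F i : Matrix V V ℝ)))
    (A : Matrix V V ℝ) (Θ : W →ₗ[ℚ] W) (hΘ : ∀ F, (Θ F : Matrix V V ℝ) = A * F * Aᵀ)
    (z : ℂ) (hz : aeval z Θ.charpoly = 0) :
    ∃ F : Matrix V V ℂ, F ≠ 0 ∧ cx A * F * (cx A)ᵀ = z • F ∧
      ∀ p q, (∀ F' ∈ W, F' p q = 0) → F p q = 0 := by
  let b := Module.finBasis ℚ W
  let T := LinearMap.toMatrix b b Θ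
  rw [← LinearMap.charpoly_toMatrix Θ b] at hz
  obtain ⟨w, hw0, hw⟩ := exists_eigvec T z hz
  let F : Matrix V V ℂ := ∑ i, w i • cx (b i : Matrix V V ℝ)
  have hF : F = ∑ i, w i • cx (b i : Matrix V V ℝ) := rfl
  refine ⟨F, ?_, ?_, ?_⟩
  · intro h0
    apply hw0
    have hli := hW _ b b.linearIndependent
    rw [Fintype.linearIndependent_iff] at hli
    have hre : ∑ i, (w i).re • (b i : Matrix V V ℝ) = 0 := by
      ext p q
      have := congrArg Complex.re (congrFun (congrFun h0 p) q)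
      rw [hF, Matrix.sum_apply] at this
      rw [Matrix.sum_apply]
      simp only [Matrix.smul_apply, cx_apply, smul_eq_mul, Complex.re_sum, Complex.mul_re,
        Complex.ofReal_re, Complex.ofReal_im, mul_zero, sub_zero, Matrix.zero_apply,
        Complex.zero_re] at this ⊢
      exact this
    have him : ∑ i, (w i).im • (b i : Matrix V V ℝ) = 0 := by
      ext p q
      have := congrArg Complex.im (congrFun (congrFun h0 p) q)
      rw [hF, Matrix.sum_apply] at this
      rw [Matrix.sum_apply]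
      simp only [Matrix.smul_apply, cx_apply, smul_eq_mul, Complex.im_sum, Complex.mul_im,
        Complex.ofReal_re, Complex.ofReal_im, mul_zero, zero_add, Matrix.zero_apply,
        Complex.zero_im] at this ⊢
      exact this
    have h1 := hli _ hre
    have h2 := hli _ him
    ext i
    exact Complex.ext (h1 i) (h2 i)
  · have hb : ∀ i, cx A * cx (b i : Matrix V V ℝ) * (cx A)ᵀ =
        ∑ j, ((T j i : ℚ) : ℂ) • cx (b j : Matrix V V ℝ) := by
      intro i
      rw [← cx_transpose, ← cx_mul, ← cx_mul, ← hΘ]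
      have h1 := b.sum_repr (Θ (b i))
      have h2 := congrArg Subtype.val h1
      rw [Submodule.coe_sum] at h2
      rw [← h2]
      ext p q
      rw [cx_apply, Matrix.sum_apply, Matrix.sum_apply, Complex.ofReal_sum]
      apply Finset.sum_congr rfl
      intro j _
      have hTji : T j i = b.repr (Θ (b i)) j := LinearMap.toMatrix_apply b b Θ j i
      rw [Matrix.smul_apply, cx_apply, Submodule.coe_smul, Matrix.smul_apply,
        hTji, Rat.smul_def, Complex.ofReal_mul, smul_eq_mul]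
      simp
    rw [hF, Matrix.mul_sum, Matrix.sum_mul]
    simp only [Matrix.mul_smul, Matrix.smul_mul, hb, Finset.smul_sum, smul_smul]
    rw [Finset.sum_comm]
    apply Finset.sum_congr rfl
    intro j _
    rw [← Finset.sum_smul]
    congr 1
    have := congrFun hw j
    rw [Matrix.mulVec, dotProduct, Pi.smul_apply, smul_eq_mul] at this
    rw [← this]
    apply Finset.sum_congr rfl
    intro i _
    rw [mul_comm]
    simp
  · intro p q hpq
    rw [hF, Matrix.sum_apply]
    apply Finset.sum_eq_zero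
    intro i _
    rw [Matrix.smul_apply, cx_apply, hpq _ (b i).2]
    simp

end Pool.Agent.W672
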