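import Mathlib
import Pool.Agent.W672.Part4a
import Pool.Agent.W672.Part3b
import Pool.Agent.W672.Part2d

/-!
Part 4b: the hyperbolic unimodular automorphism of a rational form.
-/

set_option autoImplicit false

namespace Pool.Agent.W672

open Polynomial Matrix

section choose_N

theorem exists_N {V : Type*} [Finite V] (d : V → ℝ) : ∃ N : ℕ,
    (∀ i, 4 ≤ (N : ℝ) + d i) ∧
    (∀ i j, ((N : ℝ) + d j) + 1 ≤ ((N : ℝ) + d i - 1) ^ 2) ∧
    (∀ i j, d i ≠ d j → 2 ≤ |((N : ℝ) + d i) - ((N : ℝ) + d j)| * ((N : ℝ) + d i - 1)) := by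
  have hev : ∀ C : ℝ, ∀ i, ∀ᶠ N : ℕ in Filter.atTop, C ≤ (N : ℝ) + d i := by
    intro C i
    have h := (tendsto_natCast_atTop_atTop (R := ℝ)).eventually_ge_atTop (C - d i)
    filter_upwards [h] with N hN
    linarith
  have h1 : ∀ᶠ N : ℕ in Filter.atTop, ∀ i, 4 ≤ (N : ℝ) + d i := by
    rw [Filter.eventually_all]
    exact hev 4
  have h2 : ∀ᶠ N : ℕ in Filter.atTop, ∀ i j, 4 + |d j - d i| ≤ (N : ℝ) + d i := by
    rw [Filter.eventually_all]
    intro i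
    rw [Filter.eventually_all]
    intro j
    exact hev _ i
  have h3 : ∀ᶠ N : ℕ in Filter.atTop, ∀ i j, 1 + 2 / |d i - d j| ≤ (N : ℝ) + d i := by
    rw [Filter.eventually_all]
    intro i
    rw [Filter.eventually_all]
    intro j
    exact hev _ i
  obtain ⟨N, hN1, hN2, hN3⟩ := (h1.and (h2.and h3)).exists
  refine ⟨N, hN1, ?_, ?_⟩
  · intro i j
    have h4 := hN2 i j
    have h5 := hN1 i
    have h6 := le_abs_self (d j - d i)
    have h7 := abs_nonneg (d j - d i)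
    set T := (N : ℝ) + d i with hT
    have h8 : (N : ℝ) + d j = T + (d j - d i) := by rw [hT]; ring
    rw [h8]
    nlinarith
  · intro i j hij
    have h4 := hN3 i j
    have h5 : 0 < |d i - d j| := abs_pos.mpr (sub_ne_zero.mpr hij)
    have h6 : ((N : ℝ) + d i) - ((N : ℝ) + d j) = d i - d j := by ring
    rw [h6]
    have h7 : |d i - d j| * (2 / |d i - d j|) ≤ |d i - d j| * ((N : ℝ) + d i - 1) :=
      mul_le_mul_of_nonneg_left (by linarith) h5.le
    rwa [mul_div_cancel₀ _ h5.ne'] at h7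

end choose_N

variable {V : Type*} [Fintype V] [DecidableEq V] {G : SimpleGraph V}

omit [DecidableEq V] in
theorem wq_supp {P : Matrix V V ℝ} {p q : V} (h : ¬ G.Adj p q) :
    ∀ F ∈ wq G P, F p q = 0 := by
  intro F hF
  unfold wq at hF
  induction hF using Submodule.span_induction with
  | mem x h' => obtain ⟨⟨u, v⟩, rfl⟩ := h'; exact om_nadj h _ _
  | zero => rfl
  | add x y _ _ h1 h2 => rw [Matrix.add_apply, h1, h2, add_zero]
  | smul r x _ h1 => rw [Matrix.smul_apply, h1, smul_zero]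

theorem cx_inj_vec {A : Matrix V V ℝ} (h : ∀ w : V → ℂ, cx A *ᵥ w = 0 → w = 0) : IsUnit A := by
  rw [Matrix.isUnit_iff_isUnit_det, isUnit_iff_ne_zero]
  intro h0
  rw [← Matrix.exists_mulVec_eq_zero_iff] at h0
  obtain ⟨v, hv0, hv⟩ := h0
  apply hv0
  have h1 := h (fun i => (v i : ℂ)) (by
    ext i
    have := congrArg (fun r : ℝ => (r : ℂ)) (congrFun hv i)
    simp only [Matrix.mulVec, dotProduct, Complex.ofReal_sum, Complex.ofReal_mul,
      Pi.zero_apply, Complex.ofReal_zero] at this ⊢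
    simp only [cx_apply]
    exact this)
  ext i
  have := congrFun h1 i
  simpa using this

theorem cx_rm (a : Matrix V V ℚ) : cx (rm a) = a.map (algebraMap ℚ ℂ) := by
  ext i j
  simp [cx_apply, rm]

theorem exists_theta {A P : Matrix V V ℝ} {a : Matrix V V ℚ}
    (hA : ∀ i j, ¬ Eqv G i j → A i j = 0) (hAP : A * P = P * rm a) :
    ∃ Θ : wq G P →ₗ[ℚ] wq G P, (∀ F, (Θ F : Matrix V V ℝ) = A * F * Aᵀ) ∧
      ∀ u v : V → ℚ, A * om G (P *ᵥ rc u) (P *ᵥ rc v) * Aᵀ =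
        om G (P *ᵥ rc (a *ᵥ u)) (P *ᵥ rc (a *ᵥ v)) := by
  have hom : ∀ u v : V → ℚ, A * om G (P *ᵥ rc u) (P *ᵥ rc v) * Aᵀ =
        om G (P *ᵥ rc (a *ᵥ u)) (P *ᵥ rc (a *ᵥ v)) := by
    intro u v
    rw [← om_block hA, Matrix.mulVec_mulVec, Matrix.mulVec_mulVec, hAP, ← Matrix.mulVec_mulVec,
      ← Matrix.mulVec_mulVec, rm_mulVec, rm_mulVec]
  let L : Matrix V V ℝ →ₗ[ℚ] Matrix V V ℝ :=
    { toFun := fun F => A * F * Aᵀ
      map_add' := by intro x y; rw [mul_add, add_mul]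
      map_smul' := by intro r x; rw [Matrix.mul_smul, Matrix.smul_mul]; rfl }
  have hL : ∀ F ∈ wq G P, L F ∈ wq G P := by
    have h1 : wq G P ≤ (wq G P).comap L := by
      conv_lhs => unfold wq
      rw [Submodule.span_le]
      rintro _ ⟨⟨u, v⟩, rfl⟩
      show A * om G (P *ᵥ rc u) (P *ᵥ rc v) * Aᵀ ∈ wq G P
      rw [hom]
      exact om_mem_wq G P _ _
    exact fun F hF => h1 hF
  exact ⟨L.restrict hL, fun F => rfl, hom⟩

variable {M : Type*} [LieRing M] [LieAlgebra ℚ M]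

/-- the automorphism of the rational form -/
theorem exists_auto (mo : Model G M) (aE : (V → ℚ) ≃ₗ[ℚ] (V → ℚ)) (a : Matrix V V ℚ)
    (ha : ∀ u, aE u = a *ᵥ u) (ΘE : wq G mo.P ≃ₗ[ℚ] wq G mo.P) (A : Matrix V V ℝ)
    (hΘ : ∀ F, (ΘE F : Matrix V V ℝ) = A * F * Aᵀ)
    (hom : ∀ u v : V → ℚ, A * om G (mo.P *ᵥ rc u) (mo.P *ᵥ rc v) * Aᵀ =
        om G (mo.P *ᵥ rc (a *ᵥ u)) (mo.P *ᵥ rc (a *ᵥ v))) :
    ∃ g : M ≃ₗ⁅ℚ⁆ M, g.toLinearEquiv.toLinearMap =
      mo.J.symm.conj (LinearMap.prodMap aE.toLinearMap ΘE.toLinearMap) := by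
  let gE : M ≃ₗ[ℚ] M := (mo.J.trans (LinearEquiv.prodCongr aE ΘE)).trans mo.J.symm
  have hg : ∀ x, mo.J (gE x) = (aE (mo.J x).1, ΘE (mo.J x).2) := by
    intro x
    show mo.J (mo.J.symm _) = _
    rw [LinearEquiv.apply_symm_apply]
    rfl
  have hlie : ∀ x y : M, gE ⁅x, y⁆ = ⁅gE x, gE y⁆ := by
    intro x y
    apply mo.J.injective
    apply Prod.ext
    · rw [hg, mo.J_br1, mo.J_br1, map_zero]
    · apply Subtype.ext
      rw [hg, mo.J_br2]
      show (ΘE (mo.J ⁅x, y⁆).2 : Matrix V V ℝ) = _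
      rw [hΘ, mo.J_br2, hom, hg, hg, ha, ha]
  let g : M ≃ₗ⁅ℚ⁆ M :=
    { toFun := gE
      map_add' := gE.map_add
      map_smul' := gE.map_smul
      map_lie' := fun {x y} => hlie x y
      invFun := gE.symm
      left_inv := gE.left_inv
      right_inv := gE.right_inv }
  refine ⟨g, ?_⟩
  apply LinearMap.ext
  intro x
  rfl

end Pool.Agent.W672
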