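import Mathlib
import Pool.Agent.W672.Part4b

/-!
Part 4c: conclusion.
-/

set_option autoImplicit false

namespace Pool.Agent.W672

open Polynomial Matrix

variable {V : Type*} [Fintype V] [DecidableEq V] {G : SimpleGraph V}
variable {M : Type*} [LieRing M] [LieAlgebra ℚ M]

theorem root_shift {k : ℕ} (hk : 2 ≤ k) {t : ℝ} {x : ℂ}
    (h : x ^ k - (t : ℂ) * x ^ (k - 1) + 1 = 0) :
    x ^ ((k - 1) + 1) - (t : ℂ) * x ^ (k - 1) + 1 = 0 := by
  rwa [Nat.sub_add_cancel (by omega)]

theorem part4 [FiniteDimensional ℚ M] (mo : Model G M) (hc1 : ∀ i, ∃ j, j ≠ i ∧ Eqv G i j)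
    (hc2 : ∀ i j, G.Adj i j → Eqv G i j → ∃ l, l ≠ i ∧ l ≠ j ∧ Eqv G i l) :
    ∃ g : M ≃ₗ⁅ℚ⁆ M, ∃ q : ℤ[X],
      q.map (Int.castRingHom ℚ) = LinearMap.charpoly g.toLinearEquiv.toLinearMap ∧
      (q.coeff 0 = 1 ∨ q.coeff 0 = -1) ∧
      ∀ z : ℂ, (q.map (Int.castRingHom ℂ)).IsRoot z → ‖z‖ ≠ 1 := by
  classical
  obtain ⟨Q, hPQ⟩ : ∃ Q, mo.P * Q = 1 := by
    obtain ⟨u, hu⟩ := mo.hP
    exact ⟨(u⁻¹ : (Matrix V V ℝ)ˣ), by rw [← hu]; exact u.mul_inv⟩
  have hQP : Q * mo.P = 1 := mul_eq_one_comm.mp hPQ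
  obtain ⟨N, hN1, hN2, hN3⟩ := exists_N mo.d
  obtain ⟨a, k, has, hk, hcard, hcol⟩ := part3 hPQ mo.hPs mo.hint N
  obtain ⟨A, hAdef⟩ : ∃ A, A = cj mo.P Q hPQ a := ⟨_, rfl⟩
  rw [← hAdef] at hcol
  have hAP : A * mo.P = mo.P * rm a := by
    rw [hAdef, cj_apply, Matrix.mul_assoc, hQP, mul_one]
  -- block structure
  have hblk : ∀ i j, mo.d i ≠ mo.d j → A i j = 0 := by
    intro i j hij
    have e1 : cj mo.P Q hPQ mo.s = Matrix.diagonal mo.d := by
      rw [cj_apply, mo.hPs, Matrix.mul_assoc, hPQ, mul_one]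
    have e2 : A * Matrix.diagonal mo.d = Matrix.diagonal mo.d * A := by
      rw [hAdef, ← e1, ← map_mul, ← map_mul, has]
    have e3 := congrFun (congrFun e2 i) j
    rw [Matrix.mul_diagonal, Matrix.diagonal_mul] at e3
    have e4 : (mo.d i - mo.d j) * A i j = 0 := by rw [sub_mul, ← e3]; ring
    exact (mul_eq_zero.mp e4).resolve_left (sub_ne_zero.mpr hij)
  have hblk' : ∀ i j, ¬ Eqv G i j → A i j = 0 := by
    intro i j hij
    exact hblk i j (fun h => hij ((mo.hd i j).mp h))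
  have hrow := row_rel hblk hk hcol
  -- sizes
  have hk2 : ∀ i, 2 ≤ k i := by
    intro i
    obtain ⟨j, hji, hE⟩ := hc1 i
    have h1 := hcard i {i, j} (by
      intro l hl
      rw [Finset.mem_insert, Finset.mem_singleton] at hl
      rcases hl with rfl | rfl
      · rfl
      · exact (mo.hd _ _).mpr hE.symm)
    rwa [Finset.card_pair (Ne.symm hji)] at h1
  have hk3 : ∀ i j, G.Adj i j → Eqv G i j → 3 ≤ k i := by
    intro i j hadj hE
    obtain ⟨l, hli, hlj, hEl⟩ := hc2 i j hadj hE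
    have h1 := hcard i {i, j, l} (by
      intro m hm
      rw [Finset.mem_insert, Finset.mem_insert, Finset.mem_singleton] at hm
      rcases hm with rfl | rfl | rfl
      · rfl
      · exact (mo.hd _ _).mpr hE.symm
      · exact (mo.hd _ _).mpr hEl.symm)
    rw [Finset.card_insert_of_notMem (by
      rw [Finset.mem_insert, Finset.mem_singleton]
      push Not
      exact ⟨hadj.ne, Ne.symm hli⟩), Finset.card_pair (Ne.symm hlj)] at h1
    exact h1
  have hroot0 : ∀ i (x : ℂ),
      x ^ (k i) - (((N : ℝ) + mo.d i : ℝ) : ℂ) * x ^ (k i - 1) + 1 = 0 → x ≠ 0 := by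
    rintro i x hx rfl
    have := hk2 i
    rw [zero_pow (by omega), zero_pow (by omega), mul_zero, sub_zero, zero_add] at hx
    exact one_ne_zero hx
  -- invertibility
  have hAu : IsUnit A := by
    apply cx_inj_vec
    intro w hw
    by_contra hw0
    have hex : ∃ i, w i ≠ 0 := by
      by_contra hc
      push Not at hc
      exact hw0 (funext hc)
    obtain ⟨i, hi⟩ := hex
    have h1 := eig_root (w := w) (z := 0) hrow (by rw [hw, zero_smul]) hi
    exact hroot0 i 0 h1 rfl
  obtain ⟨B, hAB⟩ : ∃ B, A * B = 1 := by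
    obtain ⟨u, hu⟩ := hAu
    exact ⟨(u⁻¹ : (Matrix V V ℝ)ˣ), by rw [← hu]; exact u.mul_inv⟩
  have hBA : B * A = 1 := mul_eq_one_comm.mp hAB
  have haj : Function.Injective (Matrix.toLin' a) := by
    rw [← LinearMap.ker_eq_bot, LinearMap.ker_eq_bot']
    intro u hu
    rw [Matrix.toLin'_apply] at hu
    apply rc_eq_zero
    have h1 : A *ᵥ (mo.P *ᵥ rc u) = 0 := by
      rw [Matrix.mulVec_mulVec, hAP, ← Matrix.mulVec_mulVec, rm_mulVec, hu]
      have : rc (0 : V → ℚ) = 0 := by ext i; simp [rc]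
      rw [this, Matrix.mulVec_zero]
    have h2 := congrArg (fun z => Q *ᵥ (B *ᵥ z)) h1
    simp only [Matrix.mulVec_zero] at h2
    rw [Matrix.mulVec_mulVec _ B A, hBA, Matrix.one_mulVec, Matrix.mulVec_mulVec, hQP,
      Matrix.one_mulVec] at h2
    exact h2
  obtain ⟨Θ, hΘ, hom⟩ := exists_theta hblk' hAP
  have hWfin : FiniteDimensional ℚ (wq G mo.P) := by
    have h1 : Module.Finite ℚ ((V → ℚ) × wq G mo.P) := Module.Finite.equiv mo.J
    exact Module.Finite.of_surjective (LinearMap.snd ℚ (V → ℚ) (wq G mo.P))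
      LinearMap.snd_surjective
  have hΘj : Function.Injective Θ := by
    rw [← LinearMap.ker_eq_bot, LinearMap.ker_eq_bot']
    intro F hF
    have h1 := hΘ F
    rw [hF] at h1
    apply Subtype.ext
    have h2 : (F : Matrix V V ℝ) = B * (A * F * Aᵀ) * Bᵀ := by
      have h3 : Aᵀ * Bᵀ = 1 := by rw [← Matrix.transpose_mul, hBA, Matrix.transpose_one]
      calc (F : Matrix V V ℝ) = (B * A) * F * (Aᵀ * Bᵀ) := by rw [hBA, h3, one_mul, mul_one]
        _ = _ := by simp only [Matrix.mul_assoc]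
    rw [h2, ← h1]
    simp
  let aE := LinearEquiv.ofInjectiveEndo (Matrix.toLin' a) haj
  let ΘE := LinearEquiv.ofInjectiveEndo Θ hΘj
  obtain ⟨g, hg⟩ := exists_auto mo aE a (fun u => rfl) ΘE A (fun F => hΘ F) hom
  have hchar : LinearMap.charpoly g.toLinearEquiv.toLinearMap =
      a.charpoly * Θ.charpoly := by
    rw [hg, LinearEquiv.charpoly_conj, LinearMap.charpoly_prodMap]
    rw [← Matrix.charpoly_toLin']
    rfl
  -- the roots
  have hroots : ∀ z : ℂ, aeval z (LinearMap.charpoly g.toLinearEquiv.toLinearMap) = 0 →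
      (IsIntegral ℤ z ∧ IsIntegral ℤ z⁻¹ ∧ z ≠ 0) ∧ ‖z‖ ≠ 1 := by
    intro z hz
    rw [hchar, map_mul] at hz
    have htint : ∀ i, IsIntegral ℤ ((N : ℝ) + mo.d i) := fun i =>
      (isIntegral_algebraMap (R := ℤ) (A := ℝ) (x := (N : ℤ))).add (mo.hint i)
    rcases mul_eq_zero.mp hz with hz | hz
    · obtain ⟨w, hw0, hw⟩ := exists_eigvec a z hz
      have hcQP : cx Q * cx mo.P = 1 := by rw [← cx_mul, hQP, cx_one]
      have hu : cx A *ᵥ (cx mo.P *ᵥ w) = z • (cx mo.P *ᵥ w) := by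
        rw [Matrix.mulVec_mulVec, ← cx_mul, hAP, cx_mul, ← Matrix.mulVec_mulVec, cx_rm, hw,
          Matrix.mulVec_smul]
      have hex : ∃ i, (cx mo.P *ᵥ w) i ≠ 0 := by
        by_contra hc
        push Not at hc
        apply hw0
        have h1 : cx mo.P *ᵥ w = 0 := funext hc
        have h2 := congrArg (fun v => cx Q *ᵥ v) h1
        simp only [Matrix.mulVec_mulVec, hcQP, Matrix.one_mulVec, Matrix.mulVec_zero] at h2
        exact h2
      obtain ⟨i, hi⟩ := hex
      have hr := root_shift (hk2 i) (eig_root hrow hu hi)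
      have := hk2 i
      exact ⟨root_integral (by omega) (htint i) hr, root_ne_one (hN1 i) hr⟩
    · obtain ⟨F, hF0, hF, hFs⟩ := exists_eigmat (wq G mo.P) mo.indep A Θ hΘ z hz
      obtain ⟨x, y, i, j, ⟨i', j', hi', hj', hadj⟩, hxy, hx, hy⟩ := eig_pair hblk hk2 hrow
        (fun p q => ∃ p' q', mo.d p = mo.d p' ∧ mo.d q = mo.d q' ∧ G.Adj p' q')
        (by
          rintro p p₁ q hp ⟨p', q', h1, h2, h3⟩
          exact ⟨p', q', hp.trans h1, h2, h3⟩) hF0 hF
        (by
          intro p q hpq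
          apply hFs p q
          apply wq_supp
          intro hadj
          exact hpq ⟨p, q, rfl, rfl, hadj⟩)
      have hki := hk2 i
      have hkj := hk2 j
      have hrx := root_shift hki hx
      have hry := root_shift hkj hy
      have h1 := root_integral (by omega) (htint i) hrx
      have h2 := root_integral (by omega) (htint j) hry
      constructor
      · rw [hxy]
        exact ⟨h1.1.mul h2.1, by rw [mul_inv]; exact h1.2.1.mul h2.2.1,
          mul_ne_zero h1.2.2 h2.2.2⟩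
      · rw [hxy]
        apply prod_ne_one (by omega) (by omega) (hN1 i) (hN1 j) (hN2 i j) (hN2 j i) _ hrx hry
        by_cases hd : mo.d i = mo.d j
        · left
          have hE : Eqv G i' j' := (mo.hd _ _).mp (by rw [← hi', ← hj', hd])
          have e1 : k i = k i' := hk i i' hi'
          have e2 : k j = k j' := hk j j' hj'
          have e3 := hk3 i' j' hadj hE
          have e4 := hk3 j' i' hadj.symm hE.symm
          constructor <;> omega
        · right
          refine ⟨hN3 i j hd, ?_⟩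
          rw [abs_sub_comm]
          exact hN3 j i (Ne.symm hd)
  obtain ⟨q, hq, hq0⟩ := integral_of_roots (LinearMap.charpoly_monic _)
    (fun z hz => (hroots z hz).1)
  refine ⟨g, q, hq, hq0, ?_⟩
  intro z hz
  apply (hroots z _).2
  rw [← hq, aeval_def, eval₂_map]
  have he : (algebraMap ℚ ℂ).comp (Int.castRingHom ℚ) = Int.castRingHom ℂ := RingHom.ext_int _ _
  rw [he, ← eval_map]
  exact hz

end Pool.Agent.W672
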