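import Mathlib

set_option autoImplicit false
open Filter Topology Complex

/-! Numerics for the surface used in S04522: the functions `b k z = 1 - 4^(k+1) z^(N k)` and a
square root function. -/

namespace Pool.Agent.W672.RS

/-- the exponents -/
def N : ℕ → ℕ
  | 0 => 1
  | (k+1) => 10 * (k+3) * N k

lemma N_pos (k : ℕ) : 0 < N k := by
  induction k with
  | zero => simp [N]
  | succ k ih => simp only [N]; positivity

lemma N_ge (k : ℕ) : k + 1 ≤ N k := by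
  induction k with
  | zero => simp [N]
  | succ k ih =>
    simp only [N]
    have := N_pos k
    nlinarith

lemma N_dvd {n k : ℕ} (h : n ≤ k) : N n ∣ N k := by
  induction k, h using Nat.le_induction with
  | base => exact dvd_rfl
  | succ k hk ih => simp only [N]; exact Dvd.dvd.mul_left ih _

lemma N_ratio {n k : ℕ} (h : n < k) : ∃ m, N k = N n * m ∧ 10 * (k + 2) ≤ m := by
  obtain ⟨k', rfl⟩ : ∃ k', k = k' + 1 := ⟨k - 1, by omega⟩
  obtain ⟨m', hm'⟩ := N_dvd (show n ≤ k' by omega)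
  have hp := N_pos k'
  have hm1 : 1 ≤ m' := by
    rcases Nat.eq_zero_or_pos m' with h0 | h0
    · rw [h0] at hm'; omega
    · exact h0
  refine ⟨10 * (k' + 3) * m', ?_, ?_⟩
  · simp only [N]; rw [hm']; ring
  · nlinarith

/-- the functions whose square roots are adjoined -/
noncomputable def b (k : ℕ) (z : ℂ) : ℂ := 1 - 4 ^ (k + 1) * z ^ (N k)

lemma b_zero (k : ℕ) : b k 0 = 1 := by
  simp [b, (N_pos k).ne']

lemma norm_b_sub_one (k : ℕ) (z : ℂ) : ‖b k z - 1‖ = 4 ^ (k + 1) * ‖z‖ ^ (N k) := by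
  have : b k z - 1 = -(4 ^ (k + 1) * z ^ (N k)) := by unfold b; ring
  rw [this, norm_neg, norm_mul, norm_pow, norm_pow]
  norm_num

lemma hasDerivAt_b (k : ℕ) (z : ℂ) :
    HasDerivAt (b k) (-(4 ^ (k + 1) * ((N k : ℂ) * z ^ (N k - 1)))) z := by
  have h := ((hasDerivAt_pow (N k) z).const_mul ((4 : ℂ) ^ (k + 1))).const_sub 1
  exact h

lemma differentiable_b (k : ℕ) : Differentiable ℂ (b k) :=
  fun z => (hasDerivAt_b k z).differentiableAt

lemma continuous_b (k : ℕ) : Continuous (b k) := (differentiable_b k).continuous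

lemma F2 {n k : ℕ} (hk : n < k) {z : ℂ} (h : ‖z‖ ^ (N n) ≤ 3 / 4) :
    ‖b k z - 1‖ ≤ (1 / 4 : ℝ) ^ (k + 2) := by
  obtain ⟨m, hm, hm2⟩ := N_ratio hk
  rw [norm_b_sub_one, hm, pow_mul]
  have h1 : (‖z‖ ^ N n) ^ m ≤ (3 / 4 : ℝ) ^ m :=
    pow_le_pow_left₀ (by positivity) h m
  have h2 : (3 / 4 : ℝ) ^ m ≤ (3 / 4 : ℝ) ^ (10 * (k + 2)) :=
    pow_le_pow_of_le_one (by norm_num) (by norm_num) hm2
  have h3 : (3 / 4 : ℝ) ^ (10 * (k + 2)) ≤ (1 / 16 : ℝ) ^ (k + 2) := by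
    rw [pow_mul]
    exact pow_le_pow_left₀ (by positivity) (by norm_num) _
  have h4 : (4 : ℝ) ^ (k + 1) ≤ 4 ^ (k + 2) :=
    pow_le_pow_right₀ (by norm_num) (by omega)
  calc (4 : ℝ) ^ (k + 1) * (‖z‖ ^ N n) ^ m
      ≤ 4 ^ (k + 2) * (1 / 16 : ℝ) ^ (k + 2) := by
        apply mul_le_mul h4 (h1.trans (h2.trans h3)) (by positivity) (by positivity)
    _ = (1 / 4 : ℝ) ^ (k + 2) := by
        rw [← mul_pow]; norm_num

lemma F2' {n k : ℕ} (hk : n < k) {z : ℂ} (h : ‖z‖ ^ (N n) ≤ 3 / 4) :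
    ‖b k z - 1‖ ≤ 1 / 16 := by
  refine (F2 hk h).trans ?_
  calc (1 / 4 : ℝ) ^ (k + 2) ≤ (1 / 4 : ℝ) ^ 2 :=
        pow_le_pow_of_le_one (by norm_num) (by norm_num) (by omega)
    _ = 1 / 16 := by norm_num

lemma b_ne_of {n k : ℕ} (hk : n < k) {z : ℂ} (h : ‖z‖ ^ (N n) ≤ 3 / 4) : b k z ≠ 0 := by
  intro h0
  have := F2' hk h
  rw [h0] at this
  norm_num at this

lemma b_slit {n k : ℕ} (hk : n < k) {z : ℂ} (h : ‖z‖ ^ (N n) ≤ 3 / 4) :
    0 < (b k z).re := by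
  have h1 := F2' hk h
  have h2 := (Complex.abs_re_le_norm (b k z - 1)).trans h1
  simp only [sub_re, one_re] at h2
  have := (abs_le.1 h2).1
  linarith

lemma norm_of_b_eq_zero {k : ℕ} {z : ℂ} (h : b k z = 0) :
    ‖z‖ ^ (N k) = (1 / 4 : ℝ) ^ (k + 1) := by
  have h1 := norm_b_sub_one k z
  rw [h] at h1
  have h1' : (1 : ℝ) = 4 ^ (k + 1) * ‖z‖ ^ N k := by
    rw [← h1]; simp
  rw [one_div, inv_pow]
  have h4 : (0 : ℝ) < 4 ^ (k + 1) := by positivity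
  field_simp
  linarith

lemma norm_of_b_eq_zero_le {k : ℕ} {z : ℂ} (h : b k z = 0) :
    ‖z‖ ^ (N k) ≤ 3 / 4 := by
  rw [norm_of_b_eq_zero h]
  calc (1 / 4 : ℝ) ^ (k + 1) ≤ (1 / 4 : ℝ) ^ 1 :=
        pow_le_pow_of_le_one (by norm_num) (by norm_num) (by omega)
    _ ≤ 3 / 4 := by norm_num

/-- different `b k` have no common zero -/
lemma b_common {j k : ℕ} (hjk : j ≠ k) {z : ℂ} (h : b j z = 0) : b k z ≠ 0 := by
  rcases lt_or_gt_of_ne hjk with h1 | h1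
  · exact b_ne_of h1 (norm_of_b_eq_zero_le h)
  · intro h2
    exact b_ne_of h1 (norm_of_b_eq_zero_le h2) h

lemma deriv_b_ne {k : ℕ} {z : ℂ} (h : b k z = 0) :
    -(4 ^ (k + 1) * ((N k : ℂ) * z ^ (N k - 1))) ≠ 0 := by
  have hz : z ≠ 0 := by
    rintro rfl
    rw [b_zero] at h
    exact one_ne_zero h
  have hN : (N k : ℂ) ≠ 0 := by exact_mod_cast (N_pos k).ne'
  apply neg_ne_zero.2
  exact mul_ne_zero (pow_ne_zero _ (by norm_num)) (mul_ne_zero hN (pow_ne_zero _ hz))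

lemma exists_n {z : ℂ} (hz : ‖z‖ < 1) : ∃ n, ∀ m, n ≤ m → ‖z‖ ^ (N m) < 3 / 4 := by
  obtain ⟨n, hn⟩ := exists_pow_lt_of_lt_one (show (0 : ℝ) < 3 / 4 by norm_num) hz
  refine ⟨n, fun m hm => lt_of_le_of_lt ?_ hn⟩
  exact pow_le_pow_of_le_one (norm_nonneg _) hz.le (by have := N_ge m; omega)

lemma lt_one_of {n : ℕ} {z : ℂ} (h : ‖z‖ ^ (N n) ≤ 3 / 4) : ‖z‖ < 1 := by
  by_contra h1
  push Not at h1
  have := one_le_pow₀ h1 (n := N n)
  linarith

lemma tendsto_b {z : ℂ} (hz : ‖z‖ < 1) : Tendsto (fun k => b k z) atTop (𝓝 1) := by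
  obtain ⟨n, hn⟩ := exists_n hz
  rw [tendsto_iff_norm_sub_tendsto_zero]
  have hg : Tendsto (fun k : ℕ => (1 / 4 : ℝ) ^ (k + 2)) atTop (𝓝 0) :=
    (tendsto_pow_atTop_nhds_zero_of_lt_one (by norm_num) (by norm_num)).comp
      (tendsto_add_atTop_nat 2)
  refine squeeze_zero' (Eventually.of_forall fun k => norm_nonneg _) ?_ hg
  filter_upwards [eventually_gt_atTop n] with k hk
  exact F2 hk (hn n le_rfl).le

/-- uniform in `k` continuity -/
lemma b_unif {z0 : ℂ} (hz : ‖z0‖ < 1) {ε : ℝ} (hε : 0 < ε) :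
    ∀ᶠ z in 𝓝 z0, ∀ k, ‖b k z - b k z0‖ < ε := by
  obtain ⟨n0, hn0⟩ := exists_n hz
  obtain ⟨n1, hn1⟩ := exists_pow_lt_of_lt_one (show (0 : ℝ) < ε / 2 by positivity)
    (show (1 / 4 : ℝ) < 1 by norm_num)
  set n := max n0 n1 with hn
  have hopen : ∀ᶠ z : ℂ in 𝓝 z0, ‖z‖ ^ (N n) < 3 / 4 := by
    have hc : Continuous fun z : ℂ => ‖z‖ ^ (N n) := by fun_prop
    exact hc.continuousAt.eventually_lt continuousAt_const (hn0 n (le_max_left _ _))
  have hfin : ∀ᶠ z : ℂ in 𝓝 z0, ∀ k ∈ Finset.range (n + 1), ‖b k z - b k z0‖ < ε := by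
    rw [eventually_all_finset]
    intro k _
    have hc : Continuous fun z : ℂ => ‖b k z - b k z0‖ :=
      ((continuous_b k).sub continuous_const).norm
    exact hc.continuousAt.eventually_lt continuousAt_const (by simpa using hε)
  filter_upwards [hopen, hfin] with z hz1 hz2 k
  by_cases hk : k < n + 1
  · exact hz2 k (Finset.mem_range.2 hk)
  · have hk' : n < k := by omega
    have e1 := F2 hk' hz1.le
    have e2 := F2 hk' (hn0 n (le_max_left _ _)).le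
    have e3 : (1 / 4 : ℝ) ^ (k + 2) ≤ (1 / 4 : ℝ) ^ n1 :=
      pow_le_pow_of_le_one (by norm_num) (by norm_num)
        (by have := le_max_right n0 n1; omega)
    calc ‖b k z - b k z0‖ = ‖(b k z - 1) - (b k z0 - 1)‖ := by ring_nf
      _ ≤ ‖b k z - 1‖ + ‖b k z0 - 1‖ := norm_sub_le _ _
      _ < ε := by linarith

lemma bdd_below_of_tendsto {u : ℕ → ℂ} (h1 : Tendsto u atTop (𝓝 1)) (h0 : ∀ k, u k ≠ 0) :
    ∃ c : ℝ, 0 < c ∧ ∀ k, c ≤ ‖u k‖ := by
  have h2 : Tendsto (fun k => ‖(u k)⁻¹‖) atTop (𝓝 ‖(1 : ℂ)⁻¹‖) :=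
    (h1.inv₀ one_ne_zero).norm
  obtain ⟨C, hC⟩ := h2.bddAbove_range
  have hC0 : 0 < C := by
    have := hC ⟨0, rfl⟩
    exact lt_of_lt_of_le (norm_pos_iff.2 (inv_ne_zero (h0 0))) this
  refine ⟨C⁻¹, inv_pos.2 hC0, fun k => ?_⟩
  have hk := hC ⟨k, rfl⟩
  simp only [norm_inv] at hk
  exact inv_le_of_inv_le₀ (norm_pos_iff.2 (h0 k)) hk

/-- lower bound for `b k` on the circle -/
lemma b_lower {n k : ℕ} (hk : k ≤ n) {z : ℂ} (h : ‖z‖ ^ (N n) = 5 / 8) :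
    (3 / 2 : ℝ) * 4 ^ k ≤ ‖b k z‖ := by
  have hz1 : ‖z‖ < 1 := lt_one_of (n := n) (by rw [h]; norm_num)
  have hNk : N k ≤ N n := Nat.le_of_dvd (N_pos n) (N_dvd hk)
  have h1 : (5 / 8 : ℝ) ≤ ‖z‖ ^ (N k) := by
    rw [← h]; exact pow_le_pow_of_le_one (norm_nonneg _) hz1.le hNk
  have h2 := norm_b_sub_one k z
  have h3 : ‖b k z - 1‖ ≤ ‖b k z‖ + 1 := by
    calc ‖b k z - 1‖ ≤ ‖b k z‖ + ‖(1 : ℂ)‖ := norm_sub_le _ _
      _ = ‖b k z‖ + 1 := by simp
  have h4 : (1 : ℝ) ≤ 4 ^ k := one_le_pow₀ (by norm_num)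
  have h5 : (4 : ℝ) ^ (k + 1) = 4 * 4 ^ k := by ring
  rw [h2, h5] at h3
  have h6 : 4 * 4 ^ k * (5 / 8 : ℝ) ≤ 4 * 4 ^ k * ‖z‖ ^ N k :=
    mul_le_mul_of_nonneg_left h1 (by positivity)
  linarith

/-! ### the square root -/

/-- principal square root -/
noncomputable def csq (w : ℂ) : ℂ := Complex.exp (Complex.log w / 2)

lemma csq_ne_zero (w : ℂ) : csq w ≠ 0 := Complex.exp_ne_zero _

lemma csq_sq {w : ℂ} (hw : w ≠ 0) : csq w ^ 2 = w := by
  unfold csq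
  rw [← Complex.exp_nat_mul]
  have : ((2 : ℕ) : ℂ) * (Complex.log w / 2) = Complex.log w := by push_cast; ring
  rw [this, Complex.exp_log hw]

lemma csq_one : csq 1 = 1 := by simp [csq]

lemma csq_re (w : ℂ) : 0 ≤ (csq w).re := by
  unfold csq
  rw [Complex.exp_re]
  apply mul_nonneg (Real.exp_pos _).le
  have him : (Complex.log w / 2).im = Complex.arg w / 2 := by
    have : (Complex.log w / 2) = Complex.log w / ((2 : ℝ) : ℂ) := by norm_num
    rw [this, Complex.div_ofReal_im, Complex.log_im]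
  rw [him]
  apply Real.cos_nonneg_of_mem_Icc
  constructor
  · have := Complex.neg_pi_lt_arg w; linarith
  · have := Complex.arg_le_pi w; linarith

lemma csq_re_pos {w : ℂ} (hw : 0 < w.re) : 0 < (csq w).re := by
  have h0 : w ≠ 0 := by rintro rfl; simp at hw
  rcases (csq_re w).lt_or_eq with h | h
  · exact h
  · exfalso
    have h2 := csq_sq h0
    have h3 : (csq w ^ 2).re = (csq w).re ^ 2 - (csq w).im ^ 2 := by
      rw [sq, Complex.mul_re]; ring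
    rw [h2, ← h] at h3
    nlinarith [sq_nonneg (csq w).im]

lemma norm_csq_sub_one {w : ℂ} (hw : w ≠ 0) : ‖csq w - 1‖ ≤ ‖w - 1‖ := by
  have h1 : w - 1 = (csq w - 1) * (csq w + 1) := by
    have := csq_sq hw
    linear_combination -this
  have h2 : 1 ≤ ‖csq w + 1‖ := by
    have h3 := Complex.abs_re_le_norm (csq w + 1)
    have h4 : (csq w + 1).re = (csq w).re + 1 := by simp
    have h5 := csq_re w
    rw [h4, abs_of_nonneg (by linarith)] at h3
    linarith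
  rw [h1, norm_mul]
  nlinarith [norm_nonneg (csq w - 1)]

lemma norm_csq {w : ℂ} (hw : w ≠ 0) : ‖csq w‖ ^ 2 = ‖w‖ := by
  rw [← norm_pow, csq_sq hw]

lemma differentiableAt_csq {w : ℂ} (hw : w ∈ Complex.slitPlane) :
    DifferentiableAt ℂ csq w := by
  unfold csq
  exact ((Complex.differentiableAt_log hw).div_const 2).cexp

lemma eq_of_sq_eq {x y : ℂ} (h : x ^ 2 = y ^ 2) (hx : 0 < x.re) (hy : 0 ≤ y.re) : x = y := by
  rcases sq_eq_sq_iff_eq_or_eq_neg.1 h with h1 | h1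
  · exact h1
  · exfalso
    rw [h1, Complex.neg_re] at hx
    linarith

end Pool.Agent.W672.RS
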