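import Pool.Agent.W672.RS1

set_option autoImplicit false
open Filter Topology Complex
open scoped Manifold

/-! The Riemann surface used in S04522. -/

namespace Pool.Agent.W672.RS

/-- the surface -/
def RR : Type := {q : ℂ × (UniformFun ℕ ℂ) // ‖q.1‖ < 1 ∧
  (∀ n, (UniformFun.toFun q.2 n) ^ 2 = b n q.1) ∧ (∀ n, b n q.1 ≠ 0) ∧
  Tendsto (UniformFun.toFun q.2) atTop (𝓝 1)}

noncomputable instance : TopologicalSpace RR := instTopologicalSpaceSubtype

instance : T2Space RR :=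
  inferInstanceAs (T2Space {q : ℂ × (UniformFun ℕ ℂ) // ‖q.1‖ < 1 ∧
  (∀ n, (UniformFun.toFun q.2 n) ^ 2 = b n q.1) ∧ (∀ n, b n q.1 ≠ 0) ∧
  Tendsto (UniformFun.toFun q.2) atTop (𝓝 1)})

namespace RR

/-- projection to the disc -/
def z (q : RR) : ℂ := q.1.1

/-- the coordinates -/
def u (q : RR) (k : ℕ) : ℂ := UniformFun.toFun q.1.2 k

lemma z_lt (q : RR) : ‖q.z‖ < 1 := q.2.1

lemma u_sq (q : RR) (k : ℕ) : q.u k ^ 2 = b k q.z := q.2.2.1 k

lemma b_ne (q : RR) (k : ℕ) : b k q.z ≠ 0 := q.2.2.2.1 k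

lemma u_ne (q : RR) (k : ℕ) : q.u k ≠ 0 := by
  intro h
  have := q.u_sq k
  rw [h] at this
  exact q.b_ne k (by rw [← this]; simp)

lemma tend (q : RR) : Tendsto q.u atTop (𝓝 1) := q.2.2.2.2

/-- constructor -/
def mk' (w : ℂ) (v : ℕ → ℂ) (h1 : ‖w‖ < 1) (h2 : ∀ n, v n ^ 2 = b n w)
    (h3 : ∀ n, b n w ≠ 0) (h4 : Tendsto v atTop (𝓝 1)) : RR :=
  ⟨(w, UniformFun.ofFun v), h1, h2, h3, h4⟩

lemma mk'_z (w : ℂ) (v : ℕ → ℂ) (h1 : ‖w‖ < 1) (h2 : ∀ n, v n ^ 2 = b n w)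
    (h3 : ∀ n, b n w ≠ 0) (h4 : Tendsto v atTop (𝓝 1)) : (mk' w v h1 h2 h3 h4).z = w := rfl

lemma mk'_u (w : ℂ) (v : ℕ → ℂ) (h1 : ‖w‖ < 1) (h2 : ∀ n, v n ^ 2 = b n w)
    (h3 : ∀ n, b n w ≠ 0) (h4 : Tendsto v atTop (𝓝 1)) (k : ℕ) :
    (mk' w v h1 h2 h3 h4).u k = v k := rfl

lemma ext' {q q' : RR} (hz : q.z = q'.z) (hu : ∀ k, q.u k = q'.u k) : q = q' := by
  apply Subtype.ext
  apply Prod.ext
  · exact hz
  · apply UniformFun.toFun.injective
    funext k
    exact hu k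

theorem tendsto_iff {X : Type*} {l : Filter X} {φ : X → RR} {q : RR} :
    Tendsto φ l (𝓝 q) ↔ Tendsto (fun x => (φ x).z) l (𝓝 q.z) ∧
      ∀ ε : ℝ, 0 < ε → ∀ᶠ x in l, ∀ k, ‖(φ x).u k - q.u k‖ < ε := by
  have h1 : Tendsto φ l (𝓝 q) ↔ Tendsto (fun x => (φ x).1) l (𝓝 q.1) :=
    Topology.IsInducing.subtypeVal.tendsto_nhds_iff
  rw [h1, Prod.tendsto_iff, UniformFun.tendsto_iff_tendstoUniformly,
    Metric.tendstoUniformly_iff]
  refine and_congr Iff.rfl ?_
  refine forall_congr' fun ε => forall_congr' fun _ => ?_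
  refine eventually_congr (Eventually.of_forall fun x => ?_)
  refine forall_congr' fun k => ?_
  rw [dist_comm, dist_eq_norm]
  rfl

lemma continuous_z : Continuous z := by
  rw [continuous_iff_continuousAt]
  intro q
  exact (tendsto_iff.1 (tendsto_id (x := 𝓝 q))).1

lemma near (q : RR) {ε : ℝ} (hε : 0 < ε) : ∀ᶠ q' in 𝓝 q, ∀ k, ‖q'.u k - q.u k‖ < ε :=
  (tendsto_iff.1 (tendsto_id (x := 𝓝 q))).2 ε hε

lemma u_lower (q : RR) : ∃ c : ℝ, 0 < c ∧ ∀ k, c ≤ ‖q.u k‖ :=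
  bdd_below_of_tendsto q.tend q.u_ne

lemma b_lower' (q : RR) : ∃ c : ℝ, 0 < c ∧ ∀ k, c ≤ ‖b k q.z‖ :=
  bdd_below_of_tendsto (tendsto_b q.z_lt) q.b_ne

lemma good_eventually (q : RR) : ∀ᶠ w in 𝓝 q.z, ‖w‖ < 1 ∧ ∀ k, b k w ≠ 0 := by
  obtain ⟨c, hc, hc2⟩ := q.b_lower'
  have h1 : ∀ᶠ w : ℂ in 𝓝 q.z, ‖w‖ < 1 :=
    continuous_norm.continuousAt.eventually_lt continuousAt_const q.z_lt
  filter_upwards [h1, b_unif q.z_lt hc] with w hw1 hw2
  refine ⟨hw1, fun k h0 => ?_⟩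
  have := hw2 k
  rw [h0, zero_sub, norm_neg] at this
  exact absurd (hc2 k) (not_le.2 this)

lemma lift_aux1 (q : RR) {w : ℂ} (h : ∀ k, b k w ≠ 0) (k : ℕ) :
    (q.u k * csq (b k w / b k q.z)) ^ 2 = b k w := by
  rw [mul_pow, q.u_sq, csq_sq (div_ne_zero (h k) (q.b_ne k))]
  field_simp [q.b_ne k]

lemma lift_aux2 (q : RR) {w : ℂ} (hw : ‖w‖ < 1) (h : ∀ k, b k w ≠ 0) :
    Tendsto (fun k => q.u k * csq (b k w / b k q.z)) atTop (𝓝 1) := by
  have h1 : Tendsto (fun k => b k w / b k q.z) atTop (𝓝 1) := by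
    have h0 := (tendsto_b hw).div (tendsto_b q.z_lt) one_ne_zero
    rw [div_one] at h0
    exact h0
  have h2 : Tendsto (fun k => csq (b k w / b k q.z)) atTop (𝓝 1) := by
    rw [tendsto_iff_norm_sub_tendsto_zero] at h1 ⊢
    refine squeeze_zero (fun k => norm_nonneg _) (fun k => ?_) h1
    exact norm_csq_sub_one (div_ne_zero (h k) (q.b_ne k))
  simpa using q.tend.mul h2

open Classical in
/-- the local section through `q` -/
noncomputable def lift (q : RR) (w : ℂ) : RR :=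
  if h : ‖w‖ < 1 ∧ ∀ k, b k w ≠ 0 then
    mk' w (fun k => q.u k * csq (b k w / b k q.z)) h.1 (lift_aux1 q h.2) h.2
      (lift_aux2 q h.1 h.2)
  else q

lemma lift_z (q : RR) {w : ℂ} (h : ‖w‖ < 1 ∧ ∀ k, b k w ≠ 0) : (lift q w).z = w := by
  unfold lift
  rw [dif_pos h]
  rfl

lemma lift_u (q : RR) {w : ℂ} (h : ‖w‖ < 1 ∧ ∀ k, b k w ≠ 0) (k : ℕ) :
    (lift q w).u k = q.u k * csq (b k w / b k q.z) := by
  unfold lift
  rw [dif_pos h]
  rfl

lemma lift_self (q : RR) : lift q q.z = q := by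
  have h : ‖q.z‖ < 1 ∧ ∀ k, b k q.z ≠ 0 := ⟨q.z_lt, q.b_ne⟩
  apply ext'
  · rw [lift_z q h]
  · intro k
    rw [lift_u q h, div_self (q.b_ne k), csq_one, mul_one]

lemma lift_z_ev (q : RR) : ∀ᶠ w in 𝓝 q.z, (lift q w).z = w := by
  filter_upwards [q.good_eventually] with w hw
  exact lift_z q hw

theorem continuousAt_lift (q : RR) : ContinuousAt (lift q) q.z := by
  unfold ContinuousAt
  rw [lift_self, tendsto_iff]
  constructor
  · have h1 : Tendsto (fun w : ℂ => w) (𝓝 q.z) (𝓝 q.z) := tendsto_id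
    refine h1.congr' ?_
    filter_upwards [q.lift_z_ev] with w hw
    exact hw.symm
  · intro ε hε
    obtain ⟨c, hc, hc2⟩ := q.u_lower
    filter_upwards [q.good_eventually, b_unif q.z_lt (mul_pos hε hc)] with w hw hw2 k
    rw [lift_u q hw]
    have hb := q.b_ne k
    have e1 : q.u k * csq (b k w / b k q.z) - q.u k =
        q.u k * (csq (b k w / b k q.z) - 1) := by ring
    have e2 : b k w / b k q.z - 1 = (b k w - b k q.z) / b k q.z := by
      field_simp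
    have e3 : ‖b k q.z‖ = ‖q.u k‖ ^ 2 := by rw [← q.u_sq, norm_pow]
    have hu : 0 < ‖q.u k‖ := norm_pos_iff.2 (q.u_ne k)
    calc ‖q.u k * csq (b k w / b k q.z) - q.u k‖
        = ‖q.u k‖ * ‖csq (b k w / b k q.z) - 1‖ := by rw [e1, norm_mul]
      _ ≤ ‖q.u k‖ * ‖b k w / b k q.z - 1‖ := by
          gcongr
          exact norm_csq_sub_one (div_ne_zero (hw.2 k) hb)
      _ = ‖b k w - b k q.z‖ / ‖q.u k‖ := by
          rw [e2, norm_div, e3]; field_simp
      _ < ε := by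
          rw [div_lt_iff₀ hu]
          calc ‖b k w - b k q.z‖ < ε * c := hw2 k
            _ ≤ ε * ‖q.u k‖ := by gcongr; exact hc2 k

lemma isOpenMap_z : IsOpenMap z := by
  rw [isOpenMap_iff_nhds_le]
  intro q
  have h1 : map (fun w => (lift q w).z) (𝓝 q.z) = 𝓝 q.z := by
    have : (fun w => (lift q w).z) =ᶠ[𝓝 q.z] id := q.lift_z_ev
    rw [map_congr this, map_id]
  have h2 : map (lift q) (𝓝 q.z) ≤ 𝓝 q := by
    have := q.continuousAt_lift
    unfold ContinuousAt at this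
    rwa [lift_self] at this
  calc 𝓝 q.z = map (fun w => (lift q w).z) (𝓝 q.z) := h1.symm
    _ = map z (map (lift q) (𝓝 q.z)) := by rw [map_map]; rfl
    _ ≤ map z (𝓝 q) := map_mono h2

lemma loc_inj (q : RR) : ∃ U : Set RR, IsOpen U ∧ q ∈ U ∧ Set.InjOn z U := by
  obtain ⟨c, hc, hc2⟩ := q.u_lower
  obtain ⟨U, hU1, hU2, hU3⟩ := eventually_nhds_iff.1 (q.near (half_pos hc))
  refine ⟨U, hU2, hU3, ?_⟩
  intro q1 hq1 q2 hq2 h12
  refine ext' h12 fun k => ?_
  have e1 := hU1 q1 hq1 k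
  have e2 := hU1 q2 hq2 k
  have h3 : q1.u k ^ 2 = q2.u k ^ 2 := by rw [q1.u_sq, q2.u_sq]; rw [h12]
  rcases sq_eq_sq_iff_eq_or_eq_neg.1 h3 with h4 | h4
  · exact h4
  · exfalso
    have e3 : ‖q.u k‖ ≤ c / 2 + c / 2 - 0 - 0 ∨ True := Or.inr trivial
    have e4 : (2 : ℂ) * q.u k = -(q1.u k - q.u k) - (q2.u k - q.u k) := by
      rw [h4]; ring
    have e5 : 2 * ‖q.u k‖ ≤ ‖q1.u k - q.u k‖ + ‖q2.u k - q.u k‖ := by
      calc 2 * ‖q.u k‖ = ‖(2 : ℂ) * q.u k‖ := by rw [norm_mul]; norm_num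
        _ = ‖-(q1.u k - q.u k) - (q2.u k - q.u k)‖ := by rw [e4]
        _ ≤ ‖-(q1.u k - q.u k)‖ + ‖q2.u k - q.u k‖ := norm_sub_le _ _
        _ = _ := by rw [norm_neg]
    have := hc2 k
    linarith

theorem isLocalHomeomorph_z : IsLocalHomeomorph z := by
  rw [isLocalHomeomorph_iff_isOpenEmbedding_restrict]
  intro q
  obtain ⟨U, hU1, hU2, hU3⟩ := q.loc_inj
  refine ⟨U, hU1.mem_nhds hU2, ?_⟩
  apply Topology.IsOpenEmbedding.of_continuous_injective_isOpenMap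
  · exact continuous_z.comp continuous_subtype_val
  · intro x y hxy
    exact Subtype.ext (hU3 x.2 y.2 hxy)
  · exact isOpenMap_z.comp hU1.isOpenMap_subtype_val

/-- the chart at `q` -/
noncomputable def chart (q : RR) : OpenPartialHomeomorph RR ℂ := (isLocalHomeomorph_z q).choose

lemma mem_chart (q : RR) : q ∈ (chart q).source := (isLocalHomeomorph_z q).choose_spec.1

lemma chart_eq (q : RR) : (chart q : RR → ℂ) = z := (isLocalHomeomorph_z q).choose_spec.2.symm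

noncomputable instance : ChartedSpace ℂ RR where
  atlas := Set.range chart
  chartAt := chart
  mem_chart_source := mem_chart
  chart_mem_atlas := fun q => ⟨q, rfl⟩

lemma chartAt_eq (q : RR) : chartAt ℂ q = chart q := rfl

instance : IsManifold 𝓘(ℂ) ⊤ RR := by
  apply isManifold_of_contDiffOn
  rintro e e' ⟨q, rfl⟩ ⟨q', rfl⟩
  refine contDiffOn_id.congr ?_
  intro w hw
  simp only [mfld_simps, Set.mem_inter_iff, Set.mem_preimage] at hw ⊢
  have h1 : w ∈ (chart q).target := hw.1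
  have h2 := (chart q).right_inv h1
  rw [chart_eq q] at h2
  rw [chart_eq q']
  exact h2

/-- holomorphic functions in the chart -/
lemma mdiff_iff (f : RR → ℂ) (q : RR) : MDifferentiableAt 𝓘(ℂ) 𝓘(ℂ) f q ↔
    ContinuousAt f q ∧ DifferentiableAt ℂ (f ∘ (chart q).symm) q.z := by
  rw [mdifferentiableAt_iff]
  refine and_congr Iff.rfl ?_
  have h1 : (extChartAt 𝓘(ℂ) q) q = q.z := by
    rw [extChartAt_coe]
    simp only [Function.comp, chartAt_eq, chart_eq]
    rfl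
  rw [h1]
  have h2 : writtenInExtChartAt 𝓘(ℂ) 𝓘(ℂ) q f = f ∘ (chart q).symm := by
    funext w
    simp [writtenInExtChartAt, extChartAt, chartAt_eq, chartAt_self_eq]
  rw [h2]
  simp [differentiableWithinAt_univ]

/-- continuous sections are given by the inverse of the chart -/
lemma sec_eq {s : ℂ → RR} {w0 : ℂ} (hs : ContinuousAt s w0)
    (hz : ∀ᶠ w in 𝓝 w0, (s w).z = w) : ∀ᶠ w in 𝓝 w0, s w = (chart (s w0)).symm w := by
  have h1 : ∀ᶠ w in 𝓝 w0, s w ∈ (chart (s w0)).source :=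
    hs.eventually ((chart (s w0)).open_source.mem_nhds (mem_chart _))
  filter_upwards [h1, hz] with w hw1 hw2
  have h2 := (chart (s w0)).left_inv hw1
  rw [chart_eq, hw2] at h2
  exact h2.symm

theorem sec_diff {f : RR → ℂ} (hf : MDifferentiable 𝓘(ℂ) 𝓘(ℂ) f) {s : ℂ → RR} {w0 : ℂ}
    (hs : ContinuousAt s w0) (hz : ∀ᶠ w in 𝓝 w0, (s w).z = w) :
    DifferentiableAt ℂ (fun w => f (s w)) w0 := by
  have h1 := ((mdiff_iff f (s w0)).1 (hf (s w0))).2
  have h0 : (s w0).z = w0 := hz.self_of_nhds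
  rw [h0] at h1
  refine h1.congr_of_eventuallyEq ?_
  filter_upwards [sec_eq hs hz] with w hw
  simp only [Function.comp, ← hw]

lemma lift_eq (q : RR) : ∀ᶠ w in 𝓝 q.z, lift q w = (chart q).symm w := by
  have h := sec_eq q.continuousAt_lift q.lift_z_ev
  rwa [lift_self] at h

lemma lift_z_eq (q : RR) : ∀ᶠ q' in 𝓝 q, lift q q'.z = q' := by
  have h1 : ∀ᶠ q' in 𝓝 q, lift q q'.z = (chart q).symm q'.z :=
    continuous_z.continuousAt.eventually q.lift_eq
  have h2 : ∀ᶠ q' in 𝓝 q, q' ∈ (chart q).source :=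
    (chart q).open_source.mem_nhds (mem_chart _)
  filter_upwards [h1, h2] with q' e1 e2
  have e3 := (chart q).left_inv e2
  rw [chart_eq] at e3
  rw [e1, e3]

theorem hol_iff (f : RR → ℂ) : MDifferentiable 𝓘(ℂ) 𝓘(ℂ) f ↔
    ∀ q, DifferentiableAt ℂ (fun w => f (lift q w)) q.z := by
  constructor
  · intro hf q
    exact sec_diff hf q.continuousAt_lift q.lift_z_ev
  · intro hf q
    rw [mdiff_iff]
    constructor
    · have h1 : ContinuousAt (fun w => f (lift q w)) (z q) := (hf q).continuousAt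
      have h2 : ContinuousAt (fun q' => f (lift q (z q'))) q :=
        ContinuousAt.comp (f := z) (g := fun w => f (lift q w)) h1 continuous_z.continuousAt
      refine h2.congr ?_
      filter_upwards [q.lift_z_eq] with q' hq'
      rw [hq']
    · refine (hf q).congr_of_eventuallyEq ?_
      filter_upwards [q.lift_eq] with w hw
      simp only [Function.comp, ← hw]

/-- holomorphic functions -/
def Hol (f : RR → ℂ) : Prop := MDifferentiable 𝓘(ℂ) 𝓘(ℂ) f

lemma Hol.add {f g : RR → ℂ} (hf : Hol f) (hg : Hol g) : Hol (fun q => f q + g q) :=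
  (hol_iff _).2 fun q => ((hol_iff f).1 hf q).add ((hol_iff g).1 hg q)

lemma Hol.sub {f g : RR → ℂ} (hf : Hol f) (hg : Hol g) : Hol (fun q => f q - g q) :=
  (hol_iff _).2 fun q => ((hol_iff f).1 hf q).sub ((hol_iff g).1 hg q)

lemma Hol.mul {f g : RR → ℂ} (hf : Hol f) (hg : Hol g) : Hol (fun q => f q * g q) :=
  (hol_iff _).2 fun q => ((hol_iff f).1 hf q).mul ((hol_iff g).1 hg q)

lemma hol_const (c : ℂ) : Hol (fun _ => c) :=
  (hol_iff _).2 fun _ => differentiableAt_const c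

lemma Hol.div {f g : RR → ℂ} (hf : Hol f) (hg : Hol g) (h0 : ∀ q, g q ≠ 0) :
    Hol (fun q => f q / g q) :=
  (hol_iff _).2 fun q => ((hol_iff f).1 hf q).div ((hol_iff g).1 hg q) (h0 _)

lemma hol_prod {ι : Type*} (s : Finset ι) {f : ι → RR → ℂ} (hf : ∀ i ∈ s, Hol (f i)) :
    Hol (fun q => ∏ i ∈ s, f i q) := by
  classical
  induction s using Finset.induction_on with
  | empty => simpa using hol_const 1
  | insert i s hi ih =>
    have h1 := (hf i (Finset.mem_insert_self _ _)).mul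
      (ih fun j hj => hf j (Finset.mem_insert_of_mem hj))
    refine (hol_iff _).2 fun q => ?_
    have h2 := (hol_iff _).1 h1 q
    simpa [Finset.prod_insert hi] using h2

lemma Hol.comp_cont {f : RR → ℂ} (hf : Hol f) {g : RR → RR} (hg : Continuous g)
    (hz : ∀ q, (g q).z = q.z) : Hol (fun q => f (g q)) := by
  refine (hol_iff _).2 fun q => ?_
  refine sec_diff (s := fun w => g (lift q w)) hf
    (hg.continuousAt.comp q.continuousAt_lift) ?_
  filter_upwards [q.lift_z_ev] with w hw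
  rw [hz, hw]

lemma hol_z : Hol z := by
  refine (hol_iff _).2 fun q => ?_
  refine differentiableAt_id.congr_of_eventuallyEq ?_
  filter_upwards [q.lift_z_ev] with w hw
  simpa using hw

lemma hol_u (k : ℕ) : Hol (fun q => q.u k) := by
  refine (hol_iff _).2 fun q => ?_
  have h1 : DifferentiableAt ℂ (fun w => q.u k * csq (b k w / b k q.z)) q.z := by
    have h2 : DifferentiableAt ℂ (fun w => b k w / b k q.z) q.z :=
      (differentiable_b k _).div_const _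
    have h3 : DifferentiableAt ℂ csq (b k q.z / b k q.z) := by
      rw [div_self (q.b_ne k)]
      exact differentiableAt_csq (by simp [Complex.slitPlane])
    exact (DifferentiableAt.comp q.z h3 h2).const_mul _
  refine h1.congr_of_eventuallyEq ?_
  filter_upwards [q.good_eventually] with w hw
  exact lift_u q hw k

lemma bdd_u (k : ℕ) (q : RR) : ‖q.u k‖ ≤ 1 + 4 ^ (k + 1) := by
  have h1 : ‖q.u k‖ ^ 2 = ‖b k q.z‖ := by rw [← norm_pow, q.u_sq]
  have h2 := norm_b_sub_one k q.z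
  have h3 : ‖b k q.z‖ ≤ ‖b k q.z - 1‖ + 1 := by
    calc ‖b k q.z‖ = ‖(b k q.z - 1) + 1‖ := by ring_nf
      _ ≤ ‖b k q.z - 1‖ + ‖(1 : ℂ)‖ := norm_add_le _ _
      _ = _ := by simp
  have h4 : ‖q.z‖ ^ N k ≤ 1 := pow_le_one₀ (norm_nonneg _) q.z_lt.le
  have h5 : (4 : ℝ) ^ (k + 1) * ‖q.z‖ ^ N k ≤ 4 ^ (k + 1) :=
    mul_le_of_le_one_right (by positivity) h4
  have h6 : ‖q.u k‖ ^ 2 ≤ 1 + 4 ^ (k + 1) := by linarith
  have h7 : (0 : ℝ) < 4 ^ (k + 1) := by positivity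
  nlinarith [norm_nonneg (q.u k)]

end RR

end Pool.Agent.W672.RS
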