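import Pool.Agent.W672.RS2

set_option autoImplicit false
open Filter Topology Complex
open scoped Manifold

/-! Main estimate for bounded holomorphic functions on the surface. -/

namespace Pool.Agent.W672.RS

namespace RR

/-! ### the base point, flips, the exhausting pieces -/

/-- base point -/
noncomputable def p0 : RR :=
  mk' 0 (fun _ => 1) (by simp) (fun n => by rw [b_zero]; simp)
    (fun n => by rw [b_zero]; exact one_ne_zero) tendsto_const_nhds

lemma p0_z : p0.z = 0 := rfl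

lemma p0_u (k : ℕ) : p0.u k = 1 := rfl

/-- flipping the coordinates in a finite set -/
noncomputable def γ (B : Finset ℕ) (q : RR) : RR :=
  mk' q.z (fun k => if k ∈ B then -q.u k else q.u k) q.z_lt
    (fun n => by
      split_ifs
      · rw [neg_sq, q.u_sq]
      · exact q.u_sq n)
    q.b_ne
    (by
      refine q.tend.congr' ?_
      filter_upwards [eventually_gt_atTop (B.sup id)] with k hk
      have : k ∉ B := fun h => absurd (Finset.le_sup (f := id) h) (not_le.2 hk)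
      rw [if_neg this])

lemma γ_z (B : Finset ℕ) (q : RR) : (γ B q).z = q.z := rfl

lemma γ_u (B : Finset ℕ) (q : RR) (k : ℕ) :
    (γ B q).u k = if k ∈ B then -q.u k else q.u k := rfl

lemma continuous_γ (B : Finset ℕ) : Continuous (γ B) := by
  rw [continuous_iff_continuousAt]
  intro q
  unfold ContinuousAt
  rw [tendsto_iff]
  refine ⟨continuous_z.continuousAt, fun ε hε => ?_⟩
  filter_upwards [q.near hε] with q' hq' k
  rw [γ_u, γ_u]
  split_ifs
  · have : -q'.u k - -q.u k = -(q'.u k - q.u k) := by ring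
    rw [this, norm_neg]
    exact hq' k
  · exact hq' k

/-- flipping one coordinate -/
noncomputable def σ (k : ℕ) (q : RR) : RR := γ {k} q

lemma σ_z (k : ℕ) (q : RR) : (σ k q).z = q.z := rfl

lemma σ_u_self (k : ℕ) (q : RR) : (σ k q).u k = -q.u k := by
  simp [σ, γ_u]

lemma σ_u_ne {j k : ℕ} (h : j ≠ k) (q : RR) : (σ k q).u j = q.u j := by
  simp [σ, γ_u, h]

lemma σ_σ (k : ℕ) (q : RR) : σ k (σ k q) = q := by
  refine ext' rfl fun j => ?_
  by_cases h : j = k
  · subst h; rw [σ_u_self, σ_u_self, neg_neg]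
  · rw [σ_u_ne h, σ_u_ne h]

lemma σ_comm (j k : ℕ) (q : RR) : σ k (σ j q) = σ j (σ k q) := by
  refine ext' rfl fun i => ?_
  simp only [σ, γ_u, Finset.mem_singleton]
  split_ifs <;> rfl

lemma γ_insert {k : ℕ} {B : Finset ℕ} (h : k ∉ B) (q : RR) :
    γ (insert k B) q = σ k (γ B q) := by
  refine ext' rfl fun i => ?_
  by_cases hik : i = k
  · subst hik
    rw [σ_u_self, γ_u, γ_u, if_pos (Finset.mem_insert_self _ _), if_neg h]
  · rw [σ_u_ne hik, γ_u, γ_u]
    simp [Finset.mem_insert, hik]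

lemma Hol.comp_σ {f : RR → ℂ} (hf : Hol f) (k : ℕ) : Hol (fun q => f (σ k q)) :=
  hf.comp_cont (continuous_γ {k}) (fun _ => rfl)

/-- the pieces -/
def V (n : ℕ) : Set RR := {q | ‖q.z‖ ^ (N n) < 3 / 4 ∧ ∀ k, n < k → q.u k = csq (b k q.z)}

/-- the discs -/
def W (n : ℕ) : Set ℂ := {w | ‖w‖ ^ (N n) < 3 / 4 ∧ ∀ k, k ≤ n → b k w ≠ 0}

lemma good_of_W {n : ℕ} {w : ℂ} (h : w ∈ W n) : ‖w‖ < 1 ∧ ∀ k, b k w ≠ 0 := by
  refine ⟨lt_one_of h.1.le, fun k => ?_⟩
  by_cases hk : k ≤ n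
  · exact h.2 k hk
  · exact b_ne_of (by omega) h.1.le

lemma z_mem_W {n : ℕ} {q : RR} (h : q ∈ V n) : q.z ∈ W n := ⟨h.1, fun k _ => q.b_ne k⟩

/-- the standard point over `w` -/
noncomputable def pt (w : ℂ) : RR := lift p0 w

lemma pt_z {n : ℕ} {w : ℂ} (h : w ∈ W n) : (pt w).z = w := lift_z p0 (good_of_W h)

lemma pt_u {n : ℕ} {w : ℂ} (h : w ∈ W n) (k : ℕ) : (pt w).u k = csq (b k w) := by
  unfold pt
  rw [lift_u p0 (good_of_W h), p0_u, p0_z, b_zero, one_mul, div_one]

lemma pt_mem {n : ℕ} {w : ℂ} (h : w ∈ W n) : pt w ∈ V n := by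
  refine ⟨?_, fun k _ => ?_⟩
  · rw [pt_z h]; exact h.1
  · rw [pt_u h, pt_z h]

lemma zero_mem_W (n : ℕ) : (0 : ℂ) ∈ W n := by
  refine ⟨?_, fun k _ => ?_⟩
  · simp [(N_pos n).ne']
  · rw [b_zero]; exact one_ne_zero

lemma pt_zero : pt 0 = p0 := lift_self p0

/-- invariant functions only depend on the projection -/
lemma inv_γ {n : ℕ} {g : RR → ℂ} (hg : ∀ k, k ≤ n → ∀ q, g (σ k q) = g q)
    (B : Finset ℕ) (hB : ∀ k ∈ B, k ≤ n) (q : RR) : g (γ B q) = g q := by
  induction B using Finset.induction_on with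
  | empty =>
    congr 1
  | insert k B hk ih =>
    rw [γ_insert hk, hg k (hB k (Finset.mem_insert_self _ _))]
    exact ih fun j hj => hB j (Finset.mem_insert_of_mem hj)

lemma inv_pt {n : ℕ} {g : RR → ℂ} (hg : ∀ k, k ≤ n → ∀ q, g (σ k q) = g q)
    {q : RR} (hq : q ∈ V n) : g q = g (pt q.z) := by
  classical
  have hW := z_mem_W hq
  set B := (Finset.range (n + 1)).filter (fun k => q.u k ≠ (pt q.z).u k) with hB
  have h1 : q = γ B (pt q.z) := by
    refine ext' ?_ fun k => ?_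
    · rw [γ_z, pt_z hW]
    · rw [γ_u]
      by_cases hk : k ≤ n
      · by_cases he : q.u k = (pt q.z).u k
        · have : k ∉ B := by simp [hB, he]
          rw [if_neg this, he]
        · have : k ∈ B := by
            rw [hB, Finset.mem_filter, Finset.mem_range]
            exact ⟨by omega, he⟩
          rw [if_pos this]
          have h3 : q.u k ^ 2 = (pt q.z).u k ^ 2 := by
            rw [q.u_sq, (pt q.z).u_sq, pt_z hW]
          exact (sq_eq_sq_iff_eq_or_eq_neg.1 h3).resolve_left he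
      · have : k ∉ B := by
          rw [hB, Finset.mem_filter, Finset.mem_range]
          omega
        rw [if_neg this, pt_u hW]
        exact hq.2 k (by omega)
  rw [h1, inv_γ hg B (fun k hk => by
    rw [hB, Finset.mem_filter, Finset.mem_range] at hk; omega)]
  rw [← h1]

lemma V_nhds {n : ℕ} {q : RR} (hq : q ∈ V n) : ∀ᶠ q' in 𝓝 q, q' ∈ V n := by
  have h1 : ∀ᶠ q' : RR in 𝓝 q, ‖q'.z‖ ^ (N n) < 3 / 4 := by
    have hc : Continuous fun q' : RR => ‖q'.z‖ ^ (N n) := (continuous_z.norm).pow _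
    exact hc.continuousAt.eventually_lt continuousAt_const hq.1
  filter_upwards [h1, q.near (show (0 : ℝ) < 1 / 4 by norm_num)] with q' h2 h3
  refine ⟨h2, fun k hk => ?_⟩
  have e1 := h3 k
  have e2 : ‖q.u k - 1‖ ≤ 1 / 16 := by
    rw [hq.2 k hk]
    exact (norm_csq_sub_one (q.b_ne k)).trans (F2' hk hq.1.le)
  have e3 : ‖q'.u k - 1‖ ≤ ‖q'.u k - q.u k‖ + ‖q.u k - 1‖ := by
    calc ‖q'.u k - 1‖ = ‖(q'.u k - q.u k) + (q.u k - 1)‖ := by ring_nf
      _ ≤ _ := norm_add_le _ _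
  have e4 : 0 < (q'.u k).re := by
    have := Complex.abs_re_le_norm (q'.u k - 1)
    simp only [sub_re, one_re] at this
    have := (abs_le.1 this).1
    linarith
  exact eq_of_sq_eq (by rw [q'.u_sq, csq_sq (q'.b_ne k)]) e4 (csq_re _)

/-- in the trace direction: near a point of `W n` the standard points may be replaced by a
continuous section -/
lemma pt_lift {n : ℕ} {g : RR → ℂ} (hg : ∀ k, k ≤ n → ∀ q, g (σ k q) = g q)
    {w : ℂ} (hw : w ∈ W n) : ∀ᶠ w' in 𝓝 w, g (pt w') = g (lift (pt w) w') := by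
  have hz := pt_z hw
  have h1 : ∀ᶠ w' in 𝓝 w, lift (pt w) w' ∈ V n := by
    have h2 := (pt w).continuousAt_lift
    have h3 : ∀ᶠ q' in 𝓝 (lift (pt w) (pt w).z), q' ∈ V n := by
      rw [lift_self]; exact V_nhds (pt_mem hw)
    have h4 := h2.eventually h3
    rwa [hz] at h4
  have h5 := (pt w).lift_z_ev
  rw [hz] at h5
  filter_upwards [h1, h5] with w' e1 e2
  rw [inv_pt hg e1, e2]

lemma diff_pt {n : ℕ} {g : RR → ℂ} (hh : Hol g) (hg : ∀ k, k ≤ n → ∀ q, g (σ k q) = g q)
    {w : ℂ} (hw : w ∈ W n) : DifferentiableAt ℂ (fun w' => g (pt w')) w := by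
  have h1 := (hol_iff g).1 hh (pt w)
  rw [pt_z hw] at h1
  exact h1.congr_of_eventuallyEq (pt_lift hg hw)

end RR

/-! ### removable singularities -/

lemma W_punct {n : ℕ} {w : ℂ} (hw : ‖w‖ ^ (N n) < 3 / 4) : ∀ᶠ z in 𝓝[≠] w, z ∈ RR.W n := by
  have h1 : ∀ᶠ z : ℂ in 𝓝 w, ‖z‖ ^ (N n) < 3 / 4 := by
    have hc : Continuous fun z : ℂ => ‖z‖ ^ (N n) := continuous_norm.pow _
    exact hc.continuousAt.eventually_lt continuousAt_const hw
  have h2 : ∀ᶠ z in 𝓝[≠] w, ∀ k ∈ Finset.range (n + 1), b k z ≠ 0 := by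
    rw [eventually_all_finset]
    intro k _
    by_cases h0 : b k w = 0
    · exact (hasDerivAt_b k w).eventually_ne (deriv_b_ne h0)
    · have h3 : ∀ᶠ z in 𝓝 w, b k z ≠ 0 := (continuous_b k).continuousAt.eventually_ne h0
      exact h3.filter_mono nhdsWithin_le_nhds
  filter_upwards [h1.filter_mono nhdsWithin_le_nhds, h2] with z e1 e2
  exact ⟨e1, fun k hk => e2 k (Finset.mem_range.2 (by omega))⟩

lemma growth (S : Finset ℕ) (w : ℂ) :
    Tendsto (fun z => (z - w) ^ 2 / ∏ k ∈ S, b k z) (𝓝[≠] w) (𝓝 0) := by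
  classical
  have hprod : ∀ T : Finset ℕ, Tendsto (fun z => ∏ k ∈ T, b k z) (𝓝[≠] w)
      (𝓝 (∏ k ∈ T, b k w)) := by
    intro T
    have hc : Continuous fun z => ∏ k ∈ T, b k z :=
      continuous_finsetProd _ fun k _ => continuous_b k
    exact hc.continuousAt.mono_left nhdsWithin_le_nhds
  have hid : Tendsto (fun z : ℂ => z - w) (𝓝[≠] w) (𝓝 0) := by
    have hc : Continuous fun z : ℂ => z - w := by fun_prop
    have h : Tendsto (fun z : ℂ => z - w) (𝓝 w) (𝓝 (w - w)) := hc.continuousAt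
    rw [sub_self] at h
    exact h.mono_left nhdsWithin_le_nhds
  by_cases h : ∃ j ∈ S, b j w = 0
  · obtain ⟨j, hj, hj0⟩ := h
    have h1 : ∏ k ∈ S.erase j, b k w ≠ 0 := by
      rw [Finset.prod_ne_zero_iff]
      intro k hk
      exact b_common (Finset.ne_of_mem_erase hk).symm hj0
    have h2 := hasDerivAt_iff_tendsto_slope.1 (hasDerivAt_b j w)
    have h3 := (h2.inv₀ (deriv_b_ne hj0)).mul ((hprod (S.erase j)).inv₀ h1)
    have h4 := hid.mul h3
    rw [zero_mul] at h4
    refine h4.congr' ?_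
    filter_upwards [self_mem_nhdsWithin] with z hz
    have hz' : z - w ≠ 0 := sub_ne_zero.2 hz
    rw [← Finset.mul_prod_erase S (fun k => b k z) hj, slope_def_field, hj0, sub_zero]
    rw [inv_div, div_eq_mul_inv, div_eq_mul_inv, mul_inv]
    ring
  · push Not at h
    have h1 : ∏ k ∈ S, b k w ≠ 0 := Finset.prod_ne_zero_iff.2 h
    have h4 := (hid.pow 2).div (hprod S) h1
    have h5 : (0 : ℂ) ^ 2 / ∏ k ∈ S, b k w = 0 := by simp
    rw [h5] at h4
    exact h4

theorem extend {n : ℕ} {G : ℂ → ℂ} (hG : ∀ w ∈ RR.W n, DifferentiableAt ℂ G w)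
    (S : Finset ℕ) (C : ℝ) (hb : ∀ w ∈ RR.W n, ‖G w‖ ^ 2 * ‖∏ k ∈ S, b k w‖ ≤ C)
    (hS : ∀ k ∈ S, k ≤ n) :
    ∃ F : ℂ → ℂ, (∀ w : ℂ, ‖w‖ ^ (N n) < 3 / 4 → DifferentiableAt ℂ F w) ∧
      ∀ w ∈ RR.W n, F w = G w := by
  have hlim : ∀ w ∈ RR.W n, limUnder (𝓝[≠] w) G = G w := by
    intro w hw
    exact ((hG w hw).continuousAt.tendsto.mono_left nhdsWithin_le_nhds).limUnder_eq
  refine ⟨fun w => limUnder (𝓝[≠] w) G, ?_, hlim⟩
  intro w hw
  have hp := W_punct hw
  have hs : insert w (RR.W n) ∈ 𝓝 w := by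
    have := eventually_nhdsWithin_iff.1 hp
    filter_upwards [this] with z hz
    by_cases hzw : z = w
    · exact Or.inl hzw
    · exact Or.inr (hz hzw)
  have ho : (fun z => G z - G w) =o[𝓝[≠] w] fun z => (z - w)⁻¹ := by
    rw [Asymptotics.isLittleO_iff_tendsto']
    · have h1 : Tendsto (fun z => G z * (z - w)) (𝓝[≠] w) (𝓝 0) := by
        rw [tendsto_zero_iff_norm_tendsto_zero]
        have h2 : Tendsto (fun z => Real.sqrt (C * ‖(z - w) ^ 2 / ∏ k ∈ S, b k z‖)) (𝓝[≠] w)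
            (𝓝 0) := by
          have h3 := ((growth S w).norm.const_mul C)
          rw [norm_zero, mul_zero] at h3
          have h4 := (Real.continuous_sqrt.tendsto 0).comp h3
          rw [Real.sqrt_zero] at h4
          exact h4
        refine squeeze_zero' (Eventually.of_forall fun _ => norm_nonneg _) ?_ h2
        filter_upwards [hp] with z hz
        apply Real.le_sqrt_of_sq_le
        have hne : ∏ k ∈ S, b k z ≠ 0 :=
          Finset.prod_ne_zero_iff.2 fun k hk => hz.2 k (hS k hk)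
        have hpos : 0 < ‖∏ k ∈ S, b k z‖ := norm_pos_iff.2 hne
        rw [norm_mul, mul_pow, norm_div, norm_pow, mul_div_assoc', le_div_iff₀ hpos]
        have := mul_le_mul_of_nonneg_right (hb z hz) (sq_nonneg ‖z - w‖)
        linarith
      have h5 : Tendsto (fun z => G w * (z - w)) (𝓝[≠] w) (𝓝 0) := by
        have hc : Continuous fun z : ℂ => G w * (z - w) := by fun_prop
        have h : Tendsto (fun z : ℂ => G w * (z - w)) (𝓝 w) (𝓝 (G w * (w - w))) :=
          hc.continuousAt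
        rw [sub_self, mul_zero] at h
        exact h.mono_left nhdsWithin_le_nhds
      have h6 := h1.sub h5
      rw [sub_zero] at h6
      refine h6.congr fun z => ?_
      rw [div_inv_eq_mul]
      ring
    · filter_upwards [self_mem_nhdsWithin] with z hz h0
      exact absurd h0 (inv_ne_zero (sub_ne_zero.2 hz))
  have hd : DifferentiableOn ℂ G (insert w (RR.W n) \ {w}) := by
    intro z hz
    rcases hz.1 with h1 | h1
    · exact absurd h1 hz.2
    · exact (hG z h1).differentiableWithinAt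
  have hu := (Complex.differentiableOn_update_limUnder_of_isLittleO hs hd ho).differentiableAt hs
  refine hu.congr_of_eventuallyEq ?_
  filter_upwards [hs] with z hz
  by_cases hzw : z = w
  · subst hzw
    simp
  · rw [Function.update_of_ne hzw]
    rcases hz with h1 | h1
    · exact absurd h1 hzw
    · exact hlim z h1

theorem max_principle {n : ℕ} {F : ℂ → ℂ}
    (hF : ∀ w : ℂ, ‖w‖ ^ (N n) < 3 / 4 → DifferentiableAt ℂ F w) {M : ℝ}
    (hM : ∀ w : ℂ, ‖w‖ ^ (N n) = 5 / 8 → ‖F w‖ ≤ M) : ‖F 0‖ ≤ M := by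
  set r : ℝ := (5 / 8 : ℝ) ^ ((N n : ℝ)⁻¹) with hr
  have hr0 : 0 < r := Real.rpow_pos_of_pos (by norm_num) _
  have hrN : r ^ (N n) = 5 / 8 := Real.rpow_inv_natCast_pow (by norm_num) (N_pos n).ne'
  have hd : DiffContOnCl ℂ F (Metric.ball 0 r) := by
    apply DifferentiableOn.diffContOnCl
    rw [closure_ball (0 : ℂ) hr0.ne']
    intro w hw
    refine (hF w ?_).differentiableWithinAt
    have h1 : ‖w‖ ≤ r := by simpa using hw
    calc ‖w‖ ^ N n ≤ r ^ N n := pow_le_pow_left₀ (norm_nonneg _) h1 _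
      _ = 5 / 8 := hrN
      _ < 3 / 4 := by norm_num
  refine Complex.norm_le_of_forall_mem_frontier_norm_le Metric.isBounded_ball hd ?_
    (subset_closure (Metric.mem_ball_self hr0))
  intro w hw
  rw [frontier_ball (0 : ℂ) hr0.ne'] at hw
  apply hM
  have h1 : ‖w‖ = r := by simpa using hw
  rw [h1, hrN]

end Pool.Agent.W672.RS
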