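import Pool.Agent.W672.RS3

set_option autoImplicit false
open Filter Topology Complex
open scoped Manifold

/-! Main estimate for bounded holomorphic functions on the surface, and connectedness. -/

namespace Pool.Agent.W672.RS

namespace RR

/-- the small factors -/
noncomputable def ε (k : ℕ) : ℝ := 9 / 10 * (1 / 2) ^ k

lemma ε_pos (k : ℕ) : 0 < ε k := by unfold ε; positivity

lemma ε_le (k : ℕ) : ε k ≤ 9 / 10 := by
  unfold ε
  have : (1 / 2 : ℝ) ^ k ≤ 1 := pow_le_one₀ (by norm_num) (by norm_num)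
  linarith

lemma ε_circle {n k : ℕ} (hk : k ≤ n) {q : RR} (h : ‖q.z‖ ^ (N n) = 5 / 8) :
    1 ≤ ε k * ‖q.u k‖ := by
  have h1 := b_lower hk h
  have h2 : ‖q.u k‖ ^ 2 = ‖b k q.z‖ := by rw [← norm_pow, q.u_sq]
  rw [← h2] at h1
  have h3 : (1 : ℝ) ≤ (ε k * ‖q.u k‖) ^ 2 := by
    have h4 : (ε k) ^ 2 * 4 ^ k = 81 / 100 := by
      unfold ε
      have : ((1 / 2 : ℝ) ^ k) ^ 2 * 4 ^ k = 1 := by
        rw [← pow_mul, mul_comm k 2, pow_mul, ← mul_pow]; norm_num
      calc (9 / 10 * (1 / 2 : ℝ) ^ k) ^ 2 * 4 ^ k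
          = 81 / 100 * (((1 / 2 : ℝ) ^ k) ^ 2 * 4 ^ k) := by ring
        _ = 81 / 100 := by rw [this]; ring
    have h5 := mul_le_mul_of_nonneg_left h1 (sq_nonneg (ε k))
    rw [mul_pow]
    nlinarith
  have h6 : 0 ≤ ε k * ‖q.u k‖ := mul_nonneg (ε_pos k).le (norm_nonneg _)
  nlinarith

/-- homogeneous functions: odd under `σ k`, `k ∈ S`, even for `k ∈ T \ S` -/
def Homog (S T : Finset ℕ) (f : RR → ℂ) : Prop :=
  (∀ k ∈ S, ∀ q, f (σ k q) = -f q) ∧ (∀ k ∈ T, k ∉ S → ∀ q, f (σ k q) = f q)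

lemma Homog.inv {S : Finset ℕ} {n : ℕ} {f : RR → ℂ} (h : Homog S (Finset.range (n + 1)) f)
    (hh : S = ∅) : ∀ k, k ≤ n → ∀ q, f (σ k q) = f q := by
  intro k hk q
  exact h.2 k (Finset.mem_range.2 (by omega)) (by rw [hh]; simp) q

/-- dividing by the product of the `u k` gives an invariant function -/
lemma quot_inv {S : Finset ℕ} {n : ℕ} {f : RR → ℂ} (h : Homog S (Finset.range (n + 1)) f) :
    ∀ k, k ≤ n → ∀ q, (fun q => f q / ∏ j ∈ S, q.u j) (σ k q) =
      (fun q => f q / ∏ j ∈ S, q.u j) q := by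
  classical
  intro k hk q
  simp only
  by_cases hkS : k ∈ S
  · rw [h.1 k hkS, ← Finset.mul_prod_erase S (fun j => (σ k q).u j) hkS,
      ← Finset.mul_prod_erase S (fun j => q.u j) hkS, σ_u_self]
    have h1 : ∏ x ∈ S.erase k, (σ k q).u x = ∏ x ∈ S.erase k, q.u x :=
      Finset.prod_congr rfl fun j hj => σ_u_ne (Finset.ne_of_mem_erase hj) q
    rw [h1, neg_mul, neg_div_neg_eq]
  · rw [h.2 k (Finset.mem_range.2 (by omega)) hkS]
    have h1 : ∏ x ∈ S, (σ k q).u x = ∏ x ∈ S, q.u x :=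
      Finset.prod_congr rfl fun j hj => σ_u_ne (show j ≠ k from fun he => hkS (he ▸ hj)) q
    rw [h1]

theorem base {n : ℕ} {S : Finset ℕ} (hS : ∀ k ∈ S, k ≤ n) {f : RR → ℂ} (hf : Hol f)
    (h : Homog S (Finset.range (n + 1)) f) {C : ℝ} (hC : ∀ q ∈ V n, ‖f q‖ ≤ C) :
    ‖f p0‖ ≤ C * ∏ k ∈ S, ε k := by
  set g : RR → ℂ := fun q => f q / ∏ j ∈ S, q.u j with hg
  have hprod : ∀ q : RR, ∏ j ∈ S, q.u j ≠ 0 := fun q =>
    Finset.prod_ne_zero_iff.2 fun k _ => q.u_ne k
  have hgH : Hol g := hf.div (hol_prod S fun k _ => hol_u k) hprod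
  have hginv := quot_inv h
  obtain ⟨F, hF1, hF2⟩ := extend (G := fun w => g (pt w))
    (fun w hw => diff_pt hgH hginv hw) S (C ^ 2) (by
      intro w hw
      have h1 : ‖∏ k ∈ S, b k w‖ = ‖∏ j ∈ S, (pt w).u j‖ ^ 2 := by
        rw [← norm_pow, ← Finset.prod_pow]
        congr 1
        refine Finset.prod_congr rfl fun k _ => ?_
        rw [(pt w).u_sq, pt_z hw]
      have h2 : 0 < ‖∏ j ∈ S, (pt w).u j‖ := norm_pos_iff.2 (hprod _)
      simp only [hg]
      rw [h1, norm_div, ← mul_pow, div_mul_cancel₀ _ h2.ne']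
      exact pow_le_pow_left₀ (norm_nonneg _) (hC _ (pt_mem hw)) 2) hS
  have h0 : ‖F 0‖ ≤ C * ∏ k ∈ S, ε k := by
    apply max_principle hF1
    intro w hw
    have hwW : w ∈ W n := by
      refine ⟨by rw [hw]; norm_num, fun k hk h0 => ?_⟩
      have h1 := b_lower hk hw
      rw [h0, norm_zero] at h1
      have : (0 : ℝ) < 3 / 2 * 4 ^ k := by positivity
      linarith
    rw [hF2 w hwW]
    simp only [hg]
    rw [norm_div, norm_prod, div_le_iff₀ (by
      rw [← norm_prod]; exact norm_pos_iff.2 (hprod _))]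
    have h1 : 1 ≤ (∏ k ∈ S, ε k) * ∏ k ∈ S, ‖(pt w).u k‖ := by
      rw [← Finset.prod_mul_distrib]
      refine Finset.prod_induction _ (fun x : ℝ => 1 ≤ x)
        (fun _ _ ha hb => one_le_mul_of_one_le_of_one_le ha hb) le_rfl ?_
      intro k hk
      exact ε_circle (hS k hk) (by rw [pt_z hwW]; exact hw)
    have hC0 : 0 ≤ C := (norm_nonneg _).trans (hC _ (pt_mem hwW))
    calc ‖f (pt w)‖ ≤ C * 1 := by rw [mul_one]; exact hC _ (pt_mem hwW)
      _ ≤ C * ((∏ k ∈ S, ε k) * ∏ k ∈ S, ‖(pt w).u k‖) := by gcongr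
      _ = C * (∏ k ∈ S, ε k) * ∏ k ∈ S, ‖(pt w).u k‖ := by ring
  have h3 : F 0 = f p0 := by
    rw [hF2 0 (zero_mem_W n)]
    simp only [hg]
    rw [pt_zero]
    simp [p0_u]
  rwa [h3] at h0

/-- even part -/
noncomputable def ev (k : ℕ) (f : RR → ℂ) (q : RR) : ℂ := (f q + f (σ k q)) / 2

/-- odd part -/
noncomputable def od (k : ℕ) (f : RR → ℂ) (q : RR) : ℂ := (f q - f (σ k q)) / 2

lemma ev_add_od (k : ℕ) (f : RR → ℂ) (q : RR) : f q = ev k f q + od k f q := by
  unfold ev od; ring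

lemma Hol.ev {f : RR → ℂ} (hf : Hol f) (k : ℕ) : Hol (ev k f) :=
  (hf.add (hf.comp_σ k)).div (hol_const 2) fun _ => two_ne_zero

lemma Hol.od {f : RR → ℂ} (hf : Hol f) (k : ℕ) : Hol (od k f) :=
  (hf.sub (hf.comp_σ k)).div (hol_const 2) fun _ => two_ne_zero

lemma bdd_ev {f : RR → ℂ} {C : ℝ} (hC : ∀ q, ‖f q‖ ≤ C) (k : ℕ) (q : RR) : ‖ev k f q‖ ≤ C := by
  unfold ev
  rw [norm_div]
  have h1 := norm_add_le (f q) (f (σ k q))
  have h2 := hC q
  have h3 := hC (σ k q)
  have h4 : ‖(2 : ℂ)‖ = 2 := by norm_num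
  rw [h4]
  linarith

lemma bdd_od {f : RR → ℂ} {C : ℝ} (hC : ∀ q, ‖f q‖ ≤ C) (k : ℕ) (q : RR) : ‖od k f q‖ ≤ C := by
  unfold od
  rw [norm_div]
  have h1 := norm_sub_le (f q) (f (σ k q))
  have h2 := hC q
  have h3 := hC (σ k q)
  have h4 : ‖(2 : ℂ)‖ = 2 := by norm_num
  rw [h4]
  linarith

lemma Homog.ev {S T : Finset ℕ} {f : RR → ℂ} (h : Homog S T f) {k : ℕ} (hk : k ∉ S) :
    Homog S (insert k T) (ev k f) := by
  constructor
  · intro j hj q
    unfold RR.ev
    rw [σ_comm j k, h.1 j hj, h.1 j hj]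
    ring
  · intro j hj hjS q
    unfold RR.ev
    rcases Finset.mem_insert.1 hj with h1 | h1
    · subst h1
      rw [σ_σ]
      ring
    · rw [σ_comm j k, h.2 j h1 hjS, h.2 j h1 hjS]

lemma Homog.od {S T : Finset ℕ} {f : RR → ℂ} (h : Homog S T f) {k : ℕ} :
    Homog (insert k S) (insert k T) (od k f) := by
  constructor
  · intro j hj q
    unfold RR.od
    rcases Finset.mem_insert.1 hj with h1 | h1
    · subst h1
      rw [σ_σ]
      ring
    · rw [σ_comm j k, h.1 j h1, h.1 j h1]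
      ring
  · intro j hj hjS q
    unfold RR.od
    rw [Finset.mem_insert, not_or] at hjS
    rcases Finset.mem_insert.1 hj with h1 | h1
    · exact absurd h1 hjS.1
    · rw [σ_comm j k, h.2 j h1 hjS.2, h.2 j h1 hjS.2]

theorem me_ind (n : ℕ) (T' : Finset ℕ) : ∀ (S T : Finset ℕ), S ⊆ T → Disjoint T T' →
    T ∪ T' = Finset.range (n + 1) → ∀ (f : RR → ℂ), Hol f → Homog S T f → ∀ C : ℝ,
    (∀ q, ‖f q‖ ≤ C) → ‖f p0‖ ≤ C * (∏ k ∈ S, ε k) * ∏ k ∈ T', (1 + ε k) := by
  induction T' using Finset.induction_on with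
  | empty =>
    intro S T hST _ hU f hf h C hC
    rw [Finset.union_empty] at hU
    subst hU
    rw [Finset.prod_empty, mul_one]
    exact base (fun k hk => by have := Finset.mem_range.1 (hST hk); omega) hf h
      (fun q _ => hC q)
  | insert k T' hk ih =>
    intro S T hST hD hU f hf h C hC
    rw [Finset.disjoint_insert_right] at hD
    have hkS : k ∉ S := fun h1 => hD.1 (hST h1)
    have hD' : Disjoint (insert k T) T' := Finset.disjoint_insert_left.2 ⟨hk, hD.2⟩
    have hU' : insert k T ∪ T' = Finset.range (n + 1) := by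
      rw [← hU]
      ext x
      simp only [Finset.mem_union, Finset.mem_insert]
      tauto
    have h1 := ih S (insert k T) (hST.trans (Finset.subset_insert _ _)) hD' hU' (ev k f)
      (hf.ev k) (h.ev hkS) C (bdd_ev hC k)
    have h2 := ih (insert k S) (insert k T) (Finset.insert_subset_insert _ hST) hD' hU' (od k f)
      (hf.od k) h.od C (bdd_od hC k)
    rw [Finset.prod_insert hkS] at h2
    rw [Finset.prod_insert hk, ev_add_od k f p0]
    refine (norm_add_le _ _).trans ((add_le_add h1 h2).trans (le_of_eq ?_))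
    ring

lemma prod_bound (n : ℕ) : ∏ k ∈ Finset.range n, (1 + ε k) ≤ Real.exp 2 := by
  have h1 : ∏ k ∈ Finset.range n, (1 + ε k) ≤ ∏ k ∈ Finset.range n, Real.exp (ε k) := by
    apply Finset.prod_le_prod
    · intro k _; have := ε_pos k; linarith
    · intro k _; have := Real.add_one_le_exp (ε k); linarith
  have h2 : ∑ k ∈ Finset.range n, ε k ≤ 2 := by
    have h3 : ∀ m : ℕ, ∑ k ∈ Finset.range m, ε k ≤ 2 - 2 * (1 / 2) ^ m := by
      intro m
      induction m with
      | zero => simp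
      | succ m ih =>
        rw [Finset.sum_range_succ]
        have : ε m ≤ (1 / 2) ^ m := by
          unfold ε
          have : (0 : ℝ) < (1 / 2) ^ m := by positivity
          linarith
        rw [pow_succ]
        linarith
    have h4 := h3 n
    have h5 : (0 : ℝ) < (1 / 2) ^ n := by positivity
    linarith
  calc ∏ k ∈ Finset.range n, (1 + ε k) ≤ ∏ k ∈ Finset.range n, Real.exp (ε k) := h1
    _ = Real.exp (∑ k ∈ Finset.range n, ε k) := (Real.exp_sum _ _).symm
    _ ≤ Real.exp 2 := Real.exp_le_exp.2 h2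

/-- Main estimate. -/
theorem main_estimate (n : ℕ) {f : RR → ℂ} (hf : Hol f) {C : ℝ} (hC : ∀ q, ‖f q‖ ≤ C) :
    ‖f p0 - f (σ n p0)‖ ≤ 2 * C * Real.exp 2 * ε n := by
  have hH : Homog ∅ ∅ f := ⟨by simp, by simp⟩
  have h1 := me_ind n (Finset.range n) {n} {n} (Finset.Subset.refl _) (by simp)
    (by ext x; simp only [Finset.mem_union, Finset.mem_singleton, Finset.mem_range]; omega)
    (od n f) (hf.od n) (by simpa using hH.od (k := n)) C (bdd_od hC n)
  rw [Finset.prod_singleton] at h1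
  have h2 : f p0 - f (σ n p0) = 2 * od n f p0 := by unfold od; ring
  have hC0 : 0 ≤ C := (norm_nonneg _).trans (hC p0)
  rw [h2, norm_mul]
  have h4 : ‖(2 : ℂ)‖ = 2 := by norm_num
  rw [h4]
  have h5 : C * ε n * ∏ k ∈ Finset.range n, (1 + ε k) ≤ C * ε n * Real.exp 2 :=
    mul_le_mul_of_nonneg_left (prod_bound n) (mul_nonneg hC0 (ε_pos n).le)
  linarith

/-! ### locally constant functions -/

/-- locally constant functions -/
def LC (f : RR → ℂ) : Prop := ∀ q, ∀ᶠ q' in 𝓝 q, f q' = f q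

lemma LC.lift {f : RR → ℂ} (hf : LC f) (q : RR) : ∀ᶠ w in 𝓝 q.z, f (lift q w) = f q := by
  have h1 := q.continuousAt_lift
  unfold ContinuousAt at h1
  rw [lift_self] at h1
  exact h1.eventually (hf q)

lemma LC.hol {f : RR → ℂ} (hf : LC f) : Hol f :=
  (hol_iff f).2 fun q => (differentiableAt_const (f q)).congr_of_eventuallyEq (hf.lift q)

lemma LC.comp_σ {f : RR → ℂ} (hf : LC f) (k : ℕ) : LC (fun q => f (σ k q)) := by
  intro q
  exact (continuous_γ {k}).continuousAt.eventually (hf (σ k q))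

lemma LC.ev {f : RR → ℂ} (hf : LC f) (k : ℕ) : LC (ev k f) := by
  intro q
  filter_upwards [hf q, hf.comp_σ k q] with q' h1 h2
  unfold RR.ev
  rw [h1, h2]

lemma LC.od {f : RR → ℂ} (hf : LC f) (k : ℕ) : LC (od k f) := by
  intro q
  filter_upwards [hf q, hf.comp_σ k q] with q' h1 h2
  unfold RR.od
  rw [h1, h2]

lemma W_nhds {n : ℕ} {w : ℂ} (hw : w ∈ W n) : ∀ᶠ z in 𝓝 w, z ∈ W n := by
  have h := eventually_nhdsWithin_iff.1 (W_punct hw.1)
  filter_upwards [h] with z hz
  by_cases hzw : z = w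
  · rw [hzw]; exact hw
  · exact hz hzw

/-- invariant locally constant functions are constant on `V n` -/
theorem lc_const {n : ℕ} {g : RR → ℂ} (hg : LC g) (hinv : ∀ k, k ≤ n → ∀ q, g (σ k q) = g q)
    {C : ℝ} (hC : ∀ q ∈ V n, ‖g q‖ ≤ C) {q : RR} (hq : q ∈ V n) : g q = g p0 := by
  obtain ⟨F, hF1, hF2⟩ := extend (G := fun w => g (pt w))
    (fun w hw => diff_pt hg.hol hinv hw) ∅ (C ^ 2) (by
      intro w hw
      rw [Finset.prod_empty, norm_one, mul_one]
      exact pow_le_pow_left₀ (norm_nonneg _) (hC _ (pt_mem hw)) 2) (by simp)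
  set r : ℝ := (3 / 4 : ℝ) ^ ((N n : ℝ)⁻¹) with hr
  have hr0 : 0 < r := Real.rpow_pos_of_pos (by norm_num) _
  have hrN : r ^ (N n) = 3 / 4 := Real.rpow_inv_natCast_pow (by norm_num) (N_pos n).ne'
  have hmem : ∀ w : ℂ, w ∈ Metric.ball (0 : ℂ) r ↔ ‖w‖ ^ (N n) < 3 / 4 := by
    intro w
    rw [mem_ball_zero_iff, ← hrN]
    exact (pow_lt_pow_iff_left₀ (norm_nonneg _) hr0.le (N_pos n).ne').symm
  have hd : DifferentiableOn ℂ F (Metric.ball 0 r) := fun w hw =>
    (hF1 w ((hmem w).1 hw)).differentiableWithinAt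
  have hdW : ∀ w ∈ W n, deriv F w = 0 := by
    intro w hw
    have h1 : F =ᶠ[𝓝 w] fun _ => g (pt w) := by
      have h2 := hg.lift (pt w)
      rw [pt_z hw] at h2
      filter_upwards [W_nhds hw, pt_lift hinv hw, h2] with z e1 e2 e3
      rw [hF2 z e1, e2, e3]
    rw [h1.deriv_eq, deriv_const]
  have hdB : Set.EqOn (deriv F) 0 (Metric.ball 0 r) := by
    intro w hw
    have h1 : ContinuousAt (deriv F) w :=
      ((hd.deriv Metric.isOpen_ball).differentiableAt (Metric.isOpen_ball.mem_nhds hw)).continuousAt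
    have h2 : Tendsto (deriv F) (𝓝[≠] w) (𝓝 (deriv F w)) :=
      h1.tendsto.mono_left nhdsWithin_le_nhds
    have h3 : Tendsto (deriv F) (𝓝[≠] w) (𝓝 0) := by
      refine tendsto_const_nhds.congr' ?_
      filter_upwards [W_punct ((hmem w).1 hw)] with z hz
      exact (hdW z hz).symm
    exact tendsto_nhds_unique h2 h3
  have h5 := Metric.isOpen_ball.is_const_of_deriv_eq_zero
    (convex_ball (0 : ℂ) r).isPreconnected hd hdB
    ((hmem q.z).2 hq.1) (Metric.mem_ball_self hr0)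
  rw [hF2 _ (z_mem_W hq), hF2 _ (zero_mem_W n), pt_zero] at h5
  rw [inv_pt hinv hq]
  exact h5

theorem lc_ind (n : ℕ) (T' : Finset ℕ) : ∀ (S T : Finset ℕ), S ⊆ T → Disjoint T T' →
    T ∪ T' = Finset.range (n + 1) → ∀ (f : RR → ℂ), LC f → Homog S T f → ∀ C : ℝ,
    (∀ q, ‖f q‖ ≤ C) → ∀ q ∈ V n, f q = f p0 := by
  induction T' using Finset.induction_on with
  | empty =>
    intro S T hST _ hU f hf h C hC q hq
    rw [Finset.union_empty] at hU
    subst hU
    have hSn : ∀ k ∈ S, k ≤ n := fun k hk => by have := Finset.mem_range.1 (hST hk); omega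
    rcases S.eq_empty_or_nonempty with hS | ⟨j, hj⟩
    · exact lc_const hf (h.inv hS) (fun q _ => hC q) hq
    · have hsq : ∀ q ∈ V n, f q ^ 2 = f p0 ^ 2 := by
        intro q hq
        refine lc_const (g := fun q => f q ^ 2) (C := C ^ 2) ?_ ?_ ?_ hq
        · intro q
          filter_upwards [hf q] with q' h1
          rw [h1]
        · intro k hk q
          by_cases hkS : k ∈ S
          · simp only [h.1 k hkS, neg_sq]
          · simp only [h.2 k (Finset.mem_range.2 (by omega)) hkS]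
        · intro q _
          rw [norm_pow]
          exact pow_le_pow_left₀ (norm_nonneg _) (hC q) 2
      have hn : ∀ q ∈ V n, ‖f q‖ ≤ ‖f p0‖ := by
        intro q hq
        have h1 := congrArg norm (hsq q hq)
        rw [norm_pow, norm_pow] at h1
        exact le_of_eq ((pow_left_inj₀ (norm_nonneg _) (norm_nonneg _) two_ne_zero).1 h1)
      have h2 := base hSn hf.hol h hn
      have h3 : ∏ k ∈ S, ε k ≤ 9 / 10 := by
        rw [← Finset.mul_prod_erase S ε hj]
        have h4 : ∏ k ∈ S.erase j, ε k ≤ 1 :=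
          Finset.prod_le_one (fun k _ => (ε_pos k).le) (fun k _ => by have := ε_le k; linarith)
        have h5 : 0 ≤ ∏ k ∈ S.erase j, ε k := Finset.prod_nonneg fun k _ => (ε_pos k).le
        nlinarith [ε_le j, ε_pos j]
      have h6 : ‖f p0‖ = 0 := by
        have := norm_nonneg (f p0)
        nlinarith
      have h7 := hn q hq
      rw [h6] at h7
      rw [norm_eq_zero.1 h6, norm_eq_zero.1 (le_antisymm h7 (norm_nonneg _))]
  | insert k T' hk ih =>
    intro S T hST hD hU f hf h C hC q hq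
    rw [Finset.disjoint_insert_right] at hD
    have hkS : k ∉ S := fun h1 => hD.1 (hST h1)
    have hD' : Disjoint (insert k T) T' := Finset.disjoint_insert_left.2 ⟨hk, hD.2⟩
    have hU' : insert k T ∪ T' = Finset.range (n + 1) := by
      rw [← hU]
      ext x
      simp only [Finset.mem_union, Finset.mem_insert]
      tauto
    have h1 := ih S (insert k T) (hST.trans (Finset.subset_insert _ _)) hD' hU' (ev k f)
      (hf.ev k) (h.ev hkS) C (bdd_ev hC k) q hq
    have h2 := ih (insert k S) (insert k T) (Finset.insert_subset_insert _ hST) hD' hU' (od k f)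
      (hf.od k) h.od C (bdd_od hC k) q hq
    rw [ev_add_od k f q, ev_add_od k f p0, h1, h2]

lemma exists_V (q : RR) : ∃ n, q ∈ V n := by
  obtain ⟨n0, hn0⟩ := exists_n q.z_lt
  have h1 : ∀ᶠ k in atTop, 0 < (q.u k).re := by
    have h2 : Tendsto (fun k => (q.u k).re) atTop (𝓝 (1 : ℂ).re) :=
      (Complex.continuous_re.tendsto _).comp q.tend
    exact h2.eventually (lt_mem_nhds (by simp))
  obtain ⟨n1, hn1⟩ := eventually_atTop.1 h1
  refine ⟨max n0 n1, hn0 _ (le_max_left _ _), fun k hk => ?_⟩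
  exact eq_of_sq_eq (by rw [q.u_sq, csq_sq (q.b_ne k)])
    (hn1 k (le_trans (le_max_right _ _) hk.le)) (csq_re _)

theorem const_of_lc {f : RR → ℂ} (hf : LC f) {C : ℝ} (hC : ∀ q, ‖f q‖ ≤ C) (q : RR) :
    f q = f p0 := by
  obtain ⟨n, hn⟩ := exists_V q
  exact lc_ind n (Finset.range (n + 1)) ∅ ∅ (Finset.Subset.refl _) (by simp) (by simp) f hf
    ⟨by simp, by simp⟩ C hC q hn

instance : ConnectedSpace RR := by
  have h1 : PreconnectedSpace RR := by
    apply preconnectedSpace_of_forall_constant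
    intro χ hχ x y
    have hLC : LC (fun q => if χ q then (1 : ℂ) else 0) := by
      intro q
      have h2 : ∀ᶠ q' in 𝓝 q, χ q' = χ q :=
        hχ.continuousAt.eventually (mem_nhds_discrete.2 rfl : {c | c = χ q} ∈ 𝓝 (χ q))
      filter_upwards [h2] with q' h3
      rw [h3]
    have hb : ∀ q, ‖(fun q => if χ q then (1 : ℂ) else 0) q‖ ≤ 1 := by
      intro q
      simp only
      split_ifs <;> simp
    have h4 : (fun q => if χ q then (1 : ℂ) else 0) x = (fun q => if χ q then (1 : ℂ) else 0) y :=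
      (const_of_lc hLC hb x).trans (const_of_lc hLC hb y).symm
    simp only at h4
    cases hx : χ x <;> cases hy : χ y <;> simp [hx, hy] at h4 ⊢
  exact { toNonempty := ⟨p0⟩ }

end RR

end Pool.Agent.W672.RS
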