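import Pool.Agent.W672.RS4

set_option autoImplicit false
open Filter Topology Complex
open scoped Manifold

/-! Second countability and the limit characters. -/

namespace Pool.Agent.W672.RS

namespace RR

lemma exists_γ {n : ℕ} {q : RR} (hq : q ∈ V n) : ∃ B : Finset ℕ, q = γ B (pt q.z) := by
  classical
  have hW := z_mem_W hq
  refine ⟨(Finset.range (n + 1)).filter (fun k => q.u k ≠ (pt q.z).u k), ?_⟩
  refine ext' ?_ fun k => ?_
  · rw [γ_z, pt_z hW]
  · rw [γ_u]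
    have h3 : q.u k ^ 2 = (pt q.z).u k ^ 2 := by
      rw [q.u_sq, (pt q.z).u_sq, pt_z hW]
    by_cases hk : k ≤ n
    · by_cases he : q.u k = (pt q.z).u k
      · rw [if_neg (by simp [he]), he]
      · rw [if_pos (by
          rw [Finset.mem_filter, Finset.mem_range]
          exact ⟨by omega, he⟩)]
        exact (sq_eq_sq_iff_eq_or_eq_neg.1 h3).resolve_left he
    · rw [if_neg (by
        rw [Finset.mem_filter, Finset.mem_range]
        omega), pt_u hW]
      exact hq.2 k (by omega)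

/-- the uniform structure of the surface -/
@[reducible] noncomputable def unif : UniformSpace RR :=
  inferInstanceAs (UniformSpace {q : ℂ × (UniformFun ℕ ℂ) // ‖q.1‖ < 1 ∧
  (∀ n, (UniformFun.toFun q.2 n) ^ 2 = b n q.1) ∧ (∀ n, b n q.1 ≠ 0) ∧
  Tendsto (UniformFun.toFun q.2) atTop (𝓝 1)})

instance : SecondCountableTopology RR := by
  have h1 : (@uniformity RR unif).IsCountablyGenerated :=
    inferInstanceAs (uniformity {q : ℂ × (UniformFun ℕ ℂ) // ‖q.1‖ < 1 ∧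
      (∀ n, (UniformFun.toFun q.2 n) ^ 2 = b n q.1) ∧ (∀ n, b n q.1 ≠ 0) ∧
      Tendsto (UniformFun.toFun q.2) atTop (𝓝 1)}).IsCountablyGenerated
  have h2 : TopologicalSpace.SeparableSpace RR := by
    obtain ⟨s, hs1, hs2⟩ := TopologicalSpace.exists_countable_dense ℂ
    have : Countable s := hs1.to_subtype
    refine ⟨Set.range (fun x : s × Finset ℕ => γ x.2 (pt x.1)), Set.countable_range _, ?_⟩
    rw [dense_iff_inter_open]
    rintro U hU ⟨q, hq⟩
    obtain ⟨n, hn⟩ := exists_V q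
    have h3 : U ∩ V n ∈ 𝓝 q := inter_mem (hU.mem_nhds hq) (V_nhds hn)
    have h4 : z '' (U ∩ V n) ∈ 𝓝 q.z := isOpenMap_z.image_mem_nhds h3
    obtain ⟨w, hw1, hw2⟩ := (hs2.inter_nhds_nonempty h4)
    obtain ⟨q', hq', rfl⟩ := hw2
    obtain ⟨B, hB⟩ := exists_γ hq'.2
    refine ⟨q', hq'.1, ⟨⟨⟨q'.z, hw1⟩, B⟩, ?_⟩⟩
    exact hB.symm
  exact @UniformSpace.secondCountable_of_separable RR unif h1 h2

/-! ### limit characters -/

/-- base point with the coordinates `m, …, m+j-1` flipped -/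
noncomputable def sq' (m j : ℕ) : RR := γ (Finset.Ico m (m + j)) p0

lemma sq'_zero (m : ℕ) : sq' m 0 = p0 := by
  refine ext' rfl fun k => ?_
  simp [sq', γ_u]

lemma γ_σ (B : Finset ℕ) (n : ℕ) (q : RR) : γ B (σ n q) = σ n (γ B q) := by
  refine ext' rfl fun i => ?_
  simp only [σ, γ_u, Finset.mem_singleton]
  split_ifs <;> rfl

lemma sq'_succ (m j : ℕ) : sq' m (j + 1) = γ (Finset.Ico m (m + j)) (σ (m + j) p0) := by
  unfold sq'
  rw [γ_σ, ← γ_insert (by simp), Finset.insert_Ico_right_eq_Ico_add_one (by omega)]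
  rfl

lemma sq'_dist {f : RR → ℂ} (hf : Hol f) {C : ℝ} (hC : ∀ q, ‖f q‖ ≤ C) (m j : ℕ) :
    dist (f (sq' m j)) (f (sq' m (j + 1))) ≤ (2 * C * Real.exp 2 * (1 / 2) ^ m) * (1 / 2) ^ j := by
  rw [dist_eq_norm, sq'_succ]
  have hg : Hol (fun q => f (γ (Finset.Ico m (m + j)) q)) :=
    hf.comp_cont (continuous_γ _) (fun _ => rfl)
  have h1 := main_estimate (m + j) hg (fun q => hC _)
  refine h1.trans ?_
  have hC0 : 0 ≤ C := (norm_nonneg _).trans (hC p0)
  have h2 : ε (m + j) ≤ (1 / 2) ^ m * (1 / 2) ^ j := by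
    unfold ε
    rw [pow_add]
    have : (0 : ℝ) < (1 / 2) ^ m * (1 / 2) ^ j := by positivity
    linarith
  calc 2 * C * Real.exp 2 * ε (m + j) ≤ 2 * C * Real.exp 2 * ((1 / 2) ^ m * (1 / 2) ^ j) :=
        mul_le_mul_of_nonneg_left h2 (by positivity)
    _ = _ := by ring

/-- the limit functional -/
noncomputable def lim' (m : ℕ) (f : RR → ℂ) : ℂ := limUnder atTop (fun j => f (sq' m j))

lemma lim'_tendsto {f : RR → ℂ} (hf : Hol f) {C : ℝ} (hC : ∀ q, ‖f q‖ ≤ C) (m : ℕ) :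
    Tendsto (fun j => f (sq' m j)) atTop (𝓝 (lim' m f)) := by
  have h1 : CauchySeq (fun j => f (sq' m j)) :=
    cauchySeq_of_le_geometric (1 / 2) _ (by norm_num) (sq'_dist hf hC m)
  exact h1.tendsto_limUnder

lemma lim'_dist {f : RR → ℂ} (hf : Hol f) {C : ℝ} (hC : ∀ q, ‖f q‖ ≤ C) (m : ℕ) :
    dist (f p0) (lim' m f) ≤ (2 * C * Real.exp 2 * (1 / 2) ^ m) / (1 - 1 / 2) := by
  have h1 := dist_le_of_le_geometric_of_tendsto₀ (1 / 2) _ (by norm_num) (sq'_dist hf hC m)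
    (lim'_tendsto hf hC m)
  simp only [sq'_zero] at h1
  exact h1

lemma lim'_tendsto_p0 {f : RR → ℂ} (hf : Hol f) {C : ℝ} (hC : ∀ q, ‖f q‖ ≤ C) :
    Tendsto (fun m => lim' m f) atTop (𝓝 (f p0)) := by
  rw [tendsto_iff_dist_tendsto_zero]
  have h1 : Tendsto (fun n : ℕ => (1 / 2 : ℝ) ^ n) atTop (𝓝 0) :=
    tendsto_pow_atTop_nhds_zero_of_lt_one (by norm_num) (by norm_num)
  have h2 := (h1.const_mul (2 * C * Real.exp 2)).div_const (1 - 1 / 2)
  rw [mul_zero, zero_div] at h2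
  refine squeeze_zero (fun _ => dist_nonneg) (fun m => ?_) h2
  rw [dist_comm]
  exact lim'_dist hf hC m

lemma lim'_u {m k : ℕ} (h : m ≤ k) : lim' m (fun q => q.u k) = -1 := by
  have h1 := lim'_tendsto (hol_u k) (bdd_u k) m
  have h2 : Tendsto (fun j => (sq' m j).u k) atTop (𝓝 (-1)) := by
    refine tendsto_const_nhds.congr' ?_
    filter_upwards [eventually_gt_atTop k] with j hj
    rw [sq', γ_u, p0_u, if_pos (by rw [Finset.mem_Ico]; omega)]
  exact tendsto_nhds_unique h1 h2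

end RR

end Pool.Agent.W672.RS
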